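import Mathlib

/-!
# Dyadic Dirichlet polynomials: sorting the integers by a multiplier and a divisor
-/

set_option autoImplicit false

namespace Pool.Agent.Q144.RS

open Finset

/-- `n^{it}` -/
noncomputable def ph (t : ℝ) (n : ℕ) : ℂ :=
  Complex.exp ((((t : ℝ) * Real.log (n : ℝ) : ℝ) : ℂ) * Complex.I)

/-- `D(t) = ∑_{N ≤ n ≤ 2N} b_n n^{it}` -/
noncomputable def D (N : ℕ) (b : ℕ → ℂ) (t : ℝ) : ℂ := ∑ n ∈ Icc N (2 * N), b n * ph t n

lemma ph_norm (t : ℝ) (n : ℕ) : ‖ph t n‖ = 1 := Complex.norm_exp_ofReal_mul_I _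

lemma ph_mul (t : ℝ) {m n : ℕ} (hm : 1 ≤ m) (hn : 1 ≤ n) : ph t (m * n) = ph t m * ph t n := by
  have hm0 : (m : ℝ) ≠ 0 := by exact_mod_cast (by omega : m ≠ 0)
  have hn0 : (n : ℝ) ≠ 0 := by exact_mod_cast (by omega : n ≠ 0)
  unfold ph
  rw [← Complex.exp_add]
  congr 1
  have e : Real.log ((m * n : ℕ) : ℝ) = Real.log m + Real.log n := by
    push_cast
    exact Real.log_mul hm0 hn0
  rw [e]
  push_cast
  ring

/-- the coefficients of the piece -/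
noncomputable def bb (b : ℕ → ℂ) (N : ℕ) (mu kap : ℕ → ℕ) (m k e : ℕ) : ℂ :=
  open Classical in
  if k ∣ e ∧ N ≤ m * (e / k) ∧ m * (e / k) ≤ 2 * N ∧ mu (m * (e / k)) = m ∧ kap (m * (e / k)) = k then
    b (m * (e / k)) else 0

lemma bb_norm {b : ℕ → ℂ} (hb : ∀ n, ‖b n‖ ≤ 1) (N : ℕ) (mu kap : ℕ → ℕ) (m k e : ℕ) :
    ‖bb b N mu kap m k e‖ ≤ 1 := by
  unfold bb
  split_ifs
  · exact hb _
  · simp

/-- the new length -/
noncomputable def len (N m k : ℕ) : ℕ := ⌈((k : ℝ) * N) / m⌉₊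

theorem piece (b : ℕ → ℂ) (N : ℕ) (hN : 1 ≤ N) (mu kap : ℕ → ℕ) (hdiv : ∀ n, N ≤ n → n ≤ 2 * N → mu n ∣ n)
    (m k : ℕ) (hm : 1 ≤ m) (hk : 1 ≤ k) (t : ℝ) :
    ‖∑ n ∈ (Icc N (2 * N)).filter (fun n => mu n = m ∧ kap n = k), b n * ph t n‖ =
      ‖D (len N m k) (bb b N mu kap m k) t‖ := by
  have hm0 : (0 : ℝ) < m := by exact_mod_cast hm
  have hl1 : ∀ l : ℕ, N ≤ m * l → len N m k ≤ k * l := by
    intro l hl
    apply Nat.ceil_le.2
    rw [div_le_iff₀ hm0]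
    have h2 : (N : ℝ) ≤ m * l := by exact_mod_cast hl
    push_cast
    calc (k : ℝ) * N ≤ k * (m * l) := mul_le_mul_of_nonneg_left h2 (by positivity)
      _ = _ := by ring
  have hl2 : ∀ l : ℕ, m * l ≤ 2 * N → k * l ≤ 2 * len N m k := by
    intro l hl
    have h1 : ((k : ℝ) * N) / m ≤ len N m k := Nat.le_ceil _
    rw [div_le_iff₀ hm0] at h1
    have h2 : ((m * l : ℕ) : ℝ) ≤ ((2 * N : ℕ) : ℝ) := by exact_mod_cast hl
    push_cast at h2
    have h3 : (k : ℝ) * (m * l) ≤ k * (2 * N) := mul_le_mul_of_nonneg_left h2 (by positivity)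
    have h4 : (m : ℝ) * (k * l) ≤ m * (2 * len N m k) := by nlinarith
    have h5 : (k : ℝ) * l ≤ 2 * len N m k := le_of_mul_le_mul_left h4 hm0
    exact_mod_cast h5
  have h2 : D (len N m k) (bb b N mu kap m k) t =
      ∑ n ∈ (Icc N (2 * N)).filter (fun n => mu n = m ∧ kap n = k), b n * ph t (k * (n / m)) := by
    unfold D
    symm
    refine sum_of_injOn (fun n => k * (n / m)) ?_ ?_ ?_ ?_
    · intro x hx y hy hxy
      rw [mem_coe, mem_filter, mem_Icc] at hx hy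
      have dx : m ∣ x := by rw [← hx.2.1]; exact hdiv x hx.1.1 hx.1.2
      have dy : m ∣ y := by rw [← hy.2.1]; exact hdiv y hy.1.1 hy.1.2
      have h3 : x / m = y / m := Nat.eq_of_mul_eq_mul_left hk hxy
      rw [← Nat.mul_div_cancel' dx, ← Nat.mul_div_cancel' dy, h3]
    · intro n hn
      rw [mem_coe, mem_filter, mem_Icc] at hn
      rw [mem_coe, mem_Icc]
      have dn : m ∣ n := by rw [← hn.2.1]; exact hdiv n hn.1.1 hn.1.2
      have e1 : m * (n / m) = n := Nat.mul_div_cancel' dn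
      exact ⟨hl1 _ (by rw [e1]; exact hn.1.1), hl2 _ (by rw [e1]; exact hn.1.2)⟩
    · intro e _ hne
      unfold bb
      rw [if_neg, zero_mul]
      rintro ⟨h3, h4, h5, h6, h7⟩
      apply hne
      refine ⟨m * (e / k), ?_, ?_⟩
      · rw [mem_coe, mem_filter, mem_Icc]
        exact ⟨⟨h4, h5⟩, h6, h7⟩
      · show k * (m * (e / k) / m) = e
        rw [Nat.mul_div_cancel_left _ (by omega), Nat.mul_div_cancel' h3]
    · intro n hn
      rw [mem_filter, mem_Icc] at hn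
      have dn : m ∣ n := by rw [← hn.2.1]; exact hdiv n hn.1.1 hn.1.2
      have e1 : m * (n / m) = n := Nat.mul_div_cancel' dn
      have e2 : k * (n / m) / k = n / m := Nat.mul_div_cancel_left _ (by omega)
      unfold bb
      rw [if_pos]
      · simp only [e2, e1]
      · simp only [e2, e1]
        exact ⟨dvd_mul_right _ _, hn.1.1, hn.1.2, hn.2.1, hn.2.2⟩
  have h3 : ph t m * D (len N m k) (bb b N mu kap m k) t =
      ph t k * ∑ n ∈ (Icc N (2 * N)).filter (fun n => mu n = m ∧ kap n = k), b n * ph t n := by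
    rw [h2, mul_sum, mul_sum]
    refine sum_congr rfl fun n hn => ?_
    rw [mem_filter, mem_Icc] at hn
    have dn : m ∣ n := by rw [← hn.2.1]; exact hdiv n hn.1.1 hn.1.2
    have e1 : m * (n / m) = n := Nat.mul_div_cancel' dn
    have hn1 : 1 ≤ n := hN.trans hn.1.1
    have hq1 : 1 ≤ n / m := by
      rcases Nat.eq_zero_or_pos (n / m) with h | h
      · rw [h, mul_zero] at e1
        omega
      · exact h
    have e3 : ph t n = ph t m * ph t (n / m) := by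
      rw [← ph_mul t hm hq1, e1]
    rw [ph_mul t hk hq1, e3]
    ring
  have h4 := congrArg (fun z => ‖z‖) h3
  simp only [norm_mul, ph_norm, one_mul] at h4
  exact h4.symm

/-- the numbers with a large divisor in `P` are few -/
theorem count (N : ℕ) (P : Finset ℕ) (mu : ℕ → ℕ) (X : ℝ) (hX : 0 < X)
    (hP : ∀ n, N ≤ n → n ≤ 2 * N → mu n ∈ P ∧ mu n ∣ n) (hN : 1 ≤ N) :
    (((Icc N (2 * N)).filter (fun n : ℕ => X < ((mu n : ℕ) : ℝ))).card : ℝ) ≤ 2 * N / Real.sqrt X * ∑ m ∈ P, 1 / Real.sqrt m := by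
  classical
  have hsub : (Icc N (2 * N)).filter (fun n : ℕ => X < ((mu n : ℕ) : ℝ)) ⊆ (P.filter (fun m : ℕ => X < (m : ℝ))).biUnion
      (fun m : ℕ => (Ioc 0 (2 * N)).filter (fun n : ℕ => m ∣ n)) := by
    intro n hn
    rw [mem_filter, mem_Icc] at hn
    rw [mem_biUnion]
    obtain ⟨h1, h2⟩ := hP n hn.1.1 hn.1.2
    exact ⟨mu n, mem_filter.2 ⟨h1, hn.2⟩, mem_filter.2 ⟨mem_Ioc.2 ⟨by omega, hn.1.2⟩, h2⟩⟩
  have h1 := (card_le_card hsub).trans card_biUnion_le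
  have h2 : (((Icc N (2 * N)).filter (fun n : ℕ => X < ((mu n : ℕ) : ℝ))).card : ℝ) ≤
      ∑ m ∈ P.filter (fun m : ℕ => X < (m : ℝ)), (((Ioc 0 (2 * N)).filter (fun n : ℕ => m ∣ n)).card : ℝ) := by
    exact_mod_cast h1
  refine h2.trans ?_
  have h3 : ∀ m ∈ P.filter (fun m : ℕ => X < (m : ℝ)), (((Ioc 0 (2 * N)).filter (fun n : ℕ => m ∣ n)).card : ℝ) ≤
      2 * N / Real.sqrt X * (1 / Real.sqrt m) := by
    intro m hm
    have hXm := (mem_filter.1 hm).2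
    have hm0 : (0 : ℝ) < m := hX.trans hXm
    rw [Nat.Ioc_filter_dvd_card_eq_div]
    have h4 : (((2 * N) / m : ℕ) : ℝ) ≤ (2 * N : ℕ) / (m : ℝ) := Nat.cast_div_le
    refine h4.trans ?_
    push_cast
    have h5 : Real.sqrt X * Real.sqrt m ≤ m := by
      calc Real.sqrt X * Real.sqrt m ≤ Real.sqrt m * Real.sqrt m :=
            mul_le_mul_of_nonneg_right (Real.sqrt_le_sqrt hXm.le) (Real.sqrt_nonneg _)
        _ = m := Real.mul_self_sqrt hm0.le
    have hs1 : 0 < Real.sqrt X := Real.sqrt_pos.2 hX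
    have hs2 : 0 < Real.sqrt (m : ℝ) := Real.sqrt_pos.2 hm0
    rw [div_mul_div_comm, mul_one]
    exact div_le_div_of_nonneg_left (by positivity) (by positivity) h5
  refine (sum_le_sum h3).trans ?_
  rw [← mul_sum]
  apply mul_le_mul_of_nonneg_left _ (by positivity)
  exact sum_le_sum_of_subset_of_nonneg (filter_subset _ _) fun m _ _ => by positivity

/-- the decomposition -/
theorem decomp (b : ℕ → ℂ) (hb : ∀ n, ‖b n‖ ≤ 1) (N : ℕ) (hN : 1 ≤ N) (P : Finset ℕ) (K : ℕ) (mu kap : ℕ → ℕ)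
    (X : ℝ) (hX : 0 < X) (h : ∀ n, N ≤ n → n ≤ 2 * N → mu n ∈ P ∧ mu n ∣ n ∧ 1 ≤ kap n ∧ kap n ≤ K) (t : ℝ) :
    ‖D N b t‖ ≤ ∑ i ∈ (P.filter (fun m : ℕ => 1 ≤ m ∧ (m : ℝ) ≤ X)) ×ˢ Icc 1 K,
      ‖D (len N i.1 i.2) (bb b N mu kap i.1 i.2) t‖ + 2 * N / Real.sqrt X * ∑ m ∈ P, 1 / Real.sqrt m := by
  classical
  have h0 : D N b t = ∑ n ∈ (Icc N (2 * N)).filter (fun n : ℕ => ((mu n : ℕ) : ℝ) ≤ X), b n * ph t n +
      ∑ n ∈ (Icc N (2 * N)).filter (fun n : ℕ => ¬ ((mu n : ℕ) : ℝ) ≤ X), b n * ph t n := by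
    unfold D
    rw [sum_filter_add_sum_filter_not]
  have h1 : ∑ n ∈ (Icc N (2 * N)).filter (fun n : ℕ => ((mu n : ℕ) : ℝ) ≤ X), b n * ph t n =
      ∑ i ∈ (P.filter (fun m : ℕ => 1 ≤ m ∧ (m : ℝ) ≤ X)) ×ˢ Icc 1 K,
        ∑ n ∈ (Icc N (2 * N)).filter (fun n => mu n = i.1 ∧ kap n = i.2), b n * ph t n := by
    have hmaps : ∀ n ∈ (Icc N (2 * N)).filter (fun n : ℕ => ((mu n : ℕ) : ℝ) ≤ X),
        (mu n, kap n) ∈ (P.filter (fun m : ℕ => 1 ≤ m ∧ (m : ℝ) ≤ X)) ×ˢ Icc 1 K := by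
      intro n hn
      rw [mem_filter, mem_Icc] at hn
      obtain ⟨a1, a2, a3, a4⟩ := h n hn.1.1 hn.1.2
      rw [mem_product, mem_filter, mem_Icc]
      refine ⟨⟨a1, ?_, hn.2⟩, a3, a4⟩
      exact Nat.pos_of_dvd_of_pos a2 (by omega)
    rw [← sum_fiberwise_of_maps_to hmaps]
    refine sum_congr rfl fun i hi => ?_
    apply sum_congr _ fun _ _ => rfl
    ext n
    simp only [mem_filter, Prod.ext_iff]
    constructor
    · rintro ⟨⟨h1, h2⟩, h3, h4⟩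
      exact ⟨h1, h3, h4⟩
    · rintro ⟨h1, h3, h4⟩
      refine ⟨⟨h1, ?_⟩, h3, h4⟩
      rw [h3]
      rw [mem_product, mem_filter] at hi
      exact hi.1.2.2
  have h2 : ‖∑ n ∈ (Icc N (2 * N)).filter (fun n : ℕ => ¬ ((mu n : ℕ) : ℝ) ≤ X), b n * ph t n‖ ≤
      2 * N / Real.sqrt X * ∑ m ∈ P, 1 / Real.sqrt m := by
    refine (norm_sum_le _ _).trans ?_
    have h3 : ∑ n ∈ (Icc N (2 * N)).filter (fun n : ℕ => ¬ ((mu n : ℕ) : ℝ) ≤ X), ‖b n * ph t n‖ ≤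
        ∑ n ∈ (Icc N (2 * N)).filter (fun n : ℕ => X < ((mu n : ℕ) : ℝ)), (1 : ℝ) := by
      have e : (Icc N (2 * N)).filter (fun n : ℕ => ¬ ((mu n : ℕ) : ℝ) ≤ X) =
          (Icc N (2 * N)).filter (fun n : ℕ => X < ((mu n : ℕ) : ℝ)) := by
        apply filter_congr
        intro n _
        exact not_le
      rw [e]
      apply sum_le_sum
      intro n _
      rw [norm_mul, ph_norm, mul_one]
      exact hb n
    refine h3.trans ?_
    rw [sum_const, nsmul_eq_mul, mul_one]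
    exact count N P mu X hX (fun n h1 h2 => ⟨(h n h1 h2).1, (h n h1 h2).2.1⟩) hN
  rw [h0, h1]
  refine (norm_add_le _ _).trans (add_le_add ((norm_sum_le _ _).trans (le_of_eq ?_)) h2)
  refine sum_congr rfl fun i hi => ?_
  rw [mem_product, mem_filter, mem_Icc] at hi
  exact piece b N hN mu kap (fun n h1 h2 => (h n h1 h2).2.1) i.1 i.2 hi.1.2.1 hi.2.1 t

/-- weighted power means -/
theorem wpm {ι : Type*} (I : Finset ι) (w x : ι → ℝ) {q : ℝ} (hq : 1 ≤ q) (hw : ∀ i ∈ I, 0 < w i)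
    (hx : ∀ i ∈ I, 0 ≤ x i) :
    (∑ i ∈ I, x i) ^ q ≤ (∑ i ∈ I, w i) ^ (q - 1) * ∑ i ∈ I, w i * (x i / w i) ^ q := by
  rcases I.eq_empty_or_nonempty with rfl | hne
  · rw [sum_empty, sum_empty, sum_empty, mul_zero, Real.zero_rpow (by linarith)]
  · have hΩ : 0 < ∑ i ∈ I, w i := sum_pos hw hne
    set Ω := ∑ i ∈ I, w i with hΩdef
    have h1 := Real.rpow_arith_mean_le_arith_mean_rpow I (fun i => w i / Ω) (fun i => x i / w i)
      (fun i hi => div_nonneg (hw i hi).le hΩ.le) (by rw [← sum_div]; exact div_self hΩ.ne')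
      (fun i hi => div_nonneg (hx i hi) (hw i hi).le) hq
    have e1 : ∑ i ∈ I, w i / Ω * (x i / w i) = (∑ i ∈ I, x i) / Ω := by
      rw [sum_div]
      refine sum_congr rfl fun i hi => ?_
      have := (hw i hi).ne'
      field_simp
    have e2 : ∑ i ∈ I, w i / Ω * (x i / w i) ^ q = (∑ i ∈ I, w i * (x i / w i) ^ q) / Ω := by
      rw [sum_div]
      exact sum_congr rfl fun i _ => by ring
    rw [e1, e2, Real.div_rpow (sum_nonneg hx) hΩ.le, div_le_div_iff₀ (by positivity) hΩ] at h1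
    have e3 : Ω ^ q = Ω ^ (q - 1) * Ω := by
      rw [← Real.rpow_add_one hΩ.ne']; congr 1; ring
    rw [e3] at h1
    have h2 : (∑ i ∈ I, x i) ^ q * Ω ≤ (Ω ^ (q - 1) * ∑ i ∈ I, w i * (x i / w i) ^ q) * Ω := by
      calc _ ≤ _ := h1
        _ = _ := by ring
    exact le_of_mul_le_mul_right h2 hΩ

end Pool.Agent.Q144.RS
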