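import Pool.Agent.Q144.RS.Base

/-!
# Dyadic Dirichlet polynomials: the bound for coefficients supported on a rich set gives the general bound
-/

set_option autoImplicit false

namespace Pool.Agent.Q144.RS

open Finset

lemma two_pow {x y q : ℝ} (hq : 1 ≤ q) (hx : 0 ≤ x) (hy : 0 ≤ y) :
    (x + y) ^ q ≤ 2 ^ (q - 1) * (x ^ q + y ^ q) := by
  have h := Real.rpow_sum_le_const_mul_sum_rpow_of_nonneg (univ : Finset (Fin 2)) (f := ![x, y]) hq (by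
    intro i _
    fin_cases i
    · exact hx
    · exact hy)
  simpa [Fin.sum_univ_two] using h

/-- the finite inequality -/
theorem fin_ineq {q : ℝ} (hq : 2 ≤ q) (N : ℕ) (hN : 1 ≤ N) (P : Finset ℕ) (K : ℕ) (mu kap : ℕ → ℕ)
    (X : ℝ) (hX : 0 < X) (h : ∀ n, N ≤ n → n ≤ 2 * N → mu n ∈ P ∧ mu n ∣ n ∧ 1 ≤ kap n ∧ kap n ≤ K)
    (b : ℕ → ℂ) (hb : ∀ n, ‖b n‖ ≤ 1) (W : Finset ℤ) (B : ℝ) (hB : 0 ≤ B)
    (hyp : ∀ m ∈ P, 1 ≤ m → (m : ℝ) ≤ X → ∀ k, 1 ≤ k → k ≤ K →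
      ∑ t ∈ W, ‖D (len N m k) (bb b N mu kap m k) t‖ ^ q ≤
        B * (2 * (2 * K * N / m) ^ q + W.card * (2 * K * N / m) ^ (q / 2))) :
    ∑ t ∈ W, ‖D N b t‖ ^ q ≤ 2 ^ (q - 1) * ((K * ∑ m ∈ P, 1 / Real.sqrt m) ^ q *
      (B * (2 * (2 * K * N) ^ q + W.card * (2 * K * N) ^ (q / 2))) +
      W.card * (2 * N / Real.sqrt X * ∑ m ∈ P, 1 / Real.sqrt m) ^ q) := by
  have hq1 : 1 ≤ q := by linarith
  have hq0 : 0 < q := by linarith
  set S0 := ∑ m ∈ P, 1 / Real.sqrt (m : ℝ) with hS0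
  have hS00 : 0 ≤ S0 := sum_nonneg fun m _ => by positivity
  set I := (P.filter (fun m : ℕ => 1 ≤ m ∧ (m : ℝ) ≤ X)) ×ˢ Icc 1 K with hI
  have hIm : ∀ i ∈ I, i.1 ∈ P ∧ 1 ≤ i.1 ∧ (i.1 : ℝ) ≤ X ∧ 1 ≤ i.2 ∧ i.2 ≤ K := by
    intro i hi
    rw [hI, mem_product, mem_filter, mem_Icc] at hi
    exact ⟨hi.1.1, hi.1.2.1, hi.1.2.2, hi.2.1, hi.2.2⟩
  set R := 2 * N / Real.sqrt X * S0 with hR
  have hR0 : 0 ≤ R := by positivity
  have hΩ : ∑ i ∈ I, 1 / Real.sqrt (i.1 : ℝ) ≤ K * S0 := by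
    rw [hI, sum_product_right]
    calc ∑ y ∈ Icc 1 K, ∑ x ∈ P.filter (fun m : ℕ => 1 ≤ m ∧ (m : ℝ) ≤ X), 1 / Real.sqrt (x : ℝ)
        ≤ ∑ _y ∈ Icc 1 K, S0 := by
          apply sum_le_sum
          intro y _
          exact sum_le_sum_of_subset_of_nonneg (filter_subset _ _) fun m _ _ => by positivity
      _ = K * S0 := by rw [sum_const, Nat.card_Icc, nsmul_eq_mul, Nat.add_sub_cancel]
  have hΩ0 : 0 ≤ ∑ i ∈ I, 1 / Real.sqrt (i.1 : ℝ) := sum_nonneg fun i _ => by positivity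
  set Z := 2 * (2 * (K : ℝ) * N) ^ q + W.card * (2 * (K : ℝ) * N) ^ (q / 2) with hZ
  have hZ0 : 0 ≤ Z := by positivity
  have hterm : ∀ i ∈ I, 1 / Real.sqrt (i.1 : ℝ) * ∑ t ∈ W,
      (‖D (len N i.1 i.2) (bb b N mu kap i.1 i.2) t‖ / (1 / Real.sqrt (i.1 : ℝ))) ^ q ≤
      1 / Real.sqrt (i.1 : ℝ) * (B * Z) := by
    intro i hi
    obtain ⟨h1, h2, h3, h4, h5⟩ := hIm i hi
    have hm0 : (0 : ℝ) < i.1 := by exact_mod_cast h2
    have hm1 : (1 : ℝ) ≤ i.1 := by exact_mod_cast h2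
    apply mul_le_mul_of_nonneg_left _ (by positivity)
    have hs0 : 0 < Real.sqrt (i.1 : ℝ) := Real.sqrt_pos.2 hm0
    have hsq : (Real.sqrt (i.1 : ℝ)) ^ q = (i.1 : ℝ) ^ (q / 2) := by
      rw [Real.sqrt_eq_rpow, ← Real.rpow_mul hm0.le]
      congr 1
      ring
    have e1 : ∀ t : ℤ, (‖D (len N i.1 i.2) (bb b N mu kap i.1 i.2) t‖ / (1 / Real.sqrt (i.1 : ℝ))) ^ q =
        (i.1 : ℝ) ^ (q / 2) * ‖D (len N i.1 i.2) (bb b N mu kap i.1 i.2) t‖ ^ q := by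
      intro t
      rw [div_div_eq_mul_div, div_one, Real.mul_rpow (norm_nonneg _) hs0.le, hsq, mul_comm]
    simp only [e1]
    rw [← mul_sum]
    have h6 := mul_le_mul_of_nonneg_left (hyp i.1 h1 h2 h3 i.2 h4 h5)
      (show 0 ≤ (i.1 : ℝ) ^ (q / 2) by positivity)
    refine h6.trans ?_
    have e2 : (i.1 : ℝ) ^ (q / 2) * (2 * (K : ℝ) * N / i.1) ^ (q / 2) = (2 * (K : ℝ) * N) ^ (q / 2) := by
      rw [← Real.mul_rpow hm0.le (by positivity)]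
      congr 1
      field_simp
    have e3 : (i.1 : ℝ) ^ (q / 2) * (2 * (K : ℝ) * N / i.1) ^ q ≤ (2 * (K : ℝ) * N) ^ q := by
      rw [Real.div_rpow (by positivity) hm0.le, mul_div_assoc', mul_comm, mul_div_assoc]
      calc (2 * (K : ℝ) * N) ^ q * ((i.1 : ℝ) ^ (q / 2) / (i.1 : ℝ) ^ q) ≤ (2 * (K : ℝ) * N) ^ q * 1 := by
            apply mul_le_mul_of_nonneg_left _ (by positivity)
            rw [div_le_one (by positivity)]
            exact Real.rpow_le_rpow_of_exponent_le hm1 (by linarith)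
        _ = _ := mul_one _
    calc (i.1 : ℝ) ^ (q / 2) * (B * (2 * (2 * K * N / i.1) ^ q + W.card * (2 * K * N / i.1) ^ (q / 2)))
        = B * (2 * ((i.1 : ℝ) ^ (q / 2) * (2 * (K : ℝ) * N / i.1) ^ q) +
          W.card * ((i.1 : ℝ) ^ (q / 2) * (2 * (K : ℝ) * N / i.1) ^ (q / 2))) := by ring
      _ ≤ B * Z := by
          apply mul_le_mul_of_nonneg_left _ hB
          rw [hZ, e2]
          have : (0 : ℝ) ≤ W.card := Nat.cast_nonneg _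
          linarith
  have hpt : ∀ t ∈ W, ‖D N b t‖ ^ q ≤ 2 ^ (q - 1) * ((∑ i ∈ I, 1 / Real.sqrt (i.1 : ℝ)) ^ (q - 1) *
      ∑ i ∈ I, 1 / Real.sqrt (i.1 : ℝ) *
        (‖D (len N i.1 i.2) (bb b N mu kap i.1 i.2) t‖ / (1 / Real.sqrt (i.1 : ℝ))) ^ q + R ^ q) := by
    intro t _
    have h1 := decomp b hb N hN P K mu kap X hX h t
    have h2 := Real.rpow_le_rpow (norm_nonneg _) h1 hq0.le
    refine h2.trans ((two_pow hq1 (sum_nonneg fun _ _ => norm_nonneg _) hR0).trans ?_)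
    apply mul_le_mul_of_nonneg_left _ (by positivity)
    apply add_le_add _ le_rfl
    exact wpm I (fun i => 1 / Real.sqrt (i.1 : ℝ)) (fun i => ‖D (len N i.1 i.2) (bb b N mu kap i.1 i.2) t‖) hq1
      (fun i hi => by
        have : (0 : ℝ) < i.1 := by exact_mod_cast (hIm i hi).2.1
        have := Real.sqrt_pos.2 this
        positivity) (fun i _ => norm_nonneg _)
  refine (sum_le_sum hpt).trans ?_
  rw [← mul_sum, sum_add_distrib, ← mul_sum, sum_const, nsmul_eq_mul]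
  apply mul_le_mul_of_nonneg_left _ (by positivity)
  apply add_le_add _ le_rfl
  rw [sum_comm]
  have h7 : ∑ i ∈ I, ∑ t ∈ W, 1 / Real.sqrt (i.1 : ℝ) *
        (‖D (len N i.1 i.2) (bb b N mu kap i.1 i.2) t‖ / (1 / Real.sqrt (i.1 : ℝ))) ^ q ≤
      (∑ i ∈ I, 1 / Real.sqrt (i.1 : ℝ)) * (B * Z) := by
    rw [sum_mul]
    apply sum_le_sum
    intro i hi
    rw [← mul_sum]
    exact hterm i hi
  calc (∑ i ∈ I, 1 / Real.sqrt (i.1 : ℝ)) ^ (q - 1) * _ ≤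
        (∑ i ∈ I, 1 / Real.sqrt (i.1 : ℝ)) ^ (q - 1) * ((∑ i ∈ I, 1 / Real.sqrt (i.1 : ℝ)) * (B * Z)) :=
        mul_le_mul_of_nonneg_left h7 (by positivity)
    _ = (∑ i ∈ I, 1 / Real.sqrt (i.1 : ℝ)) ^ q * (B * Z) := by
        rcases hΩ0.eq_or_lt with h0 | h0
        · rw [← h0, Real.zero_rpow (by linarith : q ≠ 0)]; ring
        · rw [← mul_assoc, ← Real.rpow_add_one h0.ne']
          congr 2
          ring
    _ ≤ _ := by
        apply mul_le_mul_of_nonneg_right _ (by positivity)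
        exact Real.rpow_le_rpow hΩ0 hΩ hq0.le

end Pool.Agent.Q144.RS
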