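import Pool.Agent.Cov.PNT

/-!
# Primes of a residue class in short intervals which do not divide a given number
-/

set_option autoImplicit false

namespace Pool.Agent.Q144.RS

open Finset Filter Topology

/-- Chebyshev's function of a residue class -/
noncomputable def TH (q b : ℕ) (x : ℝ) : ℝ :=
  ∑ p ∈ (Icc 1 ⌊x⌋₊).filter (fun p => p.Prime ∧ p ≡ b [MOD q]), Real.log p

lemma TH_cmp (q b : ℕ) (x : ℝ) :
    0 ≤ ∑ k ∈ Icc 1 ⌊x⌋₊, ArithmeticFunction.vonMangoldt.residueClass (b : ZMod q) k - TH q b x ∧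
    ∑ k ∈ Icc 1 ⌊x⌋₊, ArithmeticFunction.vonMangoldt.residueClass (b : ZMod q) k - TH q b x ≤
      Chebyshev.psi x - Chebyshev.theta x := by
  classical
  have hI : Icc 1 ⌊x⌋₊ = Ioc 0 ⌊x⌋₊ := rfl
  have key : ∀ m : ℕ, 0 ≤ ArithmeticFunction.vonMangoldt.residueClass (b : ZMod q) m -
      (if m.Prime ∧ m ≡ b [MOD q] then Real.log m else 0) ∧
      ArithmeticFunction.vonMangoldt.residueClass (b : ZMod q) m -
      (if m.Prime ∧ m ≡ b [MOD q] then Real.log m else 0) ≤
      ArithmeticFunction.vonMangoldt m - (if m.Prime then Real.log m else 0) := by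
    intro m
    have hcl : ((m : ZMod q) = (b : ZMod q)) ↔ m ≡ b [MOD q] := ZMod.natCast_eq_natCast_iff m b q
    unfold ArithmeticFunction.vonMangoldt.residueClass
    rw [Set.indicator_apply]
    simp only [Set.mem_ofPred_eq, hcl]
    have hnn := ArithmeticFunction.vonMangoldt_nonneg (n := m)
    by_cases hp : m.Prime
    · have h4 := ArithmeticFunction.vonMangoldt_apply_prime hp
      have hl : 0 ≤ Real.log m := Real.log_natCast_nonneg m
      by_cases hm : m ≡ b [MOD q]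
      · rw [if_pos hm, if_pos ⟨hp, hm⟩, if_pos hp, h4]
        constructor <;> linarith
      · rw [if_neg hm, if_neg (fun h => hm h.2), if_pos hp, h4]
        constructor <;> linarith
    · rw [if_neg (fun h : m.Prime ∧ m ≡ b [MOD q] => hp h.1), if_neg hp]
      split_ifs
      · constructor <;> linarith
      · constructor <;> linarith
  unfold TH Chebyshev.psi Chebyshev.theta
  rw [hI, sum_filter, sum_filter, ← sum_sub_distrib, ← sum_sub_distrib]
  exact ⟨sum_nonneg fun m _ => (key m).1, sum_le_sum fun m _ => (key m).2⟩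

theorem TH_tendsto (q b : ℕ) (hq : 0 < q) (hb : b.Coprime q) :
    Tendsto (fun x : ℝ => TH q b x / x) atTop (𝓝 ((q.totient : ℝ)⁻¹)) := by
  have : NeZero q := ⟨hq.ne'⟩
  have hu : IsUnit (b : ZMod q) := (ZMod.isUnit_iff_coprime b q).2 hb
  have h1 := Pool.Agent.Cov.PNT.pnt_residueClass hu
  have h2 := Pool.Agent.Cov.PNT.psi_div_tendsto.sub Pool.Agent.Cov.PNT.theta_div_tendsto
  rw [sub_self] at h2
  have h3 : Tendsto (fun x : ℝ => (∑ k ∈ Icc 1 ⌊x⌋₊,
      ArithmeticFunction.vonMangoldt.residueClass (b : ZMod q) k - TH q b x) / x) atTop (𝓝 0) := by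
    refine squeeze_zero' ?_ ?_ h2
    · filter_upwards [eventually_gt_atTop 0] with x hx
      exact div_nonneg (TH_cmp q b x).1 hx.le
    · filter_upwards [eventually_gt_atTop 0] with x hx
      rw [← sub_div]
      exact div_le_div_of_nonneg_right (TH_cmp q b x).2 hx.le
  have h4 := h1.sub h3
  rw [sub_zero] at h4
  refine h4.congr fun x => ?_
  rw [← sub_div]
  congr 1
  ring

lemma TH_sub (q b : ℕ) {x y : ℝ} (hxy : x ≤ y) : TH q b y - TH q b x =
    ∑ p ∈ (Ioc ⌊x⌋₊ ⌊y⌋₊).filter (fun p => p.Prime ∧ p ≡ b [MOD q]), Real.log p := by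
  classical
  have hf : ⌊x⌋₊ ≤ ⌊y⌋₊ := Nat.floor_le_floor hxy
  have hI : ∀ z : ℕ, Icc 1 z = Ioc 0 z := fun _ => rfl
  unfold TH
  rw [hI, hI, sum_filter, sum_filter, sum_filter, ← sum_Ioc_consecutive _ (Nat.zero_le _) hf]
  ring

/-- primes of a residue class in short intervals -/
theorem window_sum (q : ℕ) (hq : 0 < q) {δ : ℝ} (hδ : 0 < δ) : ∃ c : ℝ, 0 < c ∧ ∀ᶠ t : ℝ in atTop,
    ∀ b : ℕ, b.Coprime q → c * t ≤
      ∑ p ∈ (Ioc ⌊t⌋₊ ⌊(1 + δ) * t⌋₊).filter (fun p => p.Prime ∧ p ≡ b [MOD q]), Real.log p := by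
  have hφ : (0 : ℝ) < q.totient := by exact_mod_cast Nat.totient_pos.2 hq
  refine ⟨δ * (q.totient : ℝ)⁻¹ / 2, by positivity, ?_⟩
  have h0 : ∀ b ∈ range q, ∀ᶠ t : ℝ in atTop, b.Coprime q → δ * (q.totient : ℝ)⁻¹ / 2 * t ≤
      ∑ p ∈ (Ioc ⌊t⌋₊ ⌊(1 + δ) * t⌋₊).filter (fun p => p.Prime ∧ p ≡ b [MOD q]), Real.log p := by
    intro b _
    by_cases hb : b.Coprime q
    · have h1 := TH_tendsto q b hq hb
      have h2 : Tendsto (fun t : ℝ => (1 + δ) * t) atTop atTop :=
        tendsto_id.const_mul_atTop (by linarith)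
      have h3 := ((h1.comp h2).const_mul (1 + δ)).sub h1
      have h4 : δ * (q.totient : ℝ)⁻¹ / 2 < (1 + δ) * (q.totient : ℝ)⁻¹ - (q.totient : ℝ)⁻¹ := by
        have : 0 < δ * (q.totient : ℝ)⁻¹ := by positivity
        linarith
      filter_upwards [h3.eventually (lt_mem_nhds h4), eventually_gt_atTop 0] with t h5 ht _
      simp only [Function.comp] at h5
      have e : (1 + δ) * (TH q b ((1 + δ) * t) / ((1 + δ) * t)) - TH q b t / t =
          (TH q b ((1 + δ) * t) - TH q b t) / t := by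
        have : (1 + δ) ≠ 0 := by linarith
        field_simp
      rw [e, lt_div_iff₀ ht, TH_sub q b (by nlinarith)] at h5
      exact h5.le
    · exact Eventually.of_forall fun t h => absurd h hb
  have h1 := (eventually_all_finset (range q)).2 h0
  filter_upwards [h1] with t ht b hb
  have h2 := ht (b % q) (mem_range.2 (Nat.mod_lt _ hq)) (by
    rw [Nat.coprime_iff_gcd_eq_one, ← Nat.gcd_rec, Nat.gcd_comm]
    exact hb)
  refine h2.trans (le_of_eq ?_)
  apply sum_congr _ fun _ _ => rfl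
  apply filter_congr
  intro p _
  have h3 : b % q ≡ b [MOD q] := Nat.mod_modEq b q
  exact and_congr_right fun _ => ⟨fun h => h.trans h3, fun h => h.trans h3.symm⟩

/-- a prime of a residue class in a short interval which does not divide `L` -/
theorem pick (q : ℕ) (hq : 0 < q) {δ : ℝ} (hδ : 0 < δ) : ∃ c : ℝ, 0 < c ∧ ∀ᶠ t : ℝ in atTop,
    ∀ b L : ℕ, b.Coprime q → L ≠ 0 → Real.log L < c * t →
      ∃ p : ℕ, p.Prime ∧ p ≡ b [MOD q] ∧ t < p ∧ (p : ℝ) ≤ (1 + δ) * t ∧ ¬ p ∣ L := by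
  obtain ⟨c, hc, h⟩ := window_sum q hq hδ
  refine ⟨c, hc, ?_⟩
  filter_upwards [h, eventually_gt_atTop 0] with t ht ht0 b L hb hL hlog
  have h1 := ht b hb
  by_contra hcon
  push Not at hcon
  have h2 : ∏ p ∈ (Ioc ⌊t⌋₊ ⌊(1 + δ) * t⌋₊).filter (fun p => p.Prime ∧ p ≡ b [MOD q]), p ∣ L := by
    apply Finset.prod_primes_dvd
    · intro p hp
      exact ((mem_filter.1 hp).2.1).prime
    · intro p hp
      rw [mem_filter, mem_Ioc] at hp
      refine hcon p hp.2.1 hp.2.2 ((Nat.floor_lt ht0.le).1 hp.1.1) ?_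
      exact (Nat.le_floor_iff (by positivity)).1 hp.1.2
  have h3 := Nat.le_of_dvd (Nat.pos_of_ne_zero hL) h2
  have h4 : ∑ p ∈ (Ioc ⌊t⌋₊ ⌊(1 + δ) * t⌋₊).filter (fun p => p.Prime ∧ p ≡ b [MOD q]), Real.log p ≤ Real.log L := by
    rw [← Real.log_prod]
    · apply Real.log_le_log
      · apply prod_pos
        intro p hp
        exact_mod_cast ((mem_filter.1 hp).2.1).pos
      · have h5 : ((∏ p ∈ (Ioc ⌊t⌋₊ ⌊(1 + δ) * t⌋₊).filter (fun p => p.Prime ∧ p ≡ b [MOD q]), p : ℕ) : ℝ) ≤ (L : ℝ) :=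
          Nat.cast_le.2 h3
        rw [Nat.cast_prod] at h5
        exact h5
    · intro p hp
      exact_mod_cast ((mem_filter.1 hp).2.1).ne_zero
  linarith

end Pool.Agent.Q144.RS
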