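import Pool.Agent.Q144.RS.Eng

/-!
# Rich sets and the transference
-/

set_option autoImplicit false

namespace Pool.Agent.Q144.RS

open Finset

/-- every `n ∈ [N, 2N]` is `m l` with `k l ∈ E` for some `k ≤ C N^η` and some `m` from a set
`P` with `∑_{m ∈ P} 1/√m ≤ C N^η` -/
def Rich (E : Set ℕ) : Prop :=
  ∀ η : ℝ, 0 < η → ∃ C : ℝ, ∀ N : ℕ, 1 ≤ N → ∃ P : Finset ℕ,
    ∑ m ∈ P, 1 / Real.sqrt (m : ℝ) ≤ C * (N : ℝ) ^ η ∧
    ∀ n : ℕ, N ≤ n → n ≤ 2 * N → ∃ m ∈ P, ∃ k l : ℕ, n = m * l ∧ 1 ≤ k ∧ (k : ℝ) ≤ C * (N : ℝ) ^ η ∧ k * l ∈ E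

/-- the bound for the `q`-th moment over `W` -/
def Good (q ε C : ℝ) (N : ℕ) (b : ℕ → ℂ) (W : Finset ℤ) : Prop :=
  ∑ t ∈ W, ‖D N b t‖ ^ q ≤ C * ((N : ℝ) ^ ε * ((N : ℝ) ^ q + W.card * (N : ℝ) ^ (q / 2)))

/-- **the transference** -/
theorem engine {q : ℝ} (hq : 2 ≤ q) {E : Set ℕ} (hE : Rich E) (Adm : ℝ → ℕ → Finset ℤ → Prop)
    (hAdm : ∀ A c : ℝ, 0 < c → ∃ A' : ℝ, ∀ (N : ℕ) (W : Finset ℤ) (M : ℕ), 1 ≤ N → Adm A N W → (N : ℝ) ^ c ≤ M →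
      ∃ W', W ⊆ W' ∧ Adm A' M W' ∧ (W'.card : ℝ) ≤ W.card + M)
    (h : ∀ A ε : ℝ, 0 < ε → ∃ C : ℝ, ∀ (N : ℕ) (W : Finset ℤ) (b : ℕ → ℂ), 1 ≤ N → Adm A N W →
      (∀ n, ‖b n‖ ≤ 1) → (∀ n, n ∉ E → b n = 0) → Good q ε C N b W) :
    ∀ A ε : ℝ, 0 < ε → ∃ C : ℝ, ∀ (N : ℕ) (W : Finset ℤ) (b : ℕ → ℂ), 1 ≤ N → Adm A N W →
      (∀ n, ‖b n‖ ≤ 1) → Good q ε C N b W := by
  intro A ε hε
  have hq0 : 0 < q := by linarith
  have hq1 : 1 ≤ q := by linarith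
  -- the parameters
  obtain ⟨c, hc⟩ : ∃ c : ℝ, c = min 1 (ε / q) := ⟨_, rfl⟩
  have hc0 : 0 < c := by rw [hc]; exact lt_min one_pos (by positivity)
  have hc1 : c ≤ 1 := by rw [hc]; exact min_le_left _ _
  have hcq : q * c ≤ ε := by
    have h1 : c ≤ ε / q := by rw [hc]; exact min_le_right _ _
    rw [le_div_iff₀ hq0] at h1
    linarith
  obtain ⟨ε₁, hε₁⟩ : ∃ ε₁ : ℝ, ε₁ = min (ε / 4) 1 := ⟨_, rfl⟩
  have hε₁0 : 0 < ε₁ := by rw [hε₁]; exact lt_min (by positivity) one_pos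
  have hε₁1 : ε₁ ≤ 1 := by rw [hε₁]; exact min_le_right _ _
  have hε₁2 : ε₁ ≤ ε / 4 := by rw [hε₁]; exact min_le_left _ _
  obtain ⟨η, hη⟩ : ∃ η : ℝ, η = ε / (8 * q) := ⟨_, rfl⟩
  have hη0 : 0 < η := by rw [hη]; positivity
  have hηq : q * η = ε / 8 := by rw [hη]; field_simp
  have hη3 : η ≤ ε / 16 := by nlinarith
  obtain ⟨A', hA'⟩ := hAdm A c hc0
  obtain ⟨C₁, hC₁⟩ := h A' ε₁ hε₁0
  obtain ⟨D₁, hD₁⟩ : ∃ D₁ : ℝ, D₁ = max C₁ 0 := ⟨_, rfl⟩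
  have hD₁0 : 0 ≤ D₁ := by rw [hD₁]; exact le_max_right _ _
  have hCD₁ : C₁ ≤ D₁ := by rw [hD₁]; exact le_max_left _ _
  obtain ⟨C₂, hC₂⟩ := hE η hη0
  obtain ⟨D₂, hD₂⟩ : ∃ D₂ : ℝ, D₂ = max C₂ 1 := ⟨_, rfl⟩
  have hD₂1 : 1 ≤ D₂ := by rw [hD₂]; exact le_max_right _ _
  have hCD₂ : C₂ ≤ D₂ := by rw [hD₂]; exact le_max_left _ _
  refine ⟨2 ^ (q - 1) * (D₁ * 2 * 2 ^ (q + ε₁) * D₂ ^ (3 * q + ε₁) + (2 * D₂) ^ q), fun N W b hN hW hb => ?_⟩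
  have hN1 : (1 : ℝ) ≤ N := by exact_mod_cast hN
  have hN0 : (0 : ℝ) < N := by linarith
  have hw0 : (0 : ℝ) ≤ W.card := Nat.cast_nonneg _
  obtain ⟨P, hP1, hP2⟩ := hC₂ N hN
  obtain ⟨κ, hκ⟩ : ∃ κ : ℝ, κ = D₂ * (N : ℝ) ^ η := ⟨_, rfl⟩
  have hNη : 1 ≤ (N : ℝ) ^ η := Real.one_le_rpow hN1 hη0.le
  have hκ1 : 1 ≤ κ := by rw [hκ]; nlinarith
  have hκ0 : 0 < κ := by linarith
  have hκC : C₂ * (N : ℝ) ^ η ≤ κ := by
    rw [hκ]; exact mul_le_mul_of_nonneg_right hCD₂ (by positivity)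
  obtain ⟨S0, hS0⟩ : ∃ S0 : ℝ, S0 = ∑ m ∈ P, 1 / Real.sqrt (m : ℝ) := ⟨_, rfl⟩
  have hS00 : 0 ≤ S0 := by rw [hS0]; exact sum_nonneg fun m _ => by positivity
  have hS0κ : S0 ≤ κ := by rw [hS0]; exact hP1.trans hκC
  obtain ⟨K, hK⟩ : ∃ K : ℕ, K = ⌊κ⌋₊ := ⟨_, rfl⟩
  have hKκ : (K : ℝ) ≤ κ := by rw [hK]; exact Nat.floor_le hκ0.le
  -- the choice functions
  have hch : ∀ n : ℕ, ∃ m k : ℕ, N ≤ n → n ≤ 2 * N → m ∈ P ∧ ∃ l, n = m * l ∧ 1 ≤ k ∧ k ≤ K ∧ k * l ∈ E := by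
    intro n
    by_cases hn : N ≤ n ∧ n ≤ 2 * N
    · obtain ⟨m, hm, k, l, h1, h2, h3, h4⟩ := hP2 n hn.1 hn.2
      refine ⟨m, k, fun _ _ => ⟨hm, l, h1, h2, ?_, h4⟩⟩
      rw [hK]
      exact Nat.le_floor (h3.trans hκC)
    · exact ⟨0, 0, fun h1 h2 => absurd ⟨h1, h2⟩ hn⟩
  choose mu kap hmk using hch
  obtain ⟨X, hX⟩ : ∃ X : ℝ, X = (N : ℝ) ^ (1 - c) := ⟨_, rfl⟩
  have hX0 : 0 < X := by rw [hX]; positivity
  have hXN : X * (N : ℝ) ^ c = N := by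
    rw [hX, ← Real.rpow_add hN0]
    rw [sub_add_cancel, Real.rpow_one]
  obtain ⟨B, hB⟩ : ∃ B : ℝ, B = D₁ * (2 * κ * N) ^ ε₁ := ⟨_, rfl⟩
  have hB0 : 0 ≤ B := by rw [hB]; positivity
  have hfin := fin_ineq hq N hN P K mu kap X hX0 (fun n h1 h2 => by
    obtain ⟨h3, l, h4, h5, h6, _⟩ := hmk n h1 h2
    refine ⟨h3, ?_, h5, h6⟩
    exact ⟨l, h4⟩) b hb W B hB0 (by
    intro m hm hm1 hmX k hk1 hkK
    have hm0 : (0 : ℝ) < m := by exact_mod_cast hm1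
    have hk0 : (1 : ℝ) ≤ k := by exact_mod_cast hk1
    have hkK' : (k : ℝ) ≤ K := by exact_mod_cast hkK
    have hy : (N : ℝ) ^ c ≤ (k : ℝ) * N / m := by
      rw [le_div_iff₀ hm0]
      calc (N : ℝ) ^ c * m ≤ (N : ℝ) ^ c * X := mul_le_mul_of_nonneg_left hmX (by positivity)
        _ = 1 * N := by rw [mul_comm, hXN, one_mul]
        _ ≤ (k : ℝ) * N := mul_le_mul_of_nonneg_right hk0 hN0.le
    have hNc : 1 ≤ (N : ℝ) ^ c := Real.one_le_rpow hN1 hc0.le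
    have hy1 : 1 ≤ (k : ℝ) * N / m := hNc.trans hy
    have hlen1 : (k : ℝ) * N / m ≤ len N m k := Nat.le_ceil _
    have hlen2 : (len N m k : ℝ) ≤ 2 * K * N / m := by
      have h1 : (len N m k : ℝ) < (k : ℝ) * N / m + 1 := Nat.ceil_lt_add_one (by positivity)
      have h2 : (k : ℝ) * N / m ≤ K * N / m := by
        apply div_le_div_of_nonneg_right _ hm0.le
        exact mul_le_mul_of_nonneg_right hkK' hN0.le
      have h3 : 2 * (K : ℝ) * N / m = 2 * (K * N / m) := by ring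
      rw [h3]
      linarith
    have hM1 : 1 ≤ (len N m k : ℝ) := hy1.trans hlen1
    have hM1' : 1 ≤ len N m k := by exact_mod_cast hM1
    obtain ⟨W', hWW', hadm, hcard⟩ := hA' N W (len N m k) hN hW (hy.trans hlen1)
    have h1 := hC₁ (len N m k) W' (bb b N mu kap m k) hM1' hadm (bb_norm hb N mu kap m k) (by
      intro e he
      unfold bb
      rw [if_neg]
      rintro ⟨h3, h4, h5, h6, h7⟩
      apply he
      obtain ⟨_, l, h8, _, _, h9⟩ := hmk _ h4 h5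
      rw [h6] at h8
      have h10 : e / k = l := Nat.eq_of_mul_eq_mul_left hm1 h8
      rw [h7, ← h10, Nat.mul_div_cancel' h3] at h9
      exact h9)
    unfold Good at h1
    have h2 : ∑ t ∈ W, ‖D (len N m k) (bb b N mu kap m k) t‖ ^ q ≤
        ∑ t ∈ W', ‖D (len N m k) (bb b N mu kap m k) t‖ ^ q :=
      sum_le_sum_of_subset_of_nonneg hWW' fun _ _ _ => by positivity
    refine h2.trans (h1.trans ?_)
    generalize hMdef : ((len N m k : ℕ) : ℝ) = M at *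
    generalize hYdef : 2 * (K : ℝ) * N / m = Y at *
    have hM0 : 0 < M := by linarith
    have hY0 : 0 < Y := by linarith
    have hYle : Y ≤ 2 * κ * N := by
      rw [← hYdef]
      have h3 : 2 * (K : ℝ) * N / m ≤ 2 * K * N := by
        apply div_le_self (by positivity)
        exact_mod_cast hm1
      refine h3.trans ?_
      apply mul_le_mul_of_nonneg_right _ hN0.le
      linarith
    have h3 : M ^ q + W'.card * M ^ (q / 2) ≤ 2 * Y ^ q + W.card * Y ^ (q / 2) := by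
      have h4 : M ^ q ≤ Y ^ q := Real.rpow_le_rpow hM0.le hlen2 hq0.le
      have h5 : M ^ (q / 2) ≤ Y ^ (q / 2) := Real.rpow_le_rpow hM0.le hlen2 (by positivity)
      have h6 : M * M ^ (q / 2) ≤ Y ^ q := by
        have h7 : M * M ^ (q / 2) = M ^ (q / 2 + 1) := by rw [Real.rpow_add_one hM0.ne']; ring
        rw [h7]
        exact (Real.rpow_le_rpow_of_exponent_le hM1 (by linarith)).trans h4
      have h8 : (W'.card : ℝ) * M ^ (q / 2) ≤ (W.card + M) * M ^ (q / 2) :=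
        mul_le_mul_of_nonneg_right hcard (by positivity)
      have h9 : (W.card : ℝ) * M ^ (q / 2) ≤ W.card * Y ^ (q / 2) := mul_le_mul_of_nonneg_left h5 hw0
      linarith
    have h4 : M ^ ε₁ ≤ (2 * κ * N) ^ ε₁ := Real.rpow_le_rpow hM0.le (hlen2.trans hYle) hε₁0.le
    calc C₁ * (M ^ ε₁ * (M ^ q + W'.card * M ^ (q / 2))) ≤ D₁ * (M ^ ε₁ * (M ^ q + W'.card * M ^ (q / 2))) :=
          mul_le_mul_of_nonneg_right hCD₁ (by positivity)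
      _ ≤ D₁ * ((2 * κ * N) ^ ε₁ * (2 * Y ^ q + W.card * Y ^ (q / 2))) := by
          apply mul_le_mul_of_nonneg_left _ hD₁0
          exact mul_le_mul h4 h3 (by positivity) (by positivity)
      _ = B * (2 * Y ^ q + W.card * Y ^ (q / 2)) := by rw [hB]; ring)
  rw [← hS0] at hfin
  unfold Good
  refine hfin.trans ?_
  rw [mul_assoc (2 ^ (q - 1))]
  apply mul_le_mul_of_nonneg_left _ (by positivity)
  -- the first part
  have hG0 : 0 ≤ (N : ℝ) ^ q + W.card * (N : ℝ) ^ (q / 2) := by positivity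
  have hκpow : κ ^ (3 * q + ε₁) = D₂ ^ (3 * q + ε₁) * (N : ℝ) ^ (η * (3 * q + ε₁)) := by
    rw [hκ, Real.mul_rpow (by linarith) (by positivity), ← Real.rpow_mul hN0.le]
  have hfirst : (K * S0) ^ q * (B * (2 * (2 * K * N) ^ q + W.card * (2 * K * N) ^ (q / 2))) ≤
      (D₁ * 2 * 2 ^ (q + ε₁) * D₂ ^ (3 * q + ε₁)) * ((N : ℝ) ^ ε * ((N : ℝ) ^ q + W.card * (N : ℝ) ^ (q / 2))) := by
    have h1 : (K * S0) ^ q ≤ κ ^ (2 * q) := by
      have h2 : (K : ℝ) * S0 ≤ κ ^ (2 : ℝ) := by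
        rw [Real.rpow_two, sq]
        exact mul_le_mul hKκ hS0κ hS00 hκ0.le
      calc (K * S0) ^ q ≤ (κ ^ (2 : ℝ)) ^ q := Real.rpow_le_rpow (by positivity) h2 hq0.le
        _ = κ ^ (2 * q) := by rw [← Real.rpow_mul hκ0.le]
    have h2 : (2 * (K : ℝ) * N) ^ q ≤ (2 * κ) ^ q * (N : ℝ) ^ q := by
      rw [← Real.mul_rpow (by positivity) hN0.le]
      apply Real.rpow_le_rpow (by positivity) _ hq0.le
      apply mul_le_mul_of_nonneg_right _ hN0.le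
      linarith
    have h3 : (2 * (K : ℝ) * N) ^ (q / 2) ≤ (2 * κ) ^ q * (N : ℝ) ^ (q / 2) := by
      have h4 : (2 * (K : ℝ) * N) ^ (q / 2) ≤ (2 * κ) ^ (q / 2) * (N : ℝ) ^ (q / 2) := by
        rw [← Real.mul_rpow (by positivity) hN0.le]
        apply Real.rpow_le_rpow (by positivity) _ (by positivity)
        apply mul_le_mul_of_nonneg_right _ hN0.le
        linarith
      refine h4.trans (mul_le_mul_of_nonneg_right ?_ (by positivity))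
      exact Real.rpow_le_rpow_of_exponent_le (by linarith) (by linarith)
    have h4 : 2 * (2 * (K : ℝ) * N) ^ q + W.card * (2 * K * N) ^ (q / 2) ≤
        2 * (2 * κ) ^ q * ((N : ℝ) ^ q + W.card * (N : ℝ) ^ (q / 2)) := by
      have h5 := mul_le_mul_of_nonneg_left h3 hw0
      have h6 : 0 ≤ (W.card : ℝ) * ((2 * κ) ^ q * (N : ℝ) ^ (q / 2)) := by positivity
      calc _ ≤ 2 * ((2 * κ) ^ q * (N : ℝ) ^ q) + 2 * (W.card * ((2 * κ) ^ q * (N : ℝ) ^ (q / 2))) := by linarith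
        _ = _ := by ring
    have h5 : κ ^ (2 * q) * (2 * κ * N) ^ ε₁ * (2 * κ) ^ q = 2 ^ (q + ε₁) * κ ^ (3 * q + ε₁) * (N : ℝ) ^ ε₁ := by
      have e1 : (2 * κ * N) ^ ε₁ = 2 ^ ε₁ * κ ^ ε₁ * (N : ℝ) ^ ε₁ := by
        rw [Real.mul_rpow (by positivity) hN0.le, Real.mul_rpow (by norm_num) hκ0.le]
      have e2 : (2 * κ) ^ q = 2 ^ q * κ ^ q := Real.mul_rpow (by norm_num) hκ0.le
      have e3 : (2 : ℝ) ^ (q + ε₁) = 2 ^ q * 2 ^ ε₁ := Real.rpow_add (by norm_num) _ _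
      have e4 : κ ^ (3 * q + ε₁) = κ ^ (2 * q) * κ ^ q * κ ^ ε₁ := by
        rw [← Real.rpow_add hκ0, ← Real.rpow_add hκ0]
        congr 1
        ring
      rw [e1, e2, e3, e4]
      ring
    have h6 : (N : ℝ) ^ (η * (3 * q + ε₁)) * (N : ℝ) ^ ε₁ ≤ (N : ℝ) ^ ε := by
      rw [← Real.rpow_add hN0]
      apply Real.rpow_le_rpow_of_exponent_le hN1
      have h7 : η * (3 * q + ε₁) = 3 * (q * η) + η * ε₁ := by ring
      rw [h7, hηq]
      have h8 : η * ε₁ ≤ η := by nlinarith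
      linarith
    calc (K * S0) ^ q * (B * (2 * (2 * K * N) ^ q + W.card * (2 * K * N) ^ (q / 2)))
        ≤ κ ^ (2 * q) * (B * (2 * (2 * κ) ^ q * ((N : ℝ) ^ q + W.card * (N : ℝ) ^ (q / 2)))) := by
          apply mul_le_mul h1 _ (by positivity) (by positivity)
          exact mul_le_mul_of_nonneg_left h4 hB0
      _ = (D₁ * 2) * (κ ^ (2 * q) * (2 * κ * N) ^ ε₁ * (2 * κ) ^ q) *
          ((N : ℝ) ^ q + W.card * (N : ℝ) ^ (q / 2)) := by rw [hB]; ring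
      _ = (D₁ * 2 * 2 ^ (q + ε₁) * D₂ ^ (3 * q + ε₁)) * (((N : ℝ) ^ (η * (3 * q + ε₁)) * (N : ℝ) ^ ε₁) *
          ((N : ℝ) ^ q + W.card * (N : ℝ) ^ (q / 2))) := by rw [h5, hκpow]; ring
      _ ≤ _ := by
          apply mul_le_mul_of_nonneg_left _ (by positivity)
          exact mul_le_mul_of_nonneg_right h6 hG0
  have hsecond : W.card * (2 * N / Real.sqrt X * S0) ^ q ≤
      (2 * D₂) ^ q * ((N : ℝ) ^ ε * ((N : ℝ) ^ q + W.card * (N : ℝ) ^ (q / 2))) := by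
    have h1 : 2 * N / Real.sqrt X * S0 ≤ (2 * D₂) * (N : ℝ) ^ (1 / 2 + c / 2 + η) := by
      have e1 : Real.sqrt X = (N : ℝ) ^ ((1 - c) / 2) := by
        rw [hX, Real.sqrt_eq_rpow, ← Real.rpow_mul hN0.le]
        congr 1
        ring
      have e2 : (N : ℝ) / (N : ℝ) ^ ((1 - c) / 2) = (N : ℝ) ^ (1 / 2 + c / 2) := by
        rw [div_eq_iff (by positivity), ← Real.rpow_add hN0]
        conv_lhs => rw [← Real.rpow_one (N : ℝ)]
        congr 1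
        ring
      have e3 : (N : ℝ) ^ (1 / 2 + c / 2 + η) = (N : ℝ) ^ (1 / 2 + c / 2) * (N : ℝ) ^ η := Real.rpow_add hN0 _ _
      rw [e1, mul_div_assoc, e2, e3]
      calc 2 * (N : ℝ) ^ (1 / 2 + c / 2) * S0 ≤ 2 * (N : ℝ) ^ (1 / 2 + c / 2) * κ :=
            mul_le_mul_of_nonneg_left hS0κ (by positivity)
        _ = _ := by rw [hκ]; ring
    have h2 : (2 * N / Real.sqrt X * S0) ^ q ≤ (2 * D₂) ^ q * ((N : ℝ) ^ ε * (N : ℝ) ^ (q / 2)) := by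
      calc (2 * N / Real.sqrt X * S0) ^ q ≤ ((2 * D₂) * (N : ℝ) ^ (1 / 2 + c / 2 + η)) ^ q :=
            Real.rpow_le_rpow (by positivity) h1 hq0.le
        _ = (2 * D₂) ^ q * (N : ℝ) ^ ((1 / 2 + c / 2 + η) * q) := by
            rw [Real.mul_rpow (by positivity) (by positivity), ← Real.rpow_mul hN0.le]
        _ ≤ (2 * D₂) ^ q * (N : ℝ) ^ (ε + q / 2) := by
            apply mul_le_mul_of_nonneg_left _ (by positivity)
            apply Real.rpow_le_rpow_of_exponent_le hN1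
            have h3 : (1 / 2 + c / 2 + η) * q = q / 2 + q * c / 2 + q * η := by ring
            rw [h3, hηq]
            linarith
        _ = _ := by rw [Real.rpow_add hN0]
    calc W.card * (2 * N / Real.sqrt X * S0) ^ q ≤ W.card * ((2 * D₂) ^ q * ((N : ℝ) ^ ε * (N : ℝ) ^ (q / 2))) :=
          mul_le_mul_of_nonneg_left h2 hw0
      _ = (2 * D₂) ^ q * ((N : ℝ) ^ ε * (0 + W.card * (N : ℝ) ^ (q / 2))) := by ring
      _ ≤ _ := by
          apply mul_le_mul_of_nonneg_left _ (by positivity)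
          apply mul_le_mul_of_nonneg_left _ (by positivity)
          have : 0 ≤ (N : ℝ) ^ q := by positivity
          linarith
  calc _ ≤ _ := add_le_add hfirst hsecond
    _ = _ := by ring

end Pool.Agent.Q144.RS
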