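import Pool.Agent.Q144.RS.Sm
import Pool.Agent.Q144.RS.Pr
import Pool.Agent.Q144.RS.Rich

/-!
# Rich sets: squarefree numbers without small prime factors in a residue class, with prescribed
leading digits and number of prime factors
-/

set_option autoImplicit false

namespace Pool.Agent.Q144.RS

open Finset Filter Topology

/-- it suffices to treat large `N` -/
theorem rich_of_ev {E : Set ℕ} (h : ∀ η : ℝ, 0 < η → ∃ C : ℝ, ∀ᶠ N : ℕ in atTop, ∃ P : Finset ℕ,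
    ∑ m ∈ P, 1 / Real.sqrt (m : ℝ) ≤ C * (N : ℝ) ^ η ∧
    ∀ n : ℕ, N ≤ n → n ≤ 2 * N → ∃ m ∈ P, ∃ k l : ℕ, n = m * l ∧ 1 ≤ k ∧ (k : ℝ) ≤ C * (N : ℝ) ^ η ∧ k * l ∈ E) :
    Rich E := by
  -- an element of `E`
  obtain ⟨e, he1, heE⟩ : ∃ e : ℕ, 1 ≤ e ∧ e ∈ E := by
    obtain ⟨C, hC⟩ := h 1 one_pos
    obtain ⟨N, hN, hN1⟩ := (hC.and (eventually_ge_atTop 1)).exists
    obtain ⟨P, -, hP⟩ := hN
    obtain ⟨m, -, k, l, h1, h2, -, h3⟩ := hP N le_rfl (by omega)
    have hl : 1 ≤ l := by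
      rcases Nat.eq_zero_or_pos l with h | h
      · rw [h, mul_zero] at h1
        omega
      · exact h
    exact ⟨k * l, Nat.mul_pos h2 hl, h3⟩
  intro η hη
  obtain ⟨C, hC⟩ := h η hη
  obtain ⟨N₀, hN₀⟩ := eventually_atTop.1 hC
  refine ⟨max C (2 * N₀ + e), fun N hN => ?_⟩
  have hN1 : (1 : ℝ) ≤ N := by exact_mod_cast hN
  have hNη : 1 ≤ (N : ℝ) ^ η := Real.one_le_rpow hN1 hη.le
  have hpos : (0 : ℝ) ≤ (N : ℝ) ^ η := by positivity
  have hC1 : C * (N : ℝ) ^ η ≤ max C (2 * N₀ + e) * (N : ℝ) ^ η :=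
    mul_le_mul_of_nonneg_right (le_max_left _ _) hpos
  have hC2 : (2 * N₀ + e : ℝ) ≤ max C (2 * N₀ + e) * (N : ℝ) ^ η := by
    calc (2 * N₀ + e : ℝ) = (2 * N₀ + e) * 1 := by ring
      _ ≤ max C (2 * N₀ + e) * (N : ℝ) ^ η :=
        mul_le_mul (le_max_right _ _) hNη zero_le_one (le_trans (by positivity) (le_max_right _ _))
  rcases le_or_gt N₀ N with hc | hc
  · obtain ⟨P, h1, h2⟩ := hN₀ N hc
    refine ⟨P, h1.trans hC1, fun n hn1 hn2 => ?_⟩
    obtain ⟨m, hm, k, l, h3, h4, h5, h6⟩ := h2 n hn1 hn2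
    exact ⟨m, hm, k, l, h3, h4, h5.trans hC1, h6⟩
  · refine ⟨Icc 1 (2 * N), ?_, fun n hn1 hn2 => ⟨n, mem_Icc.2 ⟨by omega, hn2⟩, e, 1, (mul_one n).symm, he1, ?_, ?_⟩⟩
    · have h1 : ∑ m ∈ Icc 1 (2 * N), 1 / Real.sqrt (m : ℝ) ≤ ∑ _m ∈ Icc 1 (2 * N), (1 : ℝ) := by
        apply sum_le_sum
        intro m hm
        have h2 : (1 : ℝ) ≤ m := by exact_mod_cast (mem_Icc.1 hm).1
        rw [div_le_one (Real.sqrt_pos.2 (by linarith))]
        exact Real.one_le_sqrt.2 h2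
      refine h1.trans ?_
      rw [sum_const, Nat.card_Icc, nsmul_eq_mul, mul_one, Nat.add_sub_cancel]
      refine le_trans ?_ hC2
      have h3 : (N : ℝ) ≤ N₀ := by exact_mod_cast hc.le
      have h4 : (0 : ℝ) ≤ e := Nat.cast_nonneg _
      push_cast
      linarith
    · refine le_trans ?_ hC2
      have h4 : (0 : ℝ) ≤ N₀ := Nat.cast_nonneg _
      linarith
    · rw [mul_one]; exact heE

lemma ev_log (a : ℝ) : ∀ᶠ N : ℕ in atTop, a ≤ Real.log N :=
  (Real.tendsto_log_atTop.comp tendsto_natCast_atTop_atTop).eventually_ge_atTop a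

lemma ev_poly (A : ℝ) (m : ℕ) {η : ℝ} (hη : 0 < η) : ∀ᶠ N : ℕ in atTop,
    A * (Real.log N + 1) ^ m ≤ (N : ℝ) ^ η := by
  have h1 : ∀ᶠ L : ℝ in atTop, A * (L + 1) ^ m ≤ Real.exp (η * L) := by
    have h2 := (isLittleO_pow_exp_pos_mul_atTop (k := m) hη).def
      (show (0 : ℝ) < 1 / ((|A| + 1) * Real.exp η) by positivity)
    have h3 : Tendsto (fun L : ℝ => L + 1) atTop atTop := tendsto_atTop_add_const_right _ _ tendsto_id
    filter_upwards [h3.eventually h2, eventually_ge_atTop 0] with L h4 hL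
    rw [Real.norm_of_nonneg (by positivity), Real.norm_of_nonneg (Real.exp_pos _).le] at h4
    have h5 : Real.exp (η * (L + 1)) = Real.exp (η * L) * Real.exp η := by
      rw [← Real.exp_add]; congr 1; ring
    rw [h5] at h4
    have h6 : 1 / ((|A| + 1) * Real.exp η) * (Real.exp (η * L) * Real.exp η) = Real.exp (η * L) / (|A| + 1) := by
      field_simp
    rw [h6, le_div_iff₀ (by positivity)] at h4
    have h7 : A * (L + 1) ^ m ≤ (L + 1) ^ m * (|A| + 1) := by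
      have h8 : A ≤ |A| + 1 := by linarith [le_abs_self A]
      have h9 : 0 ≤ (L + 1) ^ m := by positivity
      nlinarith
    linarith
  have h2 := (Real.tendsto_log_atTop.comp tendsto_natCast_atTop_atTop).eventually h1
  filter_upwards [h2, eventually_ge_atTop 1] with N hN hN1
  have hN0 : (0 : ℝ) < N := by exact_mod_cast hN1
  rw [Real.rpow_def_of_pos hN0, mul_comm (Real.log N)]
  exact hN

lemma ev_root {κ : ℝ} (hκ : κ < 2) (a : ℝ) {η : ℝ} (hη : 0 < η) : ∀ᶠ N : ℕ in atTop,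
    a * (3 * Real.log N) ^ (κ / 2) ≤ η * Real.log N := by
  have h1 : ∀ᶠ L : ℝ in atTop, a * (3 * L) ^ (κ / 2) ≤ η * L := by
    have h2 := (tendsto_rpow_atTop (y := 1 - κ / 2) (by linarith)).eventually_ge_atTop (|a| * 3 ^ (κ / 2) / η)
    filter_upwards [h2, eventually_gt_atTop 0] with L h3 hL
    rw [div_le_iff₀ hη] at h3
    have e : L = L ^ (1 - κ / 2) * L ^ (κ / 2) := by
      rw [← Real.rpow_add hL]
      have : 1 - κ / 2 + κ / 2 = 1 := by ring
      rw [this, Real.rpow_one]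
    have e2 : (3 * L) ^ (κ / 2) = 3 ^ (κ / 2) * L ^ (κ / 2) := Real.mul_rpow (by norm_num) hL.le
    calc a * (3 * L) ^ (κ / 2) ≤ |a| * (3 * L) ^ (κ / 2) :=
          mul_le_mul_of_nonneg_right (le_abs_self a) (by positivity)
      _ = (|a| * 3 ^ (κ / 2)) * L ^ (κ / 2) := by rw [e2]; ring
      _ ≤ (L ^ (1 - κ / 2) * η) * L ^ (κ / 2) := mul_le_mul_of_nonneg_right h3 (by positivity)
      _ = η * (L ^ (1 - κ / 2) * L ^ (κ / 2)) := by ring
      _ = η * L := by rw [← e]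
  exact (Real.tendsto_log_atTop.comp tendsto_natCast_atTop_atTop).eventually h1

/-- the inverse residue class -/
lemma inv_class (q a L : ℕ) (hq : 0 < q) (ha : a.Coprime q) (hL : L.Coprime q) :
    ∃ b : ℕ, b.Coprime q ∧ b * L ≡ a [MOD q] := by
  have : NeZero q := ⟨hq.ne'⟩
  have hu : IsUnit (L : ZMod q) := (ZMod.isUnit_iff_coprime L q).2 hL
  have hua : IsUnit (a : ZMod q) := (ZMod.isUnit_iff_coprime a q).2 ha
  obtain ⟨v, hv⟩ := hu
  refine ⟨((a : ZMod q) * ((v⁻¹ : (ZMod q)ˣ) : ZMod q)).val, ?_, ?_⟩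
  · rw [← ZMod.isUnit_iff_coprime, ZMod.natCast_zmod_val]
    exact hua.mul (v⁻¹).isUnit
  · rw [← ZMod.natCast_eq_natCast_iff]
    push_cast
    rw [ZMod.natCast_zmod_val, ← hv, mul_assoc, Units.inv_mul, mul_one]

/-- products of `i` primes -/
lemma many {q : ℕ} {δ c T : ℝ} (hδ : δ ≤ 1) (hT : 1 ≤ T)
    (hp : ∀ b L : ℕ, b.Coprime q → L ≠ 0 → Real.log L < c * T →
      ∃ p : ℕ, p.Prime ∧ p ≡ b [MOD q] ∧ T < p ∧ (p : ℝ) ≤ (1 + δ) * T ∧ ¬ p ∣ L)
    (l : ℕ) (hl : Squarefree l) (H : ℕ) (hH : Real.log l + Real.log ((2 * T) ^ H) < c * T) (i : ℕ) (hi : i ≤ H) :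
    ∃ w : ℕ, Squarefree w ∧ w.Coprime l ∧ w.primeFactors.card = i ∧ (w : ℝ) ≤ (2 * T) ^ i ∧
      ∀ p : ℕ, p.Prime → p ∣ w → T < p := by
  induction i with
  | zero =>
    refine ⟨1, squarefree_one, Nat.coprime_one_left l, by simp, by simp, ?_⟩
    intro p hp' h
    exact absurd (Nat.dvd_one.1 h) hp'.one_lt.ne'
  | succ i ih =>
    obtain ⟨w, h1, h2, h3, h4, h5⟩ := ih (by omega)
    have hw0 : w ≠ 0 := h1.ne_zero
    have hl0 : l ≠ 0 := hl.ne_zero
    have hw1 : (0 : ℝ) < w := by exact_mod_cast Nat.pos_of_ne_zero hw0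
    have hl1 : (0 : ℝ) < l := by exact_mod_cast Nat.pos_of_ne_zero hl0
    obtain ⟨p, g1, -, g2, g3, g4⟩ := hp 1 (l * w) (Nat.coprime_one_left q) (Nat.mul_ne_zero hl0 hw0) (by
      push_cast
      rw [Real.log_mul hl1.ne' hw1.ne']
      have h6 : Real.log w ≤ Real.log ((2 * T) ^ H) := by
        apply Real.log_le_log hw1
        exact h4.trans (pow_le_pow_right₀ (by linarith) (by omega))
      linarith)
    have g5 : ¬ p ∣ l := fun h => g4 (Dvd.dvd.mul_right h _)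
    have g6 : ¬ p ∣ w := fun h => g4 (Dvd.dvd.mul_left h _)
    have g7 : p.Coprime w := (Nat.Prime.coprime_iff_not_dvd g1).2 g6
    refine ⟨p * w, ?_, ?_, ?_, ?_, ?_⟩
    · rw [Nat.squarefree_mul g7]
      exact ⟨g1.squarefree, h1⟩
    · exact Nat.Coprime.mul_left ((Nat.Prime.coprime_iff_not_dvd g1).2 g5) h2
    · rw [Nat.Coprime.primeFactors_mul g7, card_union_of_disjoint (Nat.Coprime.disjoint_primeFactors g7), g1.primeFactors,
        card_singleton, h3]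
      ring
    · push_cast
      rw [pow_succ, mul_comm]
      have : (p : ℝ) ≤ 2 * T := by nlinarith
      exact mul_le_mul h4 this (by positivity) (by positivity)
    · intro r hr hrw
      rcases (Nat.Prime.dvd_mul hr).1 hrw with h | h
      · rw [(Nat.prime_dvd_prime_iff_eq hr g1).1 h]
        exact g2
      · exact h5 r hr h

/-- the set -/
def EX (h r q a : ℕ) (κ B x y : ℝ) : Set ℕ :=
  {n | Squarefree n ∧ n.primeFactors.card ≡ r [MOD h] ∧ n ≡ a [MOD q] ∧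
    (∀ p : ℕ, p.Prime → p ∣ n → (Real.log n) ^ κ < p) ∧ ∃ j : ℕ, x * B ^ j ≤ n ∧ n < y * B ^ j}

/-- completing a squarefree number -/
lemma complete {h r q a : ℕ} (hh : 1 ≤ h) (hq : 0 < q) (ha : a.Coprime q) {B x y δ c T : ℝ} (hB : 1 < B)
    (hx : 0 < x) (hδ0 : 0 < δ) (hδ : δ ≤ 1) (hδy : (1 + δ) * x < y) (hT : 1 ≤ T) (hc : 0 < c) (hqT : (q : ℝ) ≤ T)
    (hp : ∀ t : ℝ, T ≤ t → ∀ b L : ℕ, b.Coprime q → L ≠ 0 → Real.log L < c * t →
      ∃ p : ℕ, p.Prime ∧ p ≡ b [MOD q] ∧ t < p ∧ (p : ℝ) ≤ (1 + δ) * t ∧ ¬ p ∣ L)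
    (l : ℕ) (hl : Squarefree l) (hlq : l.Coprime q) (hH : Real.log l + Real.log ((2 * T) ^ h) < c * T) :
    ∃ k : ℕ, 1 ≤ k ∧ (k : ℝ) ≤ (2 * T) ^ h * (2 * (x + B * T)) ∧ Squarefree (k * l) ∧
      (k * l).primeFactors.card ≡ r [MOD h] ∧ k * l ≡ a [MOD q] ∧ (∀ p : ℕ, p.Prime → p ∣ k → T < p) ∧
      ∃ j : ℕ, x * B ^ j ≤ ((k * l : ℕ) : ℝ) ∧ ((k * l : ℕ) : ℝ) < y * B ^ j := by
  obtain ⟨i, hi⟩ : ∃ i : ℕ, i = (r + (h - 1) * (l.primeFactors.card + 1)) % h := ⟨_, rfl⟩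
  have hih : i < h := by rw [hi]; exact Nat.mod_lt _ hh
  have himod : i + (l.primeFactors.card + 1) ≡ r [MOD h] := by
    have h1 : i ≡ r + (h - 1) * (l.primeFactors.card + 1) [MOD h] := by
      rw [hi]; exact Nat.mod_modEq _ _
    refine (h1.add_right _).trans ?_
    have h2 : r + (h - 1) * (l.primeFactors.card + 1) + (l.primeFactors.card + 1) =
        r + h * (l.primeFactors.card + 1) := by
      obtain ⟨h', rfl⟩ : ∃ h', h = h' + 1 := ⟨h - 1, by omega⟩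
      rw [Nat.add_sub_cancel]
      ring
    rw [h2]
    exact (Nat.modEq_iff_dvd' (Nat.le_add_right _ _)).2 (by rw [Nat.add_sub_cancel_left]; exact dvd_mul_right _ _) |>.symm
  obtain ⟨w, h1, h2, h3, h4, h5⟩ := many hδ hT (hp T le_rfl) l hl h hH i hih.le
  have hw0 : w ≠ 0 := h1.ne_zero
  have hl0 : l ≠ 0 := hl.ne_zero
  have hw1 : (0 : ℝ) < w := by exact_mod_cast Nat.pos_of_ne_zero hw0
  have hl1 : (0 : ℝ) < l := by exact_mod_cast Nat.pos_of_ne_zero hl0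
  obtain ⟨L, hL⟩ : ∃ L : ℕ, L = w * l := ⟨_, rfl⟩
  have hL0 : L ≠ 0 := by rw [hL]; exact Nat.mul_ne_zero hw0 hl0
  have hL1 : (0 : ℝ) < L := by exact_mod_cast Nat.pos_of_ne_zero hL0
  have hwq : w.Coprime q := by
    by_contra hcon
    obtain ⟨p, hpp, hpw, hpq⟩ := Nat.Prime.not_coprime_iff_dvd.1 hcon
    have g1 := h5 p hpp hpw
    have g2 : (p : ℝ) ≤ q := by exact_mod_cast Nat.le_of_dvd hq hpq
    linarith
  have hLq : L.Coprime q := by rw [hL]; exact Nat.Coprime.mul_left hwq hlq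
  obtain ⟨b, hbq, hbL⟩ := inv_class q a L hq ha hLq
  -- the position
  obtain ⟨j, hj1, hj2⟩ : ∃ j : ℕ, T ≤ x * B ^ j / L ∧ x * B ^ j / L ≤ x + B * T := by
    have hL1' : (1 : ℝ) ≤ L := by exact_mod_cast Nat.one_le_iff_ne_zero.2 hL0
    rcases le_or_gt (L * T) x with hc1 | hc1
    · refine ⟨0, ?_, ?_⟩
      · rw [pow_zero, mul_one, le_div_iff₀ hL1]
        linarith
      · rw [pow_zero, mul_one]
        have g1 : x / L ≤ x := div_le_self hx.le hL1'
        have g2 : 0 ≤ B * T := by positivity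
        linarith
    · obtain ⟨n, hn1, hn2⟩ := exists_nat_pow_near (x := L * T / x) (by rw [one_le_div hx]; exact hc1.le) hB
      rw [le_div_iff₀ hx] at hn1
      rw [div_lt_iff₀ hx] at hn2
      refine ⟨n + 1, ?_, ?_⟩
      · rw [le_div_iff₀ hL1]
        linarith
      · rw [div_le_iff₀ hL1, pow_succ]
        have g1 : x * (B ^ n * B) ≤ B * (L * T) := by
          have := mul_le_mul_of_nonneg_right hn1 (show 0 ≤ B by linarith)
          linarith
        have g2 : 0 ≤ x * L := by positivity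
        nlinarith
  obtain ⟨t, ht⟩ : ∃ t : ℝ, t = x * B ^ j / L := ⟨_, rfl⟩
  rw [← ht] at hj1 hj2
  have htL : t * L = x * B ^ j := by rw [ht]; field_simp
  have ht0 : 0 < t := by linarith
  obtain ⟨p, g1, g2, g3, g4, g5⟩ := hp t hj1 b L hbq hL0 (by
    have e : Real.log L = Real.log w + Real.log l := by
      rw [hL]; push_cast; exact Real.log_mul hw1.ne' hl1.ne'
    rw [e]
    have h6 : Real.log w ≤ Real.log ((2 * T) ^ h) := by
      apply Real.log_le_log hw1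
      exact h4.trans (pow_le_pow_right₀ (by linarith) hih.le)
    have h7 : c * T ≤ c * t := mul_le_mul_of_nonneg_left hj1 hc.le
    linarith)
  have hpL : p.Coprime L := (Nat.Prime.coprime_iff_not_dvd g1).2 g5
  have hkl : w * p * l = p * L := by rw [hL]; ring
  have hLsf : Squarefree L := by
    rw [hL, Nat.squarefree_mul h2]
    exact ⟨h1, hl⟩
  refine ⟨w * p, Nat.mul_pos (Nat.pos_of_ne_zero hw0) g1.pos, ?_, ?_, ?_, ?_, ?_, j, ?_, ?_⟩
  · push_cast
    have g6 : (p : ℝ) ≤ 2 * (x + B * T) := by nlinarith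
    have g7 : (w : ℝ) ≤ (2 * T) ^ h := h4.trans (pow_le_pow_right₀ (by linarith) hih.le)
    exact mul_le_mul g7 g6 (by positivity) (by positivity)
  · rw [hkl, Nat.squarefree_mul hpL]
    exact ⟨g1.squarefree, hLsf⟩
  · rw [hkl, Nat.Coprime.primeFactors_mul hpL, card_union_of_disjoint (Nat.Coprime.disjoint_primeFactors hpL),
      g1.primeFactors, card_singleton, hL, Nat.Coprime.primeFactors_mul h2,
      card_union_of_disjoint (Nat.Coprime.disjoint_primeFactors h2), h3]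
    have e : 1 + (i + l.primeFactors.card) = i + (l.primeFactors.card + 1) := by ring
    rw [e]
    exact himod
  · rw [hkl]
    exact (g2.mul_right L).trans hbL
  · intro r' hr' hd
    rcases (Nat.Prime.dvd_mul hr').1 hd with h | h
    · exact h5 r' hr' h
    · rw [(Nat.prime_dvd_prime_iff_eq hr' g1).1 h]
      linarith
  · rw [hkl]
    push_cast
    rw [← htL]
    exact mul_le_mul_of_nonneg_right g3.le hL1.le
  · rw [hkl]
    push_cast
    have hBj : 0 < B ^ j := by positivity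
    calc (p : ℝ) * L ≤ (1 + δ) * t * L := mul_le_mul_of_nonneg_right g4 hL1.le
      _ = ((1 + δ) * x) * B ^ j := by rw [mul_assoc, htL]; ring
      _ < y * B ^ j := mul_lt_mul_of_pos_right hδy hBj

/-- **the example** -/
theorem rich_ex (h r q a : ℕ) (κ B x y : ℝ) (hh : 1 ≤ h) (hq : 0 < q) (ha : a.Coprime q) (hκ : κ < 2)
    (hB : 1 < B) (hx : 0 < x) (hxy : x < y) : Rich (EX h r q a κ B x y) := by
  apply rich_of_ev
  intro η hη
  -- the parameters
  obtain ⟨δ, hδ⟩ : ∃ δ : ℝ, δ = min ((y / x - 1) / 2) 1 := ⟨_, rfl⟩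
  have hyx : 1 < y / x := by rw [one_lt_div hx]; exact hxy
  have hδ0 : 0 < δ := by rw [hδ]; exact lt_min (by linarith) one_pos
  have hδ1 : δ ≤ 1 := by rw [hδ]; exact min_le_right _ _
  have hδy : (1 + δ) * x < y := by
    have h1 : δ ≤ (y / x - 1) / 2 := by rw [hδ]; exact min_le_left _ _
    have h2 : y / x * x = y := by field_simp
    nlinarith
  obtain ⟨c, hc, hpick⟩ := pick q hq hδ0
  obtain ⟨t₁, ht₁⟩ := eventually_atTop.1 hpick
  obtain ⟨η', hη'⟩ : ∃ η' : ℝ, η' = min η 1 := ⟨_, rfl⟩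
  have hη'0 : 0 < η' := by rw [hη']; exact lt_min hη one_pos
  have hη'1 : η' ≤ 1 := by rw [hη']; exact min_le_right _ _
  have hη'η : η' ≤ η := by rw [hη']; exact min_le_left _ _
  obtain ⟨κ', hκ'⟩ : ∃ κ' : ℝ, κ' = max κ 0 := ⟨_, rfl⟩
  have hκ'0 : 0 ≤ κ' := by rw [hκ']; exact le_max_right _ _
  have hκκ' : κ ≤ κ' := by rw [hκ']; exact le_max_left _ _
  have hκ'2 : κ' < 2 := by rw [hκ']; exact max_lt hκ (by norm_num)
  obtain ⟨A, hA⟩ : ∃ A : ℝ, A = |t₁| + q + 10 + (h + 8) / c := ⟨_, rfl⟩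
  have hA0 : 0 < A := by rw [hA]; positivity
  refine ⟨1, ?_⟩
  filter_upwards [ev_log 1, ev_log (6 + Real.exp 1), ev_poly ((2 * A) ^ h * (2 * (x + B * A))) (2 * h + 2) hη'0,
    ev_root hκ'2 8 (show 0 < η / 2 by positivity), ev_poly (Real.exp (8 * Real.sqrt q) * 6) 1 (show 0 < η / 2 by positivity),
    eventually_ge_atTop 2] with N hL1 hL2 hF1 hF3 hF4 hN2
  have hN : 1 ≤ N := by omega
  have hN1 : (1 : ℝ) ≤ N := by exact_mod_cast hN
  have hN2' : (2 : ℝ) ≤ N := by exact_mod_cast hN2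
  have hN0 : (0 : ℝ) < N := by linarith
  obtain ⟨Λ, hΛ⟩ : ∃ Λ : ℝ, Λ = Real.log N := ⟨_, rfl⟩
  rw [← hΛ] at hL1 hL2 hF1 hF3 hF4
  have hΛ0 : 0 < Λ := by linarith
  obtain ⟨z, hz⟩ : ∃ z : ℕ, z = ⌊(3 * Λ) ^ κ'⌋₊ + q := ⟨_, rfl⟩
  have hz1 : (z : ℝ) ≤ (3 * Λ) ^ κ' + q := by
    rw [hz]; push_cast
    have := Nat.floor_le (show 0 ≤ (3 * Λ) ^ κ' by positivity)
    linarith
  have hz2 : (3 * Λ) ^ κ' < z + 1 := by
    have h1 := Nat.lt_floor_add_one ((3 * Λ) ^ κ')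
    have h2 : ((⌊(3 * Λ) ^ κ'⌋₊ : ℕ) : ℝ) ≤ z := by rw [hz]; push_cast; linarith [(Nat.cast_nonneg q : (0 : ℝ) ≤ q)]
    linarith
  have hqz : q ≤ z := by rw [hz]; omega
  have hz3 : 2 ≤ z := by
    have h1 : 1 ≤ ⌊(3 * Λ) ^ κ'⌋₊ := by
      apply Nat.le_floor
      push_cast
      exact Real.one_le_rpow (by linarith) hκ'0
    rw [hz]
    omega
  obtain ⟨T, hT⟩ : ∃ T : ℝ, T = |t₁| + z + 1 + (h + 8) / c * (Λ + 1) := ⟨_, rfl⟩
  have hTz : (z : ℝ) + 1 ≤ T := by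
    rw [hT]
    have h1 : 0 ≤ (h + 8) / c * (Λ + 1) := by positivity
    have h2 := abs_nonneg t₁
    linarith
  have hT1 : 1 ≤ T := by
    have : (0 : ℝ) ≤ z := Nat.cast_nonneg _
    linarith
  have hTt : t₁ ≤ T := by
    rw [hT]
    have h1 : 0 ≤ (h + 8) / c * (Λ + 1) := by positivity
    have h2 := le_abs_self t₁
    have : (0 : ℝ) ≤ z := Nat.cast_nonneg _
    linarith
  have hTA : T ≤ A * (Λ + 1) ^ 2 := by
    have h1 : (3 * Λ) ^ κ' ≤ 9 * (Λ + 1) ^ 2 := by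
      calc (3 * Λ) ^ κ' ≤ (3 * Λ) ^ (2 : ℝ) := Real.rpow_le_rpow_of_exponent_le (by linarith) hκ'2.le
        _ = (3 * Λ) ^ 2 := Real.rpow_two _
        _ ≤ 9 * (Λ + 1) ^ 2 := by nlinarith
    have h2 : 1 ≤ (Λ + 1) ^ 2 := by nlinarith
    have h3 : Λ + 1 ≤ (Λ + 1) ^ 2 := by nlinarith
    have h4 : |t₁| ≤ |t₁| * (Λ + 1) ^ 2 := by
      have := abs_nonneg t₁
      nlinarith
    have h5 : (q : ℝ) ≤ q * (Λ + 1) ^ 2 := by
      have : (0 : ℝ) ≤ q := Nat.cast_nonneg _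
      nlinarith
    have h6 : (h + 8) / c * (Λ + 1) ≤ (h + 8) / c * (Λ + 1) ^ 2 :=
      mul_le_mul_of_nonneg_left h3 (by positivity)
    rw [hT, hA]
    calc _ ≤ |t₁| * (Λ + 1) ^ 2 + (9 * (Λ + 1) ^ 2 + q * (Λ + 1) ^ 2) + (Λ + 1) ^ 2 +
          (h + 8) / c * (Λ + 1) ^ 2 := by linarith
      _ = _ := by ring
  have hT0 : 0 < T := by linarith
  have hKN : (2 * T) ^ h * (2 * (x + B * T)) ≤ (N : ℝ) ^ η' := by
    refine le_trans ?_ hF1
    have h1 : (2 * T) ^ h ≤ (2 * A) ^ h * (Λ + 1) ^ (2 * h) := by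
      rw [pow_mul, ← mul_pow]
      apply pow_le_pow_left₀ (by positivity)
      linarith
    have h2 : 2 * (x + B * T) ≤ 2 * (x + B * A) * (Λ + 1) ^ 2 := by
      have h3 : B * T ≤ B * (A * (Λ + 1) ^ 2) := mul_le_mul_of_nonneg_left hTA (by linarith)
      have h4 : 1 ≤ (Λ + 1) ^ 2 := by nlinarith
      nlinarith
    calc (2 * T) ^ h * (2 * (x + B * T)) ≤ ((2 * A) ^ h * (Λ + 1) ^ (2 * h)) * (2 * (x + B * A) * (Λ + 1) ^ 2) :=
          mul_le_mul h1 h2 (by positivity) (by positivity)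
      _ = _ := by rw [pow_add]; ring
  have hKη : (N : ℝ) ^ η' ≤ 1 * (N : ℝ) ^ η := by
    rw [one_mul]; exact Real.rpow_le_rpow_of_exponent_le hN1 hη'η
  have hKN1 : (N : ℝ) ^ η' ≤ N := by
    calc (N : ℝ) ^ η' ≤ (N : ℝ) ^ (1 : ℝ) := Real.rpow_le_rpow_of_exponent_le hN1 hη'1
      _ = N := Real.rpow_one _
  have hlog2N : Real.log (2 * N) = Real.log 2 + Λ := by rw [hΛ]; exact Real.log_mul (by norm_num) hN0.ne'
  have hlog2 : Real.log 2 ≤ 1 := by have := Real.log_two_lt_d9; linarith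
  refine ⟨PN z N, ?_, ?_⟩
  · refine (PN_sum z N hN).trans ?_
    have h1 : Real.sqrt z ≤ (3 * Λ) ^ (κ' / 2) + Real.sqrt q := by
      have h2 : (3 * Λ) ^ κ' = ((3 * Λ) ^ (κ' / 2)) ^ 2 := by
        rw [← Real.rpow_natCast, ← Real.rpow_mul (by positivity)]
        congr 1
        push_cast
        ring
      have h3 : 0 ≤ (3 * Λ) ^ (κ' / 2) := by positivity
      have h4 := Real.sqrt_nonneg (q : ℝ)
      rw [Real.sqrt_le_left (by positivity)]
      have h5 := Real.sq_sqrt (Nat.cast_nonneg q : (0 : ℝ) ≤ q)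
      nlinarith
    have h2 : Real.exp (8 * Real.sqrt z) ≤ (N : ℝ) ^ (η / 2) * Real.exp (8 * Real.sqrt q) := by
      rw [Real.rpow_def_of_pos hN0, ← hΛ, ← Real.exp_add]
      apply Real.exp_le_exp.2
      linarith
    have h3 : (1 + Real.log (2 * N)) * 3 ≤ 6 * (Λ + 1) ^ 1 := by
      rw [hlog2N, pow_one]
      linarith
    have h4 : 0 ≤ (1 + Real.log (2 * N)) * 3 := by
      have : 0 ≤ Real.log (2 * N) := Real.log_nonneg (by linarith)
      linarith
    calc Real.exp (8 * Real.sqrt z) * ((1 + Real.log (2 * N)) * 3)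
        ≤ ((N : ℝ) ^ (η / 2) * Real.exp (8 * Real.sqrt q)) * (6 * (Λ + 1) ^ 1) :=
          mul_le_mul h2 h3 h4 (by positivity)
      _ = (N : ℝ) ^ (η / 2) * (Real.exp (8 * Real.sqrt q) * 6 * (Λ + 1) ^ 1) := by ring
      _ ≤ (N : ℝ) ^ (η / 2) * (N : ℝ) ^ (η / 2) := mul_le_mul_of_nonneg_left hF4 (by positivity)
      _ = 1 * (N : ℝ) ^ η := by
          rw [← Real.rpow_add hN0, one_mul]
          congr 1
          ring
  · intro n hn1 hn2
    obtain ⟨m, hm, l, hml, hlsf, hlz⟩ := decompN z N n (by omega) hn2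
    have hl0 : l ≠ 0 := hlsf.ne_zero
    have hl1 : (0 : ℝ) < l := by exact_mod_cast Nat.pos_of_ne_zero hl0
    have hlN : (l : ℝ) ≤ 2 * N := by
      have h1 : l ∣ n := ⟨m, by rw [hml]; ring⟩
      have h2 : l ≤ 2 * N := (Nat.le_of_dvd (by omega) h1).trans hn2
      exact_mod_cast h2
    have hlq : l.Coprime q := by
      by_contra hcon
      obtain ⟨p, hpp, hpw, hpq⟩ := Nat.Prime.not_coprime_iff_dvd.1 hcon
      have g1 := hlz p hpp hpw
      have g2 := Nat.le_of_dvd hq hpq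
      omega
    obtain ⟨k, k1, k2, k3, k4, k5, k6, j, k7, k8⟩ := complete (r := r) hh hq ha hB hx hδ0 hδ1 hδy hT1 hc
      (by have : (q : ℝ) ≤ z := by exact_mod_cast hqz
          linarith)
      (fun t ht => ht₁ t (hTt.trans ht)) l hlsf hlq (by
        have h1 : Real.log l ≤ 1 + Λ := by
          have := Real.log_le_log hl1 hlN
          linarith
        have h2 : Real.log ((2 * T) ^ h) ≤ (1 : ℝ) * Λ := by
          have h3 : (2 * T) ^ h ≤ (N : ℝ) ^ η' := by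
            refine le_trans ?_ hKN
            have h4 : 1 ≤ 2 * (x + B * T) := by nlinarith
            have h5 : 0 ≤ (2 * T) ^ h := by positivity
            nlinarith
          rw [one_mul, hΛ]
          exact Real.log_le_log (by positivity) (h3.trans hKN1)
        have h3 : c * T ≥ 8 * (Λ + 1) := by
          have h4 : c * ((h + 8) / c * (Λ + 1)) = (h + 8) * (Λ + 1) := by field_simp
          have h5 : (h + 8) / c * (Λ + 1) ≤ T := by
            rw [hT]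
            have h2 := abs_nonneg t₁
            have : (0 : ℝ) ≤ z := Nat.cast_nonneg _
            linarith
          have h6 := mul_le_mul_of_nonneg_left h5 hc.le
          rw [h4] at h6
          have h7 : (0 : ℝ) ≤ h := Nat.cast_nonneg _
          nlinarith
        linarith)
    have hk1 : (k : ℝ) ≤ (N : ℝ) ^ η' := k2.trans hKN
    refine ⟨m, hm, k, l, hml, k1, hk1.trans hKη, k3, k4, k5, ?_, j, k7, k8⟩
    intro p hp hpd
    have hkl0 : 0 < k * l := Nat.mul_pos k1 (Nat.pos_of_ne_zero hl0)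
    have hkl1 : (1 : ℝ) ≤ ((k * l : ℕ) : ℝ) := by exact_mod_cast hkl0
    have hlogkl : Real.log ((k * l : ℕ) : ℝ) ≤ 3 * Λ := by
      have h1 : ((k * l : ℕ) : ℝ) ≤ (N : ℝ) ^ 3 := by
        push_cast
        calc (k : ℝ) * l ≤ N * (2 * N) := mul_le_mul (hk1.trans hKN1) hlN hl1.le hN0.le
          _ ≤ (N : ℝ) ^ 3 := by nlinarith [sq_nonneg (N : ℝ), mul_pos hN0 hN0]
      have h2 := Real.log_le_log (by linarith) h1
      rw [Real.log_pow] at h2
      push_cast at h2 ⊢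
      rw [hΛ]
      exact h2
    have hpz : (z : ℝ) + 1 ≤ p := by
      rcases (Nat.Prime.dvd_mul hp).1 hpd with h | h
      · have := k6 p hp h
        linarith
      · have h1 : z + 1 ≤ p := hlz p hp h
        exact_mod_cast h1
    have hlog0 : 0 ≤ Real.log ((k * l : ℕ) : ℝ) := Real.log_nonneg hkl1
    have hmain : (Real.log ((k * l : ℕ) : ℝ)) ^ κ ≤ (3 * Λ) ^ κ' := by
      rcases le_or_gt 1 (Real.log ((k * l : ℕ) : ℝ)) with h1 | h1
      · calc (Real.log ((k * l : ℕ) : ℝ)) ^ κ ≤ (Real.log ((k * l : ℕ) : ℝ)) ^ κ' :=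
              Real.rpow_le_rpow_of_exponent_le h1 hκκ'
          _ ≤ _ := Real.rpow_le_rpow hlog0 hlogkl hκ'0
      · exfalso
        -- `k l` has a prime factor larger than `e`, so its logarithm is larger than one
        have h2 : p ≤ k * l := Nat.le_of_dvd hkl0 hpd
        have h3 : (p : ℝ) ≤ ((k * l : ℕ) : ℝ) := by exact_mod_cast h2
        have h4 : Real.exp 1 ≤ ((k * l : ℕ) : ℝ) := by
          have h5 : (2 : ℝ) ≤ z := by exact_mod_cast hz3
          have h6 := Real.exp_one_lt_d9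
          linarith
        have h5 := Real.log_le_log (Real.exp_pos 1) h4
        rw [Real.log_exp] at h5
        linarith
    linarith

end Pool.Agent.Q144.RS
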