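import Pool.Agent.Q144.RS.Base

/-!
# Dirichlet polynomials of length `N` on `[0, N²]`: windows and the transference
-/

set_option autoImplicit false

namespace Pool.Agent.Q144.RS

open Finset

/-- `D(t) = ∑_{n ≤ N} a_n n^{it}` -/
noncomputable def D1 (N : ℕ) (a : ℕ → ℂ) (t : ℝ) : ℂ := ∑ n ∈ Icc 1 N, a n * ph t n

/-- `S` is `1`-separated in `[0, N²]` -/
def Sep (N : ℕ) (S : Finset ℝ) : Prop :=
  (∀ t ∈ S, 0 ≤ t ∧ t ≤ (N : ℝ) ^ 2) ∧ ∀ t ∈ S, ∀ u ∈ S, t ≠ u → 1 ≤ |t - u|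

/-- the mean square bound -/
def Good1 (ε C : ℝ) (N : ℕ) (a : ℕ → ℂ) (S : Finset ℝ) : Prop :=
  ∑ t ∈ S, ‖D1 N a t‖ ^ 2 ≤ C * ((N : ℝ) ^ ε * (((N : ℝ) + S.card) * N))

lemma ph_add (t u : ℝ) (n : ℕ) : ph (t + u) n = ph t n * ph u n := by
  unfold ph
  rw [← Complex.exp_add]
  congr 1
  push_cast
  ring

/-- the coefficients of the piece -/
noncomputable def b1 (a : ℕ → ℂ) (N : ℕ) (mu kap : ℕ → ℕ) (m k e : ℕ) : ℂ :=
  open Classical in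
  if k ∣ e ∧ 1 ≤ m * (e / k) ∧ m * (e / k) ≤ N ∧ mu (m * (e / k)) = m ∧ kap (m * (e / k)) = k then
    a (m * (e / k)) else 0

lemma b1_norm {a : ℕ → ℂ} (ha : ∀ n, ‖a n‖ ≤ 1) (N : ℕ) (mu kap : ℕ → ℕ) (m k e : ℕ) :
    ‖b1 a N mu kap m k e‖ ≤ 1 := by
  unfold b1
  split_ifs
  · exact ha _
  · simp

theorem piece1 (a : ℕ → ℂ) (N : ℕ) (mu kap : ℕ → ℕ) (hdiv : ∀ n, 1 ≤ n → n ≤ N → mu n ∣ n)
    (m k : ℕ) (hm : 1 ≤ m) (hk : 1 ≤ k) (t : ℝ) :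
    ‖∑ n ∈ (Icc 1 N).filter (fun n => mu n = m ∧ kap n = k), a n * ph t n‖ =
      ‖D1 (k * (N / m)) (b1 a N mu kap m k) t‖ := by
  have h2 : D1 (k * (N / m)) (b1 a N mu kap m k) t =
      ∑ n ∈ (Icc 1 N).filter (fun n => mu n = m ∧ kap n = k), a n * ph t (k * (n / m)) := by
    unfold D1
    symm
    refine sum_of_injOn (fun n => k * (n / m)) ?_ ?_ ?_ ?_
    · intro x hx y hy hxy
      rw [mem_coe, mem_filter, mem_Icc] at hx hy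
      have dx : m ∣ x := by rw [← hx.2.1]; exact hdiv x hx.1.1 hx.1.2
      have dy : m ∣ y := by rw [← hy.2.1]; exact hdiv y hy.1.1 hy.1.2
      have h3 : x / m = y / m := Nat.eq_of_mul_eq_mul_left hk hxy
      rw [← Nat.mul_div_cancel' dx, ← Nat.mul_div_cancel' dy, h3]
    · intro n hn
      rw [mem_coe, mem_filter, mem_Icc] at hn
      rw [mem_coe, mem_Icc]
      have dn : m ∣ n := by rw [← hn.2.1]; exact hdiv n hn.1.1 hn.1.2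
      have e1 : 1 ≤ n / m := Nat.div_pos (Nat.le_of_dvd hn.1.1 dn) hm
      exact ⟨Nat.mul_pos hk e1, Nat.mul_le_mul_left _ (Nat.div_le_div_right hn.1.2)⟩
    · intro e _ hne
      unfold b1
      rw [if_neg, zero_mul]
      rintro ⟨h3, h4, h5, h6, h7⟩
      apply hne
      refine ⟨m * (e / k), ?_, ?_⟩
      · rw [mem_coe, mem_filter, mem_Icc]
        exact ⟨⟨h4, h5⟩, h6, h7⟩
      · show k * (m * (e / k) / m) = e
        rw [Nat.mul_div_cancel_left _ (by omega), Nat.mul_div_cancel' h3]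
    · intro n hn
      rw [mem_filter, mem_Icc] at hn
      have dn : m ∣ n := by rw [← hn.2.1]; exact hdiv n hn.1.1 hn.1.2
      have e1 : m * (n / m) = n := Nat.mul_div_cancel' dn
      have e2 : k * (n / m) / k = n / m := Nat.mul_div_cancel_left _ (by omega)
      unfold b1
      rw [if_pos]
      · simp only [e2, e1]
      · simp only [e2, e1]
        exact ⟨dvd_mul_right _ _, hn.1.1, hn.1.2, hn.2.1, hn.2.2⟩
  have h3 : ph t m * D1 (k * (N / m)) (b1 a N mu kap m k) t =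
      ph t k * ∑ n ∈ (Icc 1 N).filter (fun n => mu n = m ∧ kap n = k), a n * ph t n := by
    rw [h2, mul_sum, mul_sum]
    refine sum_congr rfl fun n hn => ?_
    rw [mem_filter, mem_Icc] at hn
    have dn : m ∣ n := by rw [← hn.2.1]; exact hdiv n hn.1.1 hn.1.2
    have e1 : m * (n / m) = n := Nat.mul_div_cancel' dn
    have hq1 : 1 ≤ n / m := Nat.div_pos (Nat.le_of_dvd hn.1.1 dn) hm
    have e3 : ph t n = ph t m * ph t (n / m) := by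
      rw [← ph_mul t hm hq1, e1]
    rw [ph_mul t hk hq1, e3]
    ring
  have h4 := congrArg (fun z => ‖z‖) h3
  simp only [norm_mul, ph_norm, one_mul] at h4
  exact h4.symm

/-- the decomposition -/
theorem decomp1 (a : ℕ → ℂ) (N : ℕ) (P : Finset ℕ) (K : ℕ) (mu kap : ℕ → ℕ)
    (h : ∀ n, 1 ≤ n → n ≤ N → mu n ∈ P ∧ mu n ∣ n ∧ 1 ≤ kap n ∧ kap n ≤ K) (t : ℝ) :
    ‖D1 N a t‖ ≤ ∑ i ∈ (P.filter (fun m : ℕ => 1 ≤ m ∧ m ≤ N)) ×ˢ Icc 1 K,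
      ‖D1 (i.2 * (N / i.1)) (b1 a N mu kap i.1 i.2) t‖ := by
  classical
  have h1 : D1 N a t = ∑ i ∈ (P.filter (fun m : ℕ => 1 ≤ m ∧ m ≤ N)) ×ˢ Icc 1 K,
        ∑ n ∈ (Icc 1 N).filter (fun n => mu n = i.1 ∧ kap n = i.2), a n * ph t n := by
    unfold D1
    have hmaps : ∀ n ∈ Icc 1 N, (mu n, kap n) ∈ (P.filter (fun m : ℕ => 1 ≤ m ∧ m ≤ N)) ×ˢ Icc 1 K := by
      intro n hn
      rw [mem_Icc] at hn
      obtain ⟨a1, a2, a3, a4⟩ := h n hn.1 hn.2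
      rw [mem_product, mem_filter, mem_Icc]
      exact ⟨⟨a1, Nat.pos_of_dvd_of_pos a2 hn.1, (Nat.le_of_dvd hn.1 a2).trans hn.2⟩, a3, a4⟩
    rw [← sum_fiberwise_of_maps_to hmaps]
    refine sum_congr rfl fun i hi => ?_
    apply sum_congr _ fun _ _ => rfl
    ext n
    simp only [mem_filter, Prod.ext_iff]
  rw [h1]
  refine (norm_sum_le _ _).trans (le_of_eq ?_)
  refine sum_congr rfl fun i hi => ?_
  rw [mem_product, mem_filter, mem_Icc] at hi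
  exact piece1 a N mu kap (fun n h1 h2 => (h n h1 h2).2.1) i.1 i.2 hi.1.2.1 hi.2.1 t

/-- **windows**: from the bound on `[0, M²]` to `[0, N²]` -/
theorem windows {E : Set ℕ} {ε C : ℝ} (hC : 0 ≤ C) (M : ℕ) (hM : 1 ≤ M)
    (h : ∀ (S : Finset ℝ) (a : ℕ → ℂ), Sep M S → (∀ n, ‖a n‖ ≤ 1) → (∀ n, n ∉ E → a n = 0) → Good1 ε C M a S)
    (N : ℕ) (S : Finset ℝ) (hS : Sep N S) (a : ℕ → ℂ) (ha : ∀ n, ‖a n‖ ≤ 1) (haE : ∀ n, n ∉ E → a n = 0) :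
    ∑ t ∈ S, ‖D1 M a t‖ ^ 2 ≤ C * ((M : ℝ) ^ ε * ((N : ℝ) ^ 2 + (M : ℝ) ^ 2 + S.card * M)) := by
  classical
  have hM1 : (1 : ℝ) ≤ M := by exact_mod_cast hM
  have hM0 : (0 : ℝ) < M := by linarith
  have hM2 : (0 : ℝ) < (M : ℝ) ^ 2 := by positivity
  obtain ⟨V, hV⟩ : ∃ V : ℕ, V = ⌊(N : ℝ) ^ 2 / (M : ℝ) ^ 2⌋₊ := ⟨_, rfl⟩
  have hVle : (V : ℝ) ≤ (N : ℝ) ^ 2 / (M : ℝ) ^ 2 := by rw [hV]; exact Nat.floor_le (by positivity)
  have hmaps : ∀ t ∈ S, ⌊t / (M : ℝ) ^ 2⌋₊ ∈ range (V + 1) := by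
    intro t ht
    rw [mem_range, hV]
    apply Nat.lt_succ_of_le
    apply Nat.floor_le_floor
    exact div_le_div_of_nonneg_right (hS.1 t ht).2 hM2.le
  rw [← sum_fiberwise_of_maps_to hmaps]
  have hv : ∀ v ∈ range (V + 1), ∑ t ∈ S.filter (fun t => ⌊t / (M : ℝ) ^ 2⌋₊ = v), ‖D1 M a t‖ ^ 2 ≤
      C * ((M : ℝ) ^ ε * (((M : ℝ) + (S.filter (fun t => ⌊t / (M : ℝ) ^ 2⌋₊ = v)).card) * M)) := by
    intro v _
    obtain ⟨s, hs⟩ : ∃ s : ℝ, s = v * (M : ℝ) ^ 2 := ⟨_, rfl⟩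
    obtain ⟨S', hS'⟩ : ∃ S' : Finset ℝ, S' = (S.filter (fun t => ⌊t / (M : ℝ) ^ 2⌋₊ = v)).image (fun t => t - s) := ⟨_, rfl⟩
    have hinj : ∀ x ∈ S.filter (fun t => ⌊t / (M : ℝ) ^ 2⌋₊ = v), ∀ y ∈ S.filter (fun t => ⌊t / (M : ℝ) ^ 2⌋₊ = v),
        x - s = y - s → x = y := fun x _ y _ hxy => by linarith
    have hcard : S'.card = (S.filter (fun t => ⌊t / (M : ℝ) ^ 2⌋₊ = v)).card := by
      rw [hS']
      exact card_image_of_injOn fun x hx y hy => hinj x hx y hy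
    have hsep : Sep M S' := by
      constructor
      · intro t ht
        rw [hS', mem_image] at ht
        obtain ⟨u, hu, rfl⟩ := ht
        rw [mem_filter] at hu
        have hu0 := (hS.1 u hu.1).1
        have h1 : 0 ≤ u / (M : ℝ) ^ 2 := by positivity
        have h2 := Nat.floor_le h1
        have h3 := Nat.lt_floor_add_one (u / (M : ℝ) ^ 2)
        rw [hu.2, le_div_iff₀ hM2] at h2
        rw [hu.2, div_lt_iff₀ hM2] at h3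
        rw [hs]
        constructor
        · linarith
        · nlinarith
      · intro t ht u hu htu
        rw [hS', mem_image] at ht hu
        obtain ⟨t', ht', rfl⟩ := ht
        obtain ⟨u', hu', rfl⟩ := hu
        have h1 : t' ≠ u' := fun h => htu (by rw [h])
        have h2 := hS.2 t' (mem_filter.1 ht').1 u' (mem_filter.1 hu').1 h1
        have e : t' - s - (u' - s) = t' - u' := by ring
        rw [e]
        exact h2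
    have h1 := h S' (fun n => a n * ph s n) hsep (fun n => by rw [norm_mul, ph_norm, mul_one]; exact ha n)
      (fun n hn => by rw [haE n hn, zero_mul])
    unfold Good1 at h1
    rw [hcard] at h1
    refine le_trans (le_of_eq ?_) h1
    rw [hS', sum_image fun x hx y hy => hinj x hx y hy]
    refine sum_congr rfl fun t _ => ?_
    congr 2
    unfold D1
    refine sum_congr rfl fun n _ => ?_
    have e : ph t n = ph (s + (t - s)) n := by congr 1; ring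
    rw [e, ph_add]
    ring
  refine (sum_le_sum hv).trans ?_
  rw [← mul_sum, ← mul_sum]
  apply mul_le_mul_of_nonneg_left _ hC
  apply mul_le_mul_of_nonneg_left _ (by positivity)
  rw [← sum_mul, sum_add_distrib, sum_const, card_range, nsmul_eq_mul]
  have h1 : ∑ v ∈ range (V + 1), (((S.filter (fun t => ⌊t / (M : ℝ) ^ 2⌋₊ = v)).card : ℕ) : ℝ) = S.card := by
    rw [← Nat.cast_sum]
    congr 1
    exact (card_eq_sum_card_fiberwise hmaps).symm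
  rw [h1]
  have h2 : ((V + 1 : ℕ) : ℝ) * M * M ≤ (N : ℝ) ^ 2 + (M : ℝ) ^ 2 := by
    have h3 := mul_le_mul_of_nonneg_right hVle hM2.le
    rw [div_mul_cancel₀ _ hM2.ne'] at h3
    push_cast
    calc ((V : ℝ) + 1) * M * M = V * (M : ℝ) ^ 2 + (M : ℝ) ^ 2 := by ring
      _ ≤ _ := by linarith
  rw [add_mul]
  linarith

/-- strongly rich sets -/
def Rich1 (E : Set ℕ) : Prop :=
  ∀ η : ℝ, 0 < η → ∃ C : ℝ, ∀ N : ℕ, 1 ≤ N → ∃ P : Finset ℕ, (P.card : ℝ) ≤ C * (N : ℝ) ^ η ∧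
    ∀ n : ℕ, 1 ≤ n → n ≤ N → ∃ m ∈ P, ∃ k l : ℕ, n = m * l ∧ 1 ≤ k ∧ (k : ℝ) ≤ C * (N : ℝ) ^ η ∧ k * l ∈ E

/-- **the transference** -/
theorem engine1 {E : Set ℕ} (hE : Rich1 E)
    (h : ∀ ε : ℝ, 0 < ε → ∃ C : ℝ, ∀ (N : ℕ) (S : Finset ℝ) (a : ℕ → ℂ), 1 ≤ N → Sep N S →
      (∀ n, ‖a n‖ ≤ 1) → (∀ n, n ∉ E → a n = 0) → Good1 ε C N a S) :
    ∀ ε : ℝ, 0 < ε → ∃ C : ℝ, ∀ (N : ℕ) (S : Finset ℝ) (a : ℕ → ℂ), 1 ≤ N → Sep N S →
      (∀ n, ‖a n‖ ≤ 1) → Good1 ε C N a S := by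
  intro ε hε
  obtain ⟨ε₁, hε₁⟩ : ∃ ε₁ : ℝ, ε₁ = min (ε / 2) 1 := ⟨_, rfl⟩
  have hε₁0 : 0 < ε₁ := by rw [hε₁]; exact lt_min (by positivity) one_pos
  have hε₁1 : ε₁ ≤ 1 := by rw [hε₁]; exact min_le_right _ _
  have hε₁2 : ε₁ ≤ ε / 2 := by rw [hε₁]; exact min_le_left _ _
  obtain ⟨η, hη⟩ : ∃ η : ℝ, η = ε / 14 := ⟨_, rfl⟩
  have hη0 : 0 < η := by rw [hη]; positivity
  obtain ⟨C₁, hC₁⟩ := h ε₁ hε₁0
  obtain ⟨D₁, hD₁⟩ : ∃ D₁ : ℝ, D₁ = max C₁ 0 := ⟨_, rfl⟩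
  have hD₁0 : 0 ≤ D₁ := by rw [hD₁]; exact le_max_right _ _
  have hCD₁ : C₁ ≤ D₁ := by rw [hD₁]; exact le_max_left _ _
  obtain ⟨C₂, hC₂⟩ := hE η hη0
  obtain ⟨D₂, hD₂⟩ : ∃ D₂ : ℝ, D₂ = max C₂ 1 := ⟨_, rfl⟩
  have hD₂1 : 1 ≤ D₂ := by rw [hD₂]; exact le_max_right _ _
  have hCD₂ : C₂ ≤ D₂ := by rw [hD₂]; exact le_max_left _ _
  refine ⟨D₁ * 2 * D₂ ^ 7, fun N S a hN hS ha => ?_⟩
  have hN1 : (1 : ℝ) ≤ N := by exact_mod_cast hN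
  have hN0 : (0 : ℝ) < N := by linarith
  have hw0 : (0 : ℝ) ≤ S.card := Nat.cast_nonneg _
  obtain ⟨P, hP1, hP2⟩ := hC₂ N hN
  obtain ⟨κ, hκ⟩ : ∃ κ : ℝ, κ = D₂ * (N : ℝ) ^ η := ⟨_, rfl⟩
  have hNη : 1 ≤ (N : ℝ) ^ η := Real.one_le_rpow hN1 hη0.le
  have hκ1 : 1 ≤ κ := by rw [hκ]; nlinarith
  have hκ0 : 0 < κ := by linarith
  have hκC : C₂ * (N : ℝ) ^ η ≤ κ := by
    rw [hκ]; exact mul_le_mul_of_nonneg_right hCD₂ (by positivity)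
  obtain ⟨K, hK⟩ : ∃ K : ℕ, K = ⌊κ⌋₊ := ⟨_, rfl⟩
  have hKκ : (K : ℝ) ≤ κ := by rw [hK]; exact Nat.floor_le hκ0.le
  have hch : ∀ n : ℕ, ∃ m k : ℕ, 1 ≤ n → n ≤ N → m ∈ P ∧ ∃ l, n = m * l ∧ 1 ≤ k ∧ k ≤ K ∧ k * l ∈ E := by
    intro n
    by_cases hn : 1 ≤ n ∧ n ≤ N
    · obtain ⟨m, hm, k, l, h1, h2, h3, h4⟩ := hP2 n hn.1 hn.2
      refine ⟨m, k, fun _ _ => ⟨hm, l, h1, h2, ?_, h4⟩⟩
      rw [hK]
      exact Nat.le_floor (h3.trans hκC)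
    · exact ⟨0, 0, fun h1 h2 => absurd ⟨h1, h2⟩ hn⟩
  choose mu kap hmk using hch
  obtain ⟨I, hI⟩ : ∃ I : Finset (ℕ × ℕ), I = (P.filter (fun m : ℕ => 1 ≤ m ∧ m ≤ N)) ×ˢ Icc 1 K := ⟨_, rfl⟩
  have hIcard : (I.card : ℝ) ≤ κ ^ 2 := by
    rw [hI, card_product, Nat.card_Icc, Nat.add_sub_cancel]
    push_cast
    rw [sq]
    apply mul_le_mul _ hKκ (Nat.cast_nonneg _) hκ0.le
    refine le_trans ?_ (hP1.trans hκC)
    exact_mod_cast card_filter_le _ _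
  have hpt : ∀ t ∈ S, ‖D1 N a t‖ ^ 2 ≤ I.card * ∑ i ∈ I, ‖D1 (i.2 * (N / i.1)) (b1 a N mu kap i.1 i.2) t‖ ^ 2 := by
    intro t _
    have h1 := decomp1 a N P K mu kap (fun n h1 h2 => by
      obtain ⟨h3, l, h4, h5, h6, _⟩ := hmk n h1 h2
      exact ⟨h3, ⟨l, h4⟩, h5, h6⟩) t
    rw [← hI] at h1
    exact (pow_le_pow_left₀ (norm_nonneg _) h1 2).trans sq_sum_le_card_mul_sum_sq
  have hi : ∀ i ∈ I, ∑ t ∈ S, ‖D1 (i.2 * (N / i.1)) (b1 a N mu kap i.1 i.2) t‖ ^ 2 ≤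
      D₁ * (κ ^ 3 * ((N : ℝ) ^ ε₁ * (2 * (((N : ℝ) + S.card) * N)))) := by
    rintro ⟨m, k⟩ hi
    rw [hI, mem_product, mem_filter, mem_Icc] at hi
    obtain ⟨⟨hmP, hm1, hmN⟩, hk1, hkK⟩ := hi
    simp only at hmP hm1 hmN hk1 hkK ⊢
    have hM : 1 ≤ k * (N / m) := Nat.mul_pos hk1 (Nat.div_pos hmN hm1)
    have hMle : ((k * (N / m) : ℕ) : ℝ) ≤ κ * N := by
      push_cast
      have h1 : ((N / m : ℕ) : ℝ) ≤ N := by exact_mod_cast Nat.div_le_self N m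
      have h2 : (k : ℝ) ≤ κ := le_trans (by exact_mod_cast hkK) hKκ
      exact mul_le_mul h2 h1 (Nat.cast_nonneg _) hκ0.le
    have h1 := windows (E := E) (ε := ε₁) hD₁0 (k * (N / m)) hM (fun S' a' hS' ha' haE' =>
      (hC₁ (k * (N / m)) S' a' hM hS' ha' haE').trans (mul_le_mul_of_nonneg_right hCD₁ (by positivity)))
      N S hS (b1 a N mu kap m k) (b1_norm ha N mu kap m k) (by
        intro e he
        unfold b1
        rw [if_neg]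
        rintro ⟨h3, h4, h5, h6, h7⟩
        apply he
        obtain ⟨_, l, h8, _, _, h9⟩ := hmk _ h4 h5
        rw [h6] at h8
        have h10 : e / k = l := Nat.eq_of_mul_eq_mul_left hm1 h8
        rw [h7, ← h10, Nat.mul_div_cancel' h3] at h9
        exact h9)
    refine h1.trans ?_
    apply mul_le_mul_of_nonneg_left _ hD₁0
    generalize hMdef : ((k * (N / m) : ℕ) : ℝ) = M at *
    have hM0 : 0 ≤ M := by rw [← hMdef]; positivity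
    have h2 : M ^ ε₁ ≤ κ * (N : ℝ) ^ ε₁ := by
      calc M ^ ε₁ ≤ (κ * N) ^ ε₁ := Real.rpow_le_rpow hM0 hMle hε₁0.le
        _ = κ ^ ε₁ * (N : ℝ) ^ ε₁ := Real.mul_rpow hκ0.le hN0.le
        _ ≤ κ * (N : ℝ) ^ ε₁ := by
            apply mul_le_mul_of_nonneg_right _ (by positivity)
            calc κ ^ ε₁ ≤ κ ^ (1 : ℝ) := Real.rpow_le_rpow_of_exponent_le hκ1 hε₁1
              _ = κ := Real.rpow_one κ
    have h3 : (N : ℝ) ^ 2 + M ^ 2 + S.card * M ≤ κ ^ 2 * (2 * (((N : ℝ) + S.card) * N)) := by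
      have h4 : M ^ 2 ≤ κ ^ 2 * (N : ℝ) ^ 2 := by
        rw [← mul_pow]; exact pow_le_pow_left₀ hM0 hMle 2
      have h5 : 1 ≤ κ ^ 2 := one_le_pow₀ hκ1
      have h6 : (S.card : ℝ) * M ≤ S.card * (κ * N) := mul_le_mul_of_nonneg_left hMle hw0
      have h7 : (S.card : ℝ) * (κ * N) ≤ κ ^ 2 * (S.card * N) := by
        have h8 : κ ≤ κ ^ 2 := by nlinarith
        have h9 : 0 ≤ (S.card : ℝ) * N := by positivity
        calc (S.card : ℝ) * (κ * N) = κ * (S.card * N) := by ring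
          _ ≤ _ := mul_le_mul_of_nonneg_right h8 h9
      have h8 : (N : ℝ) ^ 2 ≤ κ ^ 2 * (N : ℝ) ^ 2 := by
        have : 0 ≤ (N : ℝ) ^ 2 := by positivity
        nlinarith
      have h9 : 0 ≤ κ ^ 2 * ((S.card : ℝ) * N) := by positivity
      calc (N : ℝ) ^ 2 + M ^ 2 + S.card * M ≤ κ ^ 2 * (N : ℝ) ^ 2 + κ ^ 2 * (N : ℝ) ^ 2 +
            κ ^ 2 * (S.card * N) + κ ^ 2 * (S.card * N) := by linarith
        _ = _ := by ring
    calc M ^ ε₁ * ((N : ℝ) ^ 2 + M ^ 2 + S.card * M) ≤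
          (κ * (N : ℝ) ^ ε₁) * (κ ^ 2 * (2 * (((N : ℝ) + S.card) * N))) :=
          mul_le_mul h2 h3 (by positivity) (by positivity)
      _ = _ := by ring
  unfold Good1
  refine (sum_le_sum hpt).trans ?_
  rw [← mul_sum, sum_comm]
  have h2 := sum_le_sum hi
  rw [sum_const, nsmul_eq_mul] at h2
  have hX0 : 0 ≤ D₁ * (κ ^ 3 * ((N : ℝ) ^ ε₁ * (2 * (((N : ℝ) + S.card) * N)))) := by positivity
  have hc0 : (0 : ℝ) ≤ I.card := Nat.cast_nonneg _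
  have hκ7 : κ ^ 7 = D₂ ^ 7 * (N : ℝ) ^ (ε / 2) := by
    rw [hκ, mul_pow, ← Real.rpow_natCast ((N : ℝ) ^ η) 7, ← Real.rpow_mul hN0.le]
    congr 2
    rw [hη]
    push_cast
    ring
  have hNε : (N : ℝ) ^ (ε / 2) * (N : ℝ) ^ ε₁ ≤ (N : ℝ) ^ ε := by
    rw [← Real.rpow_add hN0]
    exact Real.rpow_le_rpow_of_exponent_le hN1 (by linarith)
  calc (I.card : ℝ) * ∑ i ∈ I, ∑ t ∈ S, ‖D1 (i.2 * (N / i.1)) (b1 a N mu kap i.1 i.2) t‖ ^ 2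
      ≤ I.card * (I.card * (D₁ * (κ ^ 3 * ((N : ℝ) ^ ε₁ * (2 * (((N : ℝ) + S.card) * N)))))) :=
        mul_le_mul_of_nonneg_left h2 hc0
    _ ≤ κ ^ 2 * (κ ^ 2 * (D₁ * (κ ^ 3 * ((N : ℝ) ^ ε₁ * (2 * (((N : ℝ) + S.card) * N)))))) :=
        mul_le_mul hIcard (mul_le_mul_of_nonneg_right hIcard hX0) (mul_nonneg hc0 hX0) (by positivity)
    _ = D₁ * 2 * κ ^ 7 * ((N : ℝ) ^ ε₁ * (((N : ℝ) + S.card) * N)) := by ring
    _ = D₁ * 2 * D₂ ^ 7 * (((N : ℝ) ^ (ε / 2) * (N : ℝ) ^ ε₁) * (((N : ℝ) + S.card) * N)) := by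
        rw [hκ7]; ring
    _ ≤ _ := by
        apply mul_le_mul_of_nonneg_left _ (by positivity)
        exact mul_le_mul_of_nonneg_right hNε (by positivity)

end Pool.Agent.Q144.RS
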