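import Pool.Agent.Q144.RS.Ex
import Pool.Agent.Q144.RS.Win

/-!
# Strongly rich sets: numbers without prime factors up to `(log n)^κ`, `κ < 1`, in a residue class, with
prescribed leading digits and number of prime factors (counted with multiplicity) in a residue class
-/

set_option autoImplicit false

namespace Pool.Agent.Q144.RS

open Finset Filter Topology

/-- it suffices to treat large `N` -/
theorem rich1_of_ev {E : Set ℕ} (h : ∀ η : ℝ, 0 < η → ∃ C : ℝ, ∀ᶠ N : ℕ in atTop, ∃ P : Finset ℕ,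
    (P.card : ℝ) ≤ C * (N : ℝ) ^ η ∧
    ∀ n : ℕ, 1 ≤ n → n ≤ N → ∃ m ∈ P, ∃ k l : ℕ, n = m * l ∧ 1 ≤ k ∧ (k : ℝ) ≤ C * (N : ℝ) ^ η ∧ k * l ∈ E) :
    Rich1 E := by
  -- an element of `E`
  obtain ⟨e, he1, heE⟩ : ∃ e : ℕ, 1 ≤ e ∧ e ∈ E := by
    obtain ⟨C, hC⟩ := h 1 one_pos
    obtain ⟨N, hN, hN1⟩ := (hC.and (eventually_ge_atTop 1)).exists
    obtain ⟨P, -, hP⟩ := hN
    obtain ⟨m, -, k, l, h1, h2, -, h3⟩ := hP 1 le_rfl hN1
    have hl : 1 ≤ l := by
      rcases Nat.eq_zero_or_pos l with h | h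
      · rw [h, mul_zero] at h1
        omega
      · exact h
    exact ⟨k * l, Nat.mul_pos h2 hl, h3⟩
  intro η hη
  obtain ⟨C, hC⟩ := h η hη
  obtain ⟨N₀, hN₀⟩ := eventually_atTop.1 hC
  refine ⟨max C (N₀ + e), fun N hN => ?_⟩
  have hN1 : (1 : ℝ) ≤ N := by exact_mod_cast hN
  have hNη : 1 ≤ (N : ℝ) ^ η := Real.one_le_rpow hN1 hη.le
  have hpos : (0 : ℝ) ≤ (N : ℝ) ^ η := by positivity
  have hC1 : C * (N : ℝ) ^ η ≤ max C (N₀ + e) * (N : ℝ) ^ η :=
    mul_le_mul_of_nonneg_right (le_max_left _ _) hpos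
  have hC2 : (N₀ + e : ℝ) ≤ max C (N₀ + e) * (N : ℝ) ^ η := by
    calc (N₀ + e : ℝ) = (N₀ + e) * 1 := by ring
      _ ≤ max C (N₀ + e) * (N : ℝ) ^ η :=
        mul_le_mul (le_max_right _ _) hNη zero_le_one (le_trans (by positivity) (le_max_right _ _))
  rcases le_or_gt N₀ N with hc | hc
  · obtain ⟨P, h1, h2⟩ := hN₀ N hc
    refine ⟨P, h1.trans hC1, fun n hn1 hn2 => ?_⟩
    obtain ⟨m, hm, k, l, h3, h4, h5, h6⟩ := h2 n hn1 hn2
    exact ⟨m, hm, k, l, h3, h4, h5.trans hC1, h6⟩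
  · refine ⟨Icc 1 N, ?_, fun n hn1 hn2 => ⟨n, mem_Icc.2 ⟨hn1, hn2⟩, e, 1, (mul_one n).symm, he1, ?_, ?_⟩⟩
    · rw [Nat.card_Icc, Nat.add_sub_cancel]
      refine le_trans ?_ hC2
      have h3 : (N : ℝ) ≤ N₀ := by exact_mod_cast hc.le
      have h4 : (0 : ℝ) ≤ e := Nat.cast_nonneg _
      linarith
    · refine le_trans ?_ hC2
      have h4 : (0 : ℝ) ≤ N₀ := Nat.cast_nonneg _
      linarith
    · rw [mul_one]; exact heE

lemma ev_root1 {κ : ℝ} (hκ : κ < 1) (a : ℝ) {η : ℝ} (hη : 0 < η) : ∀ᶠ N : ℕ in atTop,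
    a * (3 * Real.log N) ^ κ ≤ η * Real.log N := by
  have h := ev_root (κ := 2 * κ) (by linarith) a hη
  have e : 2 * κ / 2 = κ := by ring
  rw [e] at h
  exact h

/-- smooth part, rough part -/
theorem decomp2 (z n : ℕ) : n ≠ 0 → ∃ u l : ℕ, n = u * l ∧
    (∀ p : ℕ, p.Prime → p ∣ u → p ≤ z) ∧ (∀ p : ℕ, p.Prime → p ∣ l → z < p) := by
  induction n using induction_on_primes with
  | zero => exact fun h => absurd rfl h
  | one =>
    intro _
    refine ⟨1, 1, rfl, ?_, ?_⟩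
    · intro p hp h; exact absurd (Nat.dvd_one.1 h) hp.one_lt.ne'
    · intro p hp h; exact absurd (Nat.dvd_one.1 h) hp.one_lt.ne'
  | prime_mul p n hp ih =>
    intro hpn
    have hn : n ≠ 0 := fun h => hpn (by rw [h, mul_zero])
    obtain ⟨u, l, h1, h2, h3⟩ := ih hn
    rcases Nat.lt_or_ge z p with hz | hz
    · refine ⟨u, p * l, by rw [h1]; ring, h2, ?_⟩
      intro r hr hrl
      rcases (Nat.Prime.dvd_mul hr).1 hrl with h | h
      · rw [(Nat.prime_dvd_prime_iff_eq hr hp).1 h]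
        exact hz
      · exact h3 r hr h
    · refine ⟨p * u, l, by rw [h1]; ring, ?_, h3⟩
      intro r hr hru
      rcases (Nat.Prime.dvd_mul hr).1 hru with h | h
      · rw [(Nat.prime_dvd_prime_iff_eq hr hp).1 h]
        exact hz
      · exact h2 r hr h

/-- `n ↦ n^{-σ}` -/
noncomputable def rp (σ : ℝ) : ℕ →* ℝ where
  toFun n := (n : ℝ) ^ (-σ)
  map_one' := by simp
  map_mul' m n := by
    push_cast
    exact Real.mul_rpow (Nat.cast_nonneg m) (Nat.cast_nonneg n)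

lemma rp_apply (σ : ℝ) (n : ℕ) : rp σ n = (n : ℝ) ^ (-σ) := rfl

lemma rp_prime {σ : ℝ} (hσ : 0 < σ) {p : ℕ} (hp : p.Prime) : rp σ p ≤ (2 : ℝ) ^ (-σ) := by
  rw [rp_apply]
  have h2 : (2 : ℝ) ≤ p := by exact_mod_cast hp.two_le
  exact Real.rpow_le_rpow_of_nonpos (by norm_num) h2 (by linarith)

lemma two_rp {σ : ℝ} (hσ : 0 < σ) : (2 : ℝ) ^ (-σ) < 1 :=
  Real.rpow_lt_one_of_one_lt_of_neg (by norm_num) (by linarith)

/-- **Rankin**: the number of smooth numbers -/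
theorem smooth_card {σ : ℝ} (hσ : 0 < σ) (z N : ℕ) (s : Finset ℕ)
    (hs : ∀ u ∈ s, (1 ≤ u ∧ u ≤ N) ∧ ∀ p : ℕ, p.Prime → p ∣ u → p ≤ z) :
    (s.card : ℝ) ≤ (N : ℝ) ^ σ * ((1 - (2 : ℝ) ^ (-σ))⁻¹) ^ z := by
  classical
  have h2σ := two_rp hσ
  have h2σ0 : 0 < (2 : ℝ) ^ (-σ) := by positivity
  have h1 := (EulerProduct.summable_and_hasSum_smoothNumbers_prod_primesBelow_geometric (f := rp σ) (by
    intro p hp
    rw [Real.norm_of_nonneg (by rw [rp_apply]; positivity)]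
    exact (rp_prime hσ hp).trans_lt h2σ) (z + 1)).2
  have hmem : ∀ u ∈ s, u ∈ Nat.smoothNumbers (z + 1) := by
    intro u hu
    rw [Nat.mem_smoothNumbers']
    intro p hp hpu
    exact Nat.lt_succ_of_le ((hs u hu).2 p hp hpu)
  have h2 : ∑ u ∈ s, (u : ℝ) ^ (-σ) ≤ ∏ p ∈ Nat.primesBelow (z + 1), (1 - rp σ p)⁻¹ := by
    rw [← sum_subtype_of_mem (p := fun u => u ∈ Nat.smoothNumbers (z + 1)) (fun u : ℕ => (u : ℝ) ^ (-σ)) hmem]
    exact sum_le_hasSum _ (fun i _ => by positivity) h1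
  have h3 : ∏ p ∈ Nat.primesBelow (z + 1), (1 - rp σ p)⁻¹ ≤ ((1 - (2 : ℝ) ^ (-σ))⁻¹) ^ z := by
    have hG1 : 1 ≤ (1 - (2 : ℝ) ^ (-σ))⁻¹ := by
      rw [one_le_inv₀ (by linarith)]
      linarith
    calc ∏ p ∈ Nat.primesBelow (z + 1), (1 - rp σ p)⁻¹ ≤ ∏ _p ∈ Nat.primesBelow (z + 1), (1 - (2 : ℝ) ^ (-σ))⁻¹ := by
          apply Finset.prod_le_prod
          · intro p hp
            have := rp_prime hσ (Nat.prime_of_mem_primesBelow hp)
            exact inv_nonneg.2 (by linarith)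
          · intro p hp
            have := rp_prime hσ (Nat.prime_of_mem_primesBelow hp)
            exact inv_anti₀ (by linarith) (by linarith)
      _ = ((1 - (2 : ℝ) ^ (-σ))⁻¹) ^ (Nat.primesBelow (z + 1)).card := by rw [prod_const]
      _ ≤ _ := by
          apply pow_le_pow_right₀ hG1
          have h4 : Nat.primesBelow (z + 1) ⊆ Icc 1 z := by
            intro p hp
            have h4 := Nat.prime_of_mem_primesBelow hp
            have h5 := Nat.lt_of_mem_primesBelow hp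
            rw [mem_Icc]
            exact ⟨h4.one_lt.le, by omega⟩
          have h5 := card_le_card h4
          rwa [Nat.card_Icc, Nat.add_sub_cancel] at h5
  have h4 : (s.card : ℝ) ≤ (N : ℝ) ^ σ * ∑ u ∈ s, (u : ℝ) ^ (-σ) := by
    rw [mul_sum]
    calc (s.card : ℝ) = ∑ _u ∈ s, (1 : ℝ) := by rw [sum_const, nsmul_eq_mul, mul_one]
      _ ≤ _ := by
          apply sum_le_sum
          intro u hu
          obtain ⟨⟨h5, h6⟩, -⟩ := hs u hu
          have h5' : (0 : ℝ) < u := by exact_mod_cast h5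
          have h6' : (u : ℝ) ≤ N := by exact_mod_cast h6
          calc (1 : ℝ) = (u : ℝ) ^ σ * (u : ℝ) ^ (-σ) := by
                rw [← Real.rpow_add h5', add_neg_cancel, Real.rpow_zero]
            _ ≤ _ := by
                apply mul_le_mul_of_nonneg_right _ (by positivity)
                exact Real.rpow_le_rpow h5'.le h6' hσ.le
  refine h4.trans ?_
  apply mul_le_mul_of_nonneg_left _ (by positivity)
  exact h2.trans h3

/-- the set -/
def EX1 (h r q a : ℕ) (κ B x y : ℝ) : Set ℕ :=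
  {n | ArithmeticFunction.cardFactors n ≡ r [MOD h] ∧ n ≡ a [MOD q] ∧
    (∀ p : ℕ, p.Prime → p ∣ n → (Real.log n) ^ κ < p) ∧ ∃ j : ℕ, x * B ^ j ≤ n ∧ n < y * B ^ j}

lemma Omega_sf {w : ℕ} (hw : Squarefree w) : ArithmeticFunction.cardFactors w = w.primeFactors.card := by
  have h3 := (ArithmeticFunction.cardDistinctFactors_eq_cardFactors_iff_squarefree hw.ne_zero).2 hw
  rw [← h3, ArithmeticFunction.cardDistinctFactors_apply]
  exact (List.card_toFinset _).symm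

/-- completing a number -/
lemma complete1 {h r q a : ℕ} (hh : 1 ≤ h) (hq : 0 < q) (ha : a.Coprime q) {B x y δ c T : ℝ} (hB : 1 < B)
    (hx : 0 < x) (hδ0 : 0 < δ) (hδ : δ ≤ 1) (hδy : (1 + δ) * x < y) (hT : 1 ≤ T) (hc : 0 < c) (hqT : (q : ℝ) ≤ T)
    (hp : ∀ t : ℝ, T ≤ t → ∀ b L : ℕ, b.Coprime q → L ≠ 0 → Real.log L < c * t →
      ∃ p : ℕ, p.Prime ∧ p ≡ b [MOD q] ∧ t < p ∧ (p : ℝ) ≤ (1 + δ) * t ∧ ¬ p ∣ L)
    (l : ℕ) (hl0 : l ≠ 0) (hlq : l.Coprime q) (hH : Real.log ((2 * T) ^ h) < c * T) :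
    ∃ k : ℕ, 1 ≤ k ∧ (k : ℝ) ≤ (2 * T) ^ h * (2 * (x + B * T)) ∧
      ArithmeticFunction.cardFactors (k * l) ≡ r [MOD h] ∧ k * l ≡ a [MOD q] ∧ (∀ p : ℕ, p.Prime → p ∣ k → T < p) ∧
      ∃ j : ℕ, x * B ^ j ≤ ((k * l : ℕ) : ℝ) ∧ ((k * l : ℕ) : ℝ) < y * B ^ j := by
  obtain ⟨ν, hν⟩ : ∃ ν : ℕ, ν = ArithmeticFunction.cardFactors l := ⟨_, rfl⟩
  obtain ⟨i, hi⟩ : ∃ i : ℕ, i = (r + (h - 1) * (ν + 1)) % h := ⟨_, rfl⟩
  have hih : i < h := by rw [hi]; exact Nat.mod_lt _ hh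
  have himod : i + (ν + 1) ≡ r [MOD h] := by
    have h1 : i ≡ r + (h - 1) * (ν + 1) [MOD h] := by
      rw [hi]; exact Nat.mod_modEq _ _
    refine (h1.add_right _).trans ?_
    have h2 : r + (h - 1) * (ν + 1) + (ν + 1) =
        r + h * (ν + 1) := by
      obtain ⟨h', rfl⟩ : ∃ h', h = h' + 1 := ⟨h - 1, by omega⟩
      rw [Nat.add_sub_cancel]
      ring
    rw [h2]
    exact (Nat.modEq_iff_dvd' (Nat.le_add_right _ _)).2 (by rw [Nat.add_sub_cancel_left]; exact dvd_mul_right _ _) |>.symm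
  obtain ⟨w, h1, -, h3, h4, h5⟩ := many hδ hT (hp T le_rfl) 1 squarefree_one h (by
    rw [Nat.cast_one, Real.log_one, zero_add]; exact hH) i hih.le
  have hw0 : w ≠ 0 := h1.ne_zero
  have hw1 : (0 : ℝ) < w := by exact_mod_cast Nat.pos_of_ne_zero hw0
  have hl1 : (0 : ℝ) < l := by exact_mod_cast Nat.pos_of_ne_zero hl0
  obtain ⟨L, hL⟩ : ∃ L : ℕ, L = w * l := ⟨_, rfl⟩
  have hL0 : L ≠ 0 := by rw [hL]; exact Nat.mul_ne_zero hw0 hl0
  have hL1 : (0 : ℝ) < L := by exact_mod_cast Nat.pos_of_ne_zero hL0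
  have hwq : w.Coprime q := by
    by_contra hcon
    obtain ⟨p, hpp, hpw, hpq⟩ := Nat.Prime.not_coprime_iff_dvd.1 hcon
    have g1 := h5 p hpp hpw
    have g2 : (p : ℝ) ≤ q := by exact_mod_cast Nat.le_of_dvd hq hpq
    linarith
  have hLq : L.Coprime q := by rw [hL]; exact Nat.Coprime.mul_left hwq hlq
  obtain ⟨b, hbq, hbL⟩ := inv_class q a L hq ha hLq
  -- the position
  obtain ⟨j, hj1, hj2⟩ : ∃ j : ℕ, T ≤ x * B ^ j / L ∧ x * B ^ j / L ≤ x + B * T := by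
    have hL1' : (1 : ℝ) ≤ L := by exact_mod_cast Nat.one_le_iff_ne_zero.2 hL0
    rcases le_or_gt (L * T) x with hc1 | hc1
    · refine ⟨0, ?_, ?_⟩
      · rw [pow_zero, mul_one, le_div_iff₀ hL1]
        linarith
      · rw [pow_zero, mul_one]
        have g1 : x / L ≤ x := div_le_self hx.le hL1'
        have g2 : 0 ≤ B * T := by positivity
        linarith
    · obtain ⟨n, hn1, hn2⟩ := exists_nat_pow_near (x := L * T / x) (by rw [one_le_div hx]; exact hc1.le) hB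
      rw [le_div_iff₀ hx] at hn1
      rw [div_lt_iff₀ hx] at hn2
      refine ⟨n + 1, ?_, ?_⟩
      · rw [le_div_iff₀ hL1]
        linarith
      · rw [div_le_iff₀ hL1, pow_succ]
        have g1 : x * (B ^ n * B) ≤ B * (L * T) := by
          have := mul_le_mul_of_nonneg_right hn1 (show 0 ≤ B by linarith)
          linarith
        have g2 : 0 ≤ x * L := by positivity
        nlinarith
  obtain ⟨t, ht⟩ : ∃ t : ℝ, t = x * B ^ j / L := ⟨_, rfl⟩
  rw [← ht] at hj1 hj2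
  have htL : t * L = x * B ^ j := by rw [ht]; field_simp
  have ht0 : 0 < t := by linarith
  obtain ⟨p, g1, g2, g3, g4, -⟩ := hp t hj1 b 1 hbq one_ne_zero (by
    rw [Nat.cast_one, Real.log_one]
    positivity)
  have hkl : w * p * l = p * L := by rw [hL]; ring
  refine ⟨w * p, Nat.mul_pos (Nat.pos_of_ne_zero hw0) g1.pos, ?_, ?_, ?_, ?_, j, ?_, ?_⟩
  · push_cast
    have g6 : (p : ℝ) ≤ 2 * (x + B * T) := by nlinarith
    have g7 : (w : ℝ) ≤ (2 * T) ^ h := h4.trans (pow_le_pow_right₀ (by linarith) hih.le)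
    exact mul_le_mul g7 g6 (by positivity) (by positivity)
  · rw [ArithmeticFunction.cardFactors_mul (Nat.mul_ne_zero hw0 g1.ne_zero) hl0,
      ArithmeticFunction.cardFactors_mul hw0 g1.ne_zero, Omega_sf h1, h3,
      ArithmeticFunction.cardFactors_apply_prime g1, ← hν]
    have e : i + 1 + ν = i + (ν + 1) := by ring
    rw [e]
    exact himod
  · rw [hkl]
    exact (g2.mul_right L).trans hbL
  · intro r' hr' hd
    rcases (Nat.Prime.dvd_mul hr').1 hd with h | h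
    · exact h5 r' hr' h
    · rw [(Nat.prime_dvd_prime_iff_eq hr' g1).1 h]
      linarith
  · rw [hkl]
    push_cast
    rw [← htL]
    exact mul_le_mul_of_nonneg_right g3.le hL1.le
  · rw [hkl]
    push_cast
    have hBj : 0 < B ^ j := by positivity
    calc (p : ℝ) * L ≤ (1 + δ) * t * L := mul_le_mul_of_nonneg_right g4 hL1.le
      _ = ((1 + δ) * x) * B ^ j := by rw [mul_assoc, htL]; ring
      _ < y * B ^ j := mul_lt_mul_of_pos_right hδy hBj

/-- **the example** -/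
theorem rich1_ex (h r q a : ℕ) (κ B x y : ℝ) (hh : 1 ≤ h) (hq : 0 < q) (ha : a.Coprime q) (hκ : κ < 1)
    (hB : 1 < B) (hx : 0 < x) (hxy : x < y) : Rich1 (EX1 h r q a κ B x y) := by
  classical
  apply rich1_of_ev
  intro η hη
  -- the parameters
  obtain ⟨δ, hδ⟩ : ∃ δ : ℝ, δ = min ((y / x - 1) / 2) 1 := ⟨_, rfl⟩
  have hyx : 1 < y / x := by rw [one_lt_div hx]; exact hxy
  have hδ0 : 0 < δ := by rw [hδ]; exact lt_min (by linarith) one_pos
  have hδ1 : δ ≤ 1 := by rw [hδ]; exact min_le_right _ _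
  have hδy : (1 + δ) * x < y := by
    have h1 : δ ≤ (y / x - 1) / 2 := by rw [hδ]; exact min_le_left _ _
    have h2 : y / x * x = y := by field_simp
    nlinarith
  obtain ⟨c, hc, hpick⟩ := pick q hq hδ0
  obtain ⟨t₁, ht₁⟩ := eventually_atTop.1 hpick
  obtain ⟨η', hη'⟩ : ∃ η' : ℝ, η' = min η 1 := ⟨_, rfl⟩
  have hη'0 : 0 < η' := by rw [hη']; exact lt_min hη one_pos
  have hη'1 : η' ≤ 1 := by rw [hη']; exact min_le_right _ _
  have hη'η : η' ≤ η := by rw [hη']; exact min_le_left _ _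
  obtain ⟨κ', hκ'⟩ : ∃ κ' : ℝ, κ' = max κ 0 := ⟨_, rfl⟩
  have hκ'0 : 0 ≤ κ' := by rw [hκ']; exact le_max_right _ _
  have hκκ' : κ ≤ κ' := by rw [hκ']; exact le_max_left _ _
  have hκ'2 : κ' < 1 := by rw [hκ']; exact max_lt hκ (by norm_num)
  obtain ⟨A, hA⟩ : ∃ A : ℝ, A = |t₁| + q + 10 + (h + 8) / c := ⟨_, rfl⟩
  have hA0 : 0 < A := by rw [hA]; positivity
  obtain ⟨G, hG⟩ : ∃ G : ℝ, G = (1 - (2 : ℝ) ^ (-(η / 2)))⁻¹ := ⟨_, rfl⟩
  have h2σ := two_rp (show 0 < η / 2 by positivity)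
  have h2σ0 : 0 < (2 : ℝ) ^ (-(η / 2)) := by positivity
  have hG1 : 1 ≤ G := by
    rw [hG, one_le_inv₀ (by linarith)]
    linarith
  have hG0 : 0 < G := by linarith
  refine ⟨max 1 (Real.exp (Real.log G * q)), ?_⟩
  filter_upwards [ev_log 1, ev_log (6 + Real.exp 1), ev_poly ((2 * A) ^ h * (2 * (x + B * A))) (2 * h + 2) hη'0,
    ev_root1 hκ'2 (Real.log G) (show 0 < η / 2 by positivity),
    eventually_ge_atTop 2] with N hL1 hL2 hF1 hF3 hN2
  have hN : 1 ≤ N := by omega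
  have hN1 : (1 : ℝ) ≤ N := by exact_mod_cast hN
  have hN2' : (2 : ℝ) ≤ N := by exact_mod_cast hN2
  have hN0 : (0 : ℝ) < N := by linarith
  obtain ⟨Λ, hΛ⟩ : ∃ Λ : ℝ, Λ = Real.log N := ⟨_, rfl⟩
  rw [← hΛ] at hL1 hL2 hF1 hF3
  have hΛ0 : 0 < Λ := by linarith
  obtain ⟨z, hz⟩ : ∃ z : ℕ, z = ⌊(3 * Λ) ^ κ'⌋₊ + q := ⟨_, rfl⟩
  have hz1 : (z : ℝ) ≤ (3 * Λ) ^ κ' + q := by
    rw [hz]; push_cast
    have := Nat.floor_le (show 0 ≤ (3 * Λ) ^ κ' by positivity)
    linarith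
  have hz2 : (3 * Λ) ^ κ' < z + 1 := by
    have h1 := Nat.lt_floor_add_one ((3 * Λ) ^ κ')
    have h2 : ((⌊(3 * Λ) ^ κ'⌋₊ : ℕ) : ℝ) ≤ z := by rw [hz]; push_cast; linarith [(Nat.cast_nonneg q : (0 : ℝ) ≤ q)]
    linarith
  have hqz : q ≤ z := by rw [hz]; omega
  have hz3 : 2 ≤ z := by
    have h1 : 1 ≤ ⌊(3 * Λ) ^ κ'⌋₊ := by
      apply Nat.le_floor
      push_cast
      exact Real.one_le_rpow (by linarith) hκ'0
    rw [hz]
    omega
  obtain ⟨T, hT⟩ : ∃ T : ℝ, T = |t₁| + z + 1 + (h + 8) / c * (Λ + 1) := ⟨_, rfl⟩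
  have hTz : (z : ℝ) + 1 ≤ T := by
    rw [hT]
    have h1 : 0 ≤ (h + 8) / c * (Λ + 1) := by positivity
    have h2 := abs_nonneg t₁
    linarith
  have hT1 : 1 ≤ T := by
    have : (0 : ℝ) ≤ z := Nat.cast_nonneg _
    linarith
  have hTt : t₁ ≤ T := by
    rw [hT]
    have h1 : 0 ≤ (h + 8) / c * (Λ + 1) := by positivity
    have h2 := le_abs_self t₁
    have : (0 : ℝ) ≤ z := Nat.cast_nonneg _
    linarith
  have hTA : T ≤ A * (Λ + 1) ^ 2 := by
    have h1 : (3 * Λ) ^ κ' ≤ 9 * (Λ + 1) ^ 2 := by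
      calc (3 * Λ) ^ κ' ≤ (3 * Λ) ^ (2 : ℝ) := Real.rpow_le_rpow_of_exponent_le (by linarith) (by linarith)
        _ = (3 * Λ) ^ 2 := Real.rpow_two _
        _ ≤ 9 * (Λ + 1) ^ 2 := by nlinarith
    have h2 : 1 ≤ (Λ + 1) ^ 2 := by nlinarith
    have h3 : Λ + 1 ≤ (Λ + 1) ^ 2 := by nlinarith
    have h4 : |t₁| ≤ |t₁| * (Λ + 1) ^ 2 := by
      have := abs_nonneg t₁
      nlinarith
    have h5 : (q : ℝ) ≤ q * (Λ + 1) ^ 2 := by
      have : (0 : ℝ) ≤ q := Nat.cast_nonneg _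
      nlinarith
    have h6 : (h + 8) / c * (Λ + 1) ≤ (h + 8) / c * (Λ + 1) ^ 2 :=
      mul_le_mul_of_nonneg_left h3 (by positivity)
    rw [hT, hA]
    calc _ ≤ |t₁| * (Λ + 1) ^ 2 + (9 * (Λ + 1) ^ 2 + q * (Λ + 1) ^ 2) + (Λ + 1) ^ 2 +
          (h + 8) / c * (Λ + 1) ^ 2 := by linarith
      _ = _ := by ring
  have hT0 : 0 < T := by linarith
  have hKN : (2 * T) ^ h * (2 * (x + B * T)) ≤ (N : ℝ) ^ η' := by
    refine le_trans ?_ hF1
    have h1 : (2 * T) ^ h ≤ (2 * A) ^ h * (Λ + 1) ^ (2 * h) := by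
      rw [pow_mul, ← mul_pow]
      apply pow_le_pow_left₀ (by positivity)
      linarith
    have h2 : 2 * (x + B * T) ≤ 2 * (x + B * A) * (Λ + 1) ^ 2 := by
      have h3 : B * T ≤ B * (A * (Λ + 1) ^ 2) := mul_le_mul_of_nonneg_left hTA (by linarith)
      have h4 : 1 ≤ (Λ + 1) ^ 2 := by nlinarith
      nlinarith
    calc (2 * T) ^ h * (2 * (x + B * T)) ≤ ((2 * A) ^ h * (Λ + 1) ^ (2 * h)) * (2 * (x + B * A) * (Λ + 1) ^ 2) :=
          mul_le_mul h1 h2 (by positivity) (by positivity)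
      _ = _ := by rw [pow_add]; ring
  have hKη : (N : ℝ) ^ η' ≤ max 1 (Real.exp (Real.log G * q)) * (N : ℝ) ^ η := by
    calc (N : ℝ) ^ η' ≤ (N : ℝ) ^ η := Real.rpow_le_rpow_of_exponent_le hN1 hη'η
      _ = 1 * (N : ℝ) ^ η := (one_mul _).symm
      _ ≤ _ := mul_le_mul_of_nonneg_right (le_max_left _ _) (by positivity)
  have hKN1 : (N : ℝ) ^ η' ≤ N := by
    calc (N : ℝ) ^ η' ≤ (N : ℝ) ^ (1 : ℝ) := Real.rpow_le_rpow_of_exponent_le hN1 hη'1
      _ = N := Real.rpow_one _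
  refine ⟨(Icc 1 N).filter (fun u => ∀ p : ℕ, p.Prime → p ∣ u → p ≤ z), ?_, ?_⟩
  · refine (smooth_card (show 0 < η / 2 by positivity) z N _ (fun u hu => by
      rw [mem_filter, mem_Icc] at hu
      exact hu)).trans ?_
    rw [← hG]
    have h1 : G ^ z ≤ (N : ℝ) ^ (η / 2) * Real.exp (Real.log G * q) := by
      have h2 : G ^ z = Real.exp (Real.log G * z) := by
        rw [mul_comm, ← Real.log_pow, Real.exp_log (by positivity)]
      rw [h2, Real.rpow_def_of_pos hN0, ← hΛ, ← Real.exp_add]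
      apply Real.exp_le_exp.2
      have h3 : Real.log G * z ≤ Real.log G * ((3 * Λ) ^ κ' + q) :=
        mul_le_mul_of_nonneg_left hz1 (Real.log_nonneg hG1)
      linarith
    calc (N : ℝ) ^ (η / 2) * G ^ z ≤ (N : ℝ) ^ (η / 2) * ((N : ℝ) ^ (η / 2) * Real.exp (Real.log G * q)) :=
          mul_le_mul_of_nonneg_left h1 (by positivity)
      _ = Real.exp (Real.log G * q) * (N : ℝ) ^ η := by
          rw [← mul_assoc, ← Real.rpow_add hN0, mul_comm]
          congr 2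
          ring
      _ ≤ _ := mul_le_mul_of_nonneg_right (le_max_right _ _) (by positivity)
  · intro n hn1 hn2
    obtain ⟨m, l, hml, hmz, hlz⟩ := decomp2 z n (by omega)
    have hl0 : l ≠ 0 := by
      rintro rfl
      rw [mul_zero] at hml
      omega
    have hm0 : m ≠ 0 := by
      rintro rfl
      rw [zero_mul] at hml
      omega
    have hl1 : (0 : ℝ) < l := by exact_mod_cast Nat.pos_of_ne_zero hl0
    have hlN : (l : ℝ) ≤ N := by
      have h1 : l ∣ n := ⟨m, by rw [hml]; ring⟩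
      have h2 : l ≤ N := (Nat.le_of_dvd (by omega) h1).trans hn2
      exact_mod_cast h2
    have hmN : m ≤ N := by
      have h1 : m ∣ n := ⟨l, hml⟩
      exact (Nat.le_of_dvd (by omega) h1).trans hn2
    have hlq : l.Coprime q := by
      by_contra hcon
      obtain ⟨p, hpp, hpw, hpq⟩ := Nat.Prime.not_coprime_iff_dvd.1 hcon
      have g1 := hlz p hpp hpw
      have g2 := Nat.le_of_dvd hq hpq
      omega
    obtain ⟨k, k1, k2, k4, k5, k6, j, k7, k8⟩ := complete1 (r := r) hh hq ha hB hx hδ0 hδ1 hδy hT1 hc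
      (by have : (q : ℝ) ≤ z := by exact_mod_cast hqz
          linarith)
      (fun t ht => ht₁ t (hTt.trans ht)) l hl0 hlq (by
        have h2 : Real.log ((2 * T) ^ h) ≤ (1 : ℝ) * Λ := by
          have h3 : (2 * T) ^ h ≤ (N : ℝ) ^ η' := by
            refine le_trans ?_ hKN
            have h4 : 1 ≤ 2 * (x + B * T) := by nlinarith
            have h5 : 0 ≤ (2 * T) ^ h := by positivity
            nlinarith
          rw [one_mul, hΛ]
          exact Real.log_le_log (by positivity) (h3.trans hKN1)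
        have h3 : c * T ≥ 8 * (Λ + 1) := by
          have h4 : c * ((h + 8) / c * (Λ + 1)) = (h + 8) * (Λ + 1) := by field_simp
          have h5 : (h + 8) / c * (Λ + 1) ≤ T := by
            rw [hT]
            have h2 := abs_nonneg t₁
            have : (0 : ℝ) ≤ z := Nat.cast_nonneg _
            linarith
          have h6 := mul_le_mul_of_nonneg_left h5 hc.le
          rw [h4] at h6
          have h7 : (0 : ℝ) ≤ h := Nat.cast_nonneg _
          nlinarith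
        linarith)
    have hk1 : (k : ℝ) ≤ (N : ℝ) ^ η' := k2.trans hKN
    refine ⟨m, ?_, k, l, hml, k1, hk1.trans hKη, k4, k5, ?_, j, k7, k8⟩
    · rw [mem_filter, mem_Icc]
      exact ⟨⟨Nat.one_le_iff_ne_zero.2 hm0, hmN⟩, hmz⟩
    intro p hp hpd
    have hkl0 : 0 < k * l := Nat.mul_pos k1 (Nat.pos_of_ne_zero hl0)
    have hkl1 : (1 : ℝ) ≤ ((k * l : ℕ) : ℝ) := by exact_mod_cast hkl0
    have hlogkl : Real.log ((k * l : ℕ) : ℝ) ≤ 3 * Λ := by
      have h1 : ((k * l : ℕ) : ℝ) ≤ (N : ℝ) ^ 3 := by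
        push_cast
        calc (k : ℝ) * l ≤ N * N := mul_le_mul (hk1.trans hKN1) hlN hl1.le hN0.le
          _ ≤ (N : ℝ) ^ 3 := by nlinarith [sq_nonneg (N : ℝ), mul_pos hN0 hN0]
      have h2 := Real.log_le_log (by linarith) h1
      rw [Real.log_pow] at h2
      push_cast at h2 ⊢
      rw [hΛ]
      exact h2
    have hpz : (z : ℝ) + 1 ≤ p := by
      rcases (Nat.Prime.dvd_mul hp).1 hpd with h | h
      · have := k6 p hp h
        linarith
      · have h1 : z + 1 ≤ p := hlz p hp h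
        exact_mod_cast h1
    have hlog0 : 0 ≤ Real.log ((k * l : ℕ) : ℝ) := Real.log_nonneg hkl1
    have hmain : (Real.log ((k * l : ℕ) : ℝ)) ^ κ ≤ (3 * Λ) ^ κ' := by
      rcases le_or_gt 1 (Real.log ((k * l : ℕ) : ℝ)) with h1 | h1
      · calc (Real.log ((k * l : ℕ) : ℝ)) ^ κ ≤ (Real.log ((k * l : ℕ) : ℝ)) ^ κ' :=
              Real.rpow_le_rpow_of_exponent_le h1 hκκ'
          _ ≤ _ := Real.rpow_le_rpow hlog0 hlogkl hκ'0
      · exfalso
        -- `k l` has a prime factor larger than `e`, so its logarithm is larger than one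
        have h2 : p ≤ k * l := Nat.le_of_dvd hkl0 hpd
        have h3 : (p : ℝ) ≤ ((k * l : ℕ) : ℝ) := by exact_mod_cast h2
        have h4 : Real.exp 1 ≤ ((k * l : ℕ) : ℝ) := by
          have h5 : (2 : ℝ) ≤ z := by exact_mod_cast hz3
          have h6 := Real.exp_one_lt_d9
          linarith
        have h5 := Real.log_le_log (Real.exp_pos 1) h4
        rw [Real.log_exp] at h5
        linarith
    linarith

end Pool.Agent.Q144.RS
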