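import Pool.Agent.Q144.RS.Zo
import Pool.Agent.Q93.DP.LV

/-!
# Montgomery's conjectures and rich sets: moments and large values
-/

set_option autoImplicit false

namespace Pool.Agent.Q144.RS

open Finset

/-- the points `1, …, T` -/
def pts (T : ℕ) : Finset ℤ := (Icc 1 T).map ⟨Nat.cast, Nat.cast_injective⟩

lemma card_pts (T : ℕ) : ((pts T).card : ℝ) = T := by
  unfold pts
  rw [card_map, Nat.card_Icc, Nat.add_sub_cancel]

lemma pts_sub {T T' : ℕ} (h : T ≤ T') : pts T ⊆ pts T' :=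
  map_subset_map.2 (Icc_subset_Icc le_rfl h)

lemma pow_abs_le {N M : ℕ} {A c : ℝ} (hN : 1 ≤ N) (hc : 0 < c) (h : (N : ℝ) ^ c ≤ M) :
    (N : ℝ) ^ A ≤ (M : ℝ) ^ (max (|A| / c) 1) := by
  have hN1 : (1 : ℝ) ≤ N := by exact_mod_cast hN
  have h1 : 1 ≤ (N : ℝ) ^ c := Real.one_le_rpow hN1 hc.le
  have hM1 : (1 : ℝ) ≤ M := h1.trans h
  calc (N : ℝ) ^ A ≤ (N : ℝ) ^ |A| := Real.rpow_le_rpow_of_exponent_le hN1 (le_abs_self A)
    _ = ((N : ℝ) ^ c) ^ (|A| / c) := by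
        rw [← Real.rpow_mul (by linarith)]
        congr 1
        field_simp
    _ ≤ (M : ℝ) ^ (|A| / c) := Real.rpow_le_rpow (by linarith) h (by positivity)
    _ ≤ _ := Real.rpow_le_rpow_of_exponent_le hM1 (le_max_left _ _)

/-- the moments over the integers `1 ≤ t ≤ T` -/
def Mom (q A ε K : ℝ) (b : ℕ → ℂ) : Prop :=
  ∀ N T : ℕ, 1 ≤ N → N ≤ T → (T : ℝ) ≤ (N : ℝ) ^ A →
    ∑ t ∈ Icc 1 T, ‖D N b t‖ ^ q ≤ K * (N : ℝ) ^ ε * ((N : ℝ) ^ q + (N : ℝ) ^ (q / 2) * (T : ℝ))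

lemma mom_good {q A ε K : ℝ} {b : ℕ → ℂ} (h : Mom q A ε K b) {N : ℕ} {W : Finset ℤ} (hN : 1 ≤ N)
    (hW : ∃ T : ℕ, N ≤ T ∧ (T : ℝ) ≤ (N : ℝ) ^ A ∧ W = pts T) : Good q ε K N b W := by
  obtain ⟨T, h1, h2, rfl⟩ := hW
  have h3 := h N T hN h1 h2
  unfold Good
  rw [card_pts]
  have e : ∑ t ∈ pts T, ‖D N b t‖ ^ q = ∑ t ∈ Icc 1 T, ‖D N b t‖ ^ q := by
    unfold pts
    rw [sum_map]
    exact sum_congr rfl fun t _ => by simp
  rw [e]
  refine h3.trans (le_of_eq ?_)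
  ring

lemma good_mom {q A ε K : ℝ} {b : ℕ → ℂ} (h : ∀ (N : ℕ) (W : Finset ℤ), 1 ≤ N →
    (∃ T : ℕ, N ≤ T ∧ (T : ℝ) ≤ (N : ℝ) ^ A ∧ W = pts T) → Good q ε K N b W) : Mom q A ε K b := by
  intro N T hN h1 h2
  have h3 := h N (pts T) hN ⟨T, h1, h2, rfl⟩
  unfold Good at h3
  rw [card_pts] at h3
  have e : ∑ t ∈ pts T, ‖D N b t‖ ^ q = ∑ t ∈ Icc 1 T, ‖D N b t‖ ^ q := by
    unfold pts
    rw [sum_map]
    exact sum_congr rfl fun t _ => by simp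
  rw [e] at h3
  refine h3.trans (le_of_eq ?_)
  ring

/-- **moments** -/
theorem main_mom {E : Set ℕ} (hE : Rich E) {q : ℝ} (hq : 2 ≤ q) :
    (∀ A : ℝ, 1 ≤ A → ∀ ε : ℝ, 0 < ε → ∃ K : ℝ, ∀ b : ℕ → ℂ, (∀ n, ‖b n‖ ≤ 1) → Mom q A ε K b) ↔
    (∀ A : ℝ, 1 ≤ A → ∀ ε : ℝ, 0 < ε → ∃ K : ℝ, ∀ S : Set ℕ, S ⊆ E → Mom q A ε K (ind S)) := by
  constructor
  · intro h A hA ε hε
    obtain ⟨K, hK⟩ := h A hA ε hε
    exact ⟨K, fun S _ => hK _ (ind_norm S)⟩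
  · intro h
    have key := engine hq hE (fun A N W => ∃ T : ℕ, N ≤ T ∧ (T : ℝ) ≤ (N : ℝ) ^ A ∧ W = pts T)
      (by
        intro A c hc
        refine ⟨max (|A| / c) 1, ?_⟩
        rintro N W M hN ⟨T, h1, h2, rfl⟩ hM
        have hN1 : (1 : ℝ) ≤ N := by exact_mod_cast hN
        have hM1 : (1 : ℝ) ≤ M := (Real.one_le_rpow hN1 hc.le).trans hM
        refine ⟨pts (max T M), pts_sub (le_max_left _ _), ⟨max T M, le_max_right _ _, ?_, rfl⟩, ?_⟩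
        · rw [Nat.cast_max]
          apply max_le
          · exact h2.trans (pow_abs_le hN hc hM)
          · conv_lhs => rw [← Real.rpow_one (M : ℝ)]
            exact Real.rpow_le_rpow_of_exponent_le hM1 (le_max_right _ _)
        · rw [card_pts, card_pts, Nat.cast_max]
          have h3 : (0 : ℝ) ≤ T := Nat.cast_nonneg _
          have h4 : (0 : ℝ) ≤ M := Nat.cast_nonneg _
          exact max_le (by linarith) (by linarith))
      (by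
        intro A ε hε
        obtain ⟨K, hK⟩ := h (max A 1) (le_max_right _ _) ε hε
        refine ⟨4 ^ q * (2 ^ (q - 1) * (|K| + 2 ^ q)), ?_⟩
        intro N W b hN hW hb hbE
        refine good_of_ind (by linarith) hε hN (C := K) (E := E) (fun S hS => ?_) b hb hbE
        obtain ⟨T, h1, h2, h3⟩ := hW
        have hN1 : (1 : ℝ) ≤ N := by exact_mod_cast hN
        exact mom_good (hK S hS) hN ⟨T, h1,
          h2.trans (Real.rpow_le_rpow_of_exponent_le hN1 (le_max_left _ _)), h3⟩)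
    intro A hA ε hε
    obtain ⟨K, hK⟩ := key A ε hε
    exact ⟨K, fun b hb => good_mom fun N W hN hW => hK N W b hN hW hb⟩

/-- `W` is a set of integers in `[0, T]` for some `T` with `N ≤ T ≤ N ^ A` -/
def Admissible (A : ℝ) (N : ℕ) (W : Finset ℤ) : Prop :=
  1 ≤ N ∧ ∃ T : ℝ, (N : ℝ) ≤ T ∧ T ≤ (N : ℝ) ^ A ∧ ∀ t ∈ W, 0 ≤ (t : ℝ) ∧ (t : ℝ) ≤ T

/-- the large value bound of the conjecture -/
def LargeValues (A σ ε C : ℝ) (b : ℕ → ℂ) : Prop :=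
  ∀ (N : ℕ) (W : Finset ℤ), Admissible A N W → (∀ t ∈ W, (N : ℝ) ^ σ < ‖D N b t‖) →
    (W.card : ℝ) ≤ C * (N : ℝ) ^ (2 - 2 * σ + ε)

lemma D_le (b : ℕ → ℂ) (hb : ∀ n, ‖b n‖ ≤ 1) (N : ℕ) (hN : 1 ≤ N) (t : ℝ) : ‖D N b t‖ ≤ 2 * N := by
  have h1 := D_small b N t 1 hb
  have hN1 : (1 : ℝ) ≤ N := by exact_mod_cast hN
  linarith

lemma adm_sub {A : ℝ} {N : ℕ} {W W' : Finset ℤ} (hs : W' ⊆ W) (h : Admissible A N W) :
    Admissible A N W' := by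
  obtain ⟨hN, T, hT1, hT2, hW⟩ := h
  exact ⟨hN, T, hT1, hT2, fun t ht => hW t (hs ht)⟩

lemma card_adm {A : ℝ} {N : ℕ} {W : Finset ℤ} (h : Admissible A N W) :
    (W.card : ℝ) ≤ 2 * (N : ℝ) ^ A := by
  obtain ⟨hN, T, hT1, hT2, hW⟩ := h
  have hN1 : (1 : ℝ) ≤ N := by exact_mod_cast hN
  have hT0 : 0 ≤ T := by linarith
  have hsub : W ⊆ Finset.Icc 0 ⌊T⌋ := by
    intro t ht
    obtain ⟨h1, h2⟩ := hW t ht
    rw [Finset.mem_Icc]
    exact ⟨by exact_mod_cast h1, Int.le_floor.2 h2⟩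
  have h1 := Finset.card_le_card hsub
  rw [Int.card_Icc] at h1
  have hf : 0 ≤ ⌊T⌋ := Int.floor_nonneg.2 hT0
  have h2 : (((⌊T⌋ + 1 - 0).toNat : ℕ) : ℝ) = (⌊T⌋ : ℝ) + 1 := by
    have h3 : (((⌊T⌋ + 1 - 0).toNat : ℕ) : ℤ) = ⌊T⌋ + 1 := by
      rw [Int.toNat_of_nonneg (by linarith)]; ring
    have h4 : ((((⌊T⌋ + 1 - 0).toNat : ℕ) : ℤ) : ℝ) = ((⌊T⌋ + 1 : ℤ) : ℝ) := by rw [h3]
    push_cast at h4
    linarith
  have h3 : (W.card : ℝ) ≤ (⌊T⌋ : ℝ) + 1 := by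
    rw [← h2]
    exact_mod_cast h1
  have h4 := Int.floor_le T
  linarith

/-- **large values** -/
theorem main_lv {E : Set ℕ} (hE : Rich E) :
    (∀ A σ : ℝ, 1 / 2 < σ → ∀ ε : ℝ, 0 < ε → ∃ C : ℝ, ∀ b : ℕ → ℂ, (∀ n, ‖b n‖ ≤ 1) → LargeValues A σ ε C b) ↔
    (∀ A σ : ℝ, 1 / 2 < σ → ∀ ε : ℝ, 0 < ε → ∃ C : ℝ, ∀ S : Set ℕ, S ⊆ E → LargeValues A σ ε C (ind S)) := by
  constructor
  · intro h A σ hσ ε hε
    obtain ⟨C, hC⟩ := h A σ hσ ε hε
    exact ⟨C, fun S _ => hC _ (ind_norm S)⟩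
  · intro h
    have hms : ∀ A ε : ℝ, 0 < ε → ∃ C : ℝ, ∀ (N : ℕ) (W : Finset ℤ) (S : Set ℕ), S ⊆ E → Admissible A N W →
        Good 2 ε C N (ind S) W := by
      intro A
      have key := Pool.Agent.Q93.DP.ms_of_lv (ι := ℕ × {S : Set ℕ // S ⊆ E})
        (F := fun i t => ‖D i.1 (ind i.2.1) t‖) (N := fun i => i.1) (Ad := fun i W => Admissible A i.1 W)
        (fun i W W' hs hW => adm_sub hs hW) (fun i W hW => hW.1)
        (fun i t => norm_nonneg _) (fun i W hW t => D_le _ (ind_norm _) i.1 hW.1 t) (by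
          intro σ hσ ε hε
          obtain ⟨C, hC⟩ := h A σ hσ ε hε
          exact ⟨C, fun i W hW hlv => hC i.2.1 i.2.2 i.1 W hW hlv⟩)
      intro ε hε
      obtain ⟨C, hC⟩ := key ε hε
      refine ⟨C, fun N W S hS hW => ?_⟩
      have h1 := hC (N, ⟨S, hS⟩) W hW
      unfold Good
      simp only [Real.rpow_two]
      have e : (2 : ℝ) / 2 = 1 := by norm_num
      rw [e, Real.rpow_one]
      exact h1
    have key := engine (q := 2) le_rfl hE (fun A N W => Admissible A N W)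
      (by
        intro A c hc
        refine ⟨max (|A| / c) 1, ?_⟩
        rintro N W M hN ⟨_, T, h1, h2, h3⟩ hM
        have hN1 : (1 : ℝ) ≤ N := by exact_mod_cast hN
        have hM1 : (1 : ℝ) ≤ M := (Real.one_le_rpow hN1 hc.le).trans hM
        refine ⟨W, Subset.rfl, ⟨by exact_mod_cast hM1, max T M, le_max_right _ _, ?_, ?_⟩, ?_⟩
        · apply max_le
          · exact h2.trans (pow_abs_le hN hc hM)
          · conv_lhs => rw [← Real.rpow_one (M : ℝ)]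
            exact Real.rpow_le_rpow_of_exponent_le hM1 (le_max_right _ _)
        · exact fun t ht => ⟨(h3 t ht).1, (h3 t ht).2.trans (le_max_left _ _)⟩
        · linarith)
      (by
        intro A ε hε
        obtain ⟨C, hC⟩ := hms A ε hε
        refine ⟨4 ^ (2 : ℝ) * (2 ^ ((2 : ℝ) - 1) * (|C| + 2 ^ (2 : ℝ))), ?_⟩
        intro N W b hN hW hb hbE
        exact good_of_ind (by norm_num) hε hN (C := C) (E := E) (fun S hS => hC N W S hS hW) b hb hbE)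
    intro A
    have key2 := Pool.Agent.Q93.DP.lv_of_ms (ι := ℕ × {b : ℕ → ℂ // ∀ n, ‖b n‖ ≤ 1})
      (F := fun i t => ‖D i.1 i.2.1 t‖) (N := fun i => i.1) (Ad := fun i W => Admissible A i.1 W)
      (A := A) (fun i W hW => hW.1) (fun i W hW => card_adm hW) (by
        intro ε hε
        obtain ⟨C, hC⟩ := key A ε hε
        refine ⟨C, fun i W hW => ?_⟩
        have h1 := hC i.1 W i.2.1 hW.1 hW i.2.2
        unfold Good at h1
        simp only [Real.rpow_two] at h1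
        have e : (2 : ℝ) / 2 = 1 := by norm_num
        rw [e, Real.rpow_one] at h1
        exact h1)
    intro σ hσ ε hε
    obtain ⟨C, hC⟩ := key2 σ hσ ε hε
    exact ⟨C, fun b hb N W hW hlv => hC (N, ⟨b, hb⟩) W hW hlv⟩

end Pool.Agent.Q144.RS
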