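import Mathlib

/-!
# Smooth and squareful divisors
-/

set_option autoImplicit false

namespace Pool.Agent.Q144.RS

open Finset

/-- `n ↦ n^{-1/2}` -/
noncomputable def rs : ℕ →* ℝ where
  toFun n := 1 / Real.sqrt n
  map_one' := by simp
  map_mul' m n := by
    push_cast
    rw [Real.sqrt_mul (Nat.cast_nonneg m), one_div_mul_one_div]

lemma rs_apply (n : ℕ) : rs n = 1 / Real.sqrt n := rfl

lemma rs_prime {p : ℕ} (hp : p.Prime) : rs p ≤ 3 / 4 := by
  rw [rs_apply]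
  have h2 : (2 : ℝ) ≤ p := by exact_mod_cast hp.two_le
  have h3 : (4 / 3 : ℝ) ≤ Real.sqrt p := by
    apply Real.le_sqrt_of_sq_le
    linarith
  rw [div_le_iff₀ (by linarith)]
  linarith

lemma sum_sqrt (z : ℕ) : ∑ n ∈ Icc 1 z, 1 / Real.sqrt (n : ℝ) ≤ 2 * Real.sqrt z := by
  induction z with
  | zero => simp
  | succ z ih =>
    rw [sum_Icc_succ_top (by omega)]
    have h1 : 0 ≤ Real.sqrt (z : ℝ) := Real.sqrt_nonneg _
    have h2 : 0 < Real.sqrt ((z + 1 : ℕ) : ℝ) := Real.sqrt_pos.2 (by positivity)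
    have h3 : Real.sqrt (z : ℝ) ^ 2 = z := Real.sq_sqrt (Nat.cast_nonneg z)
    have h4 : Real.sqrt ((z + 1 : ℕ) : ℝ) ^ 2 = z + 1 := by
      rw [Real.sq_sqrt (Nat.cast_nonneg _)]
      push_cast
      ring
    have h5 : 1 / Real.sqrt ((z + 1 : ℕ) : ℝ) ≤ 2 * Real.sqrt ((z + 1 : ℕ) : ℝ) - 2 * Real.sqrt (z : ℝ) := by
      rw [div_le_iff₀ h2]
      nlinarith [sq_nonneg (Real.sqrt ((z + 1 : ℕ) : ℝ) - Real.sqrt (z : ℝ))]
    linarith

lemma smooth_sum (z : ℕ) (s : Finset ℕ) (hs : ∀ u ∈ s, ∀ p : ℕ, p.Prime → p ∣ u → p ≤ z) :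
    ∑ u ∈ s, 1 / Real.sqrt (u : ℝ) ≤ Real.exp (8 * Real.sqrt z) := by
  classical
  have h1 := (EulerProduct.summable_and_hasSum_smoothNumbers_prod_primesBelow_geometric (f := rs) (by
    intro p hp
    rw [Real.norm_of_nonneg (by rw [rs_apply]; positivity)]
    exact (rs_prime hp).trans_lt (by norm_num)) (z + 1)).2
  have hmem : ∀ u ∈ s, u ∈ Nat.smoothNumbers (z + 1) := by
    intro u hu
    rw [Nat.mem_smoothNumbers']
    intro p hp hpu
    exact Nat.lt_succ_of_le (hs u hu p hp hpu)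
  have h2 : ∑ u ∈ s, 1 / Real.sqrt (u : ℝ) ≤ ∏ p ∈ Nat.primesBelow (z + 1), (1 - rs p)⁻¹ := by
    rw [← sum_subtype_of_mem (p := fun u => u ∈ Nat.smoothNumbers (z + 1)) (fun u : ℕ => 1 / Real.sqrt (u : ℝ)) hmem]
    exact sum_le_hasSum _ (fun i _ => by positivity) h1
  refine h2.trans ?_
  calc ∏ p ∈ Nat.primesBelow (z + 1), (1 - rs p)⁻¹ ≤ ∏ p ∈ Nat.primesBelow (z + 1), Real.exp (4 * (1 / Real.sqrt (p : ℝ))) := by
        apply prod_le_prod
        · intro p hp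
          have := rs_prime (Nat.prime_of_mem_primesBelow hp)
          exact inv_nonneg.2 (by linarith)
        · intro p hp
          have h3 := rs_prime (Nat.prime_of_mem_primesBelow hp)
          have h4 : 0 ≤ rs p := by rw [rs_apply]; positivity
          rw [← rs_apply]
          rw [inv_le_iff_one_le_mul₀ (by linarith)]
          have h5 := Real.add_one_le_exp (4 * rs p)
          calc (1 : ℝ) ≤ (4 * rs p + 1) * (1 - rs p) := by nlinarith
            _ ≤ _ := mul_le_mul_of_nonneg_right h5 (by linarith)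
    _ = Real.exp (4 * ∑ p ∈ Nat.primesBelow (z + 1), 1 / Real.sqrt (p : ℝ)) := by
        rw [← Real.exp_sum, mul_sum]
    _ ≤ Real.exp (8 * Real.sqrt z) := by
        apply Real.exp_le_exp.2
        have h3 : ∑ p ∈ Nat.primesBelow (z + 1), 1 / Real.sqrt (p : ℝ) ≤ ∑ n ∈ Icc 1 z, 1 / Real.sqrt (n : ℝ) := by
          apply sum_le_sum_of_subset_of_nonneg
          · intro p hp
            have h4 := Nat.prime_of_mem_primesBelow hp
            have h5 := Nat.lt_of_mem_primesBelow hp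
            rw [mem_Icc]
            exact ⟨h4.one_lt.le, by omega⟩
          · intro _ _ _
            positivity
        have h4 := sum_sqrt z
        linarith

lemma sum_cube (M : ℕ) : ∑ b ∈ Icc 1 M, 1 / Real.sqrt ((b : ℝ) ^ 3) ≤ 3 := by
  have key : ∀ M : ℕ, 1 ≤ M → ∑ b ∈ Icc 1 M, 1 / Real.sqrt ((b : ℝ) ^ 3) ≤ 3 - 2 / Real.sqrt M := by
    intro M hM
    induction M, hM using Nat.le_induction with
    | base => norm_num
    | succ M hM ih =>
      rw [sum_Icc_succ_top (by omega)]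
      have hM0 : (0 : ℝ) < M := by exact_mod_cast hM
      obtain ⟨x, hx⟩ : ∃ x : ℝ, x = Real.sqrt (M : ℝ) := ⟨_, rfl⟩
      obtain ⟨y, hy⟩ : ∃ y : ℝ, y = Real.sqrt ((M + 1 : ℕ) : ℝ) := ⟨_, rfl⟩
      have hx0 : 0 < x := by rw [hx]; exact Real.sqrt_pos.2 hM0
      have hy0 : 0 < y := by rw [hy]; exact Real.sqrt_pos.2 (by positivity)
      have hx2 : x ^ 2 = M := by rw [hx]; exact Real.sq_sqrt hM0.le
      have hy2 : y ^ 2 = M + 1 := by
        rw [hy, Real.sq_sqrt (Nat.cast_nonneg _)]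
        push_cast
        ring
      have hxy : x ≤ y := by nlinarith
      have e : Real.sqrt (((M + 1 : ℕ) : ℝ) ^ 3) = y ^ 3 := by
        have h1 : (((M + 1 : ℕ) : ℝ) ^ 3) = (y ^ 3) ^ 2 := by
          push_cast
          rw [← hy2]
          ring
        rw [h1]
        exact Real.sqrt_sq (by positivity)
      rw [e]
      rw [← hx] at ih
      rw [← hy]
      have h3 : 1 / y ^ 3 ≤ 2 / x - 2 / y := by
        have h4 : 2 / x - 2 / y = 2 * (y - x) / (x * y) := by field_simp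
        have h5 : (y - x) * (y + x) = 1 := by nlinarith
        rw [h4, div_le_div_iff₀ (by positivity) (by positivity)]
        have h6 : 0 ≤ y - x := by linarith
        have h7 : x * y * (y + x) ≤ 2 * y ^ 3 := by
          have : x * y * (y + x) ≤ y * y * (y + y) := by
            apply mul_le_mul _ (by linarith) (by positivity) (by positivity)
            exact mul_le_mul_of_nonneg_right hxy hy0.le
          nlinarith
        have h8 : 1 * (x * y) = (y - x) * (x * y * (y + x)) := by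
          calc 1 * (x * y) = ((y - x) * (y + x)) * (x * y) := by rw [h5]
            _ = _ := by ring
        rw [h8]
        calc (y - x) * (x * y * (y + x)) ≤ (y - x) * (2 * y ^ 3) := mul_le_mul_of_nonneg_left h7 h6
          _ = _ := by ring
      linarith
  rcases Nat.eq_zero_or_pos M with h | h
  · rw [h]; norm_num
  · have := key M h
    have h2 : 0 ≤ 2 / Real.sqrt (M : ℝ) := by positivity
    linarith

lemma sq_cube {s : ℕ} (hs : s ≠ 0) (h : ∀ p : ℕ, p.Prime → p ∣ s → p ^ 2 ∣ s) :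
    ∃ a b : ℕ, 1 ≤ a ∧ 1 ≤ b ∧ s = a ^ 2 * b ^ 3 := by
  obtain ⟨b, c, hbc, hb⟩ := Nat.sq_mul_squarefree s
  have hdvd : b ∣ c := by
    rw [← Nat.prod_primeFactors_of_squarefree hb]
    apply Finset.prod_primes_dvd
    · intro p hp
      exact (Nat.prime_of_mem_primeFactors hp).prime
    · intro p hp
      have hpp := Nat.prime_of_mem_primeFactors hp
      have hpb := Nat.dvd_of_mem_primeFactors hp
      by_contra hc
      have h1 : p ^ 2 ∣ s := h p hpp (by rw [← hbc]; exact Dvd.dvd.mul_left hpb _)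
      rw [← hbc] at h1
      have h2 : (p ^ 2).Coprime (c ^ 2) := Nat.Coprime.pow _ _ ((Nat.Prime.coprime_iff_not_dvd hpp).2 hc)
      have h3 : p ^ 2 ∣ b := h2.dvd_of_dvd_mul_left h1
      rw [sq] at h3
      have h4 := hb p h3
      exact hpp.one_lt.ne' (Nat.isUnit_iff.1 h4)
  obtain ⟨a, rfl⟩ := hdvd
  have hb0 : b ≠ 0 := by
    rintro rfl
    simp at hbc
    exact hs hbc.symm
  have ha0 : a ≠ 0 := by
    rintro rfl
    simp at hbc
    exact hs hbc.symm
  exact ⟨a, b, Nat.one_le_iff_ne_zero.2 ha0, Nat.one_le_iff_ne_zero.2 hb0, by rw [← hbc]; ring⟩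

/-- smooth part, squareful part, squarefree rough part -/
theorem decomp3 (z n : ℕ) : n ≠ 0 → ∃ u s l : ℕ, n = u * s * l ∧ u ≠ 0 ∧ s ≠ 0 ∧
    (∀ p : ℕ, p.Prime → p ∣ u → p ≤ z) ∧ (∀ p : ℕ, p.Prime → p ∣ s → p ^ 2 ∣ s) ∧ Squarefree l ∧
    (∀ p : ℕ, p.Prime → p ∣ l → z < p) := by
  induction n using induction_on_primes with
  | zero => exact fun h => absurd rfl h
  | one =>
    intro _
    refine ⟨1, 1, 1, rfl, one_ne_zero, one_ne_zero, ?_, ?_, squarefree_one, ?_⟩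
    · intro p hp h; exact absurd (Nat.dvd_one.1 h) hp.one_lt.ne'
    · intro p hp h; exact absurd (Nat.dvd_one.1 h) hp.one_lt.ne'
    · intro p hp h; exact absurd (Nat.dvd_one.1 h) hp.one_lt.ne'
  | prime_mul p n hp ih =>
    intro hpn
    have hn : n ≠ 0 := fun h => hpn (by rw [h, mul_zero])
    obtain ⟨u, s, l, h1, h2, h3, h4, h5, h6, h7⟩ := ih hn
    rcases Nat.lt_or_ge z p with hz | hz
    · by_cases hl : p ∣ l
      · obtain ⟨l', rfl⟩ := hl
        refine ⟨u, p ^ 2 * s, l', by rw [h1]; ring, h2, Nat.mul_ne_zero (pow_ne_zero _ hp.ne_zero) h3, h4, ?_,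
          h6.squarefree_of_dvd (dvd_mul_left _ _), fun r hr hrl => h7 r hr (Dvd.dvd.mul_left hrl _)⟩
        intro r hr hrs
        rcases (Nat.Prime.dvd_mul hr).1 hrs with h | h
        · have h8 : r ∣ p := hr.dvd_of_dvd_pow h
          rw [(Nat.prime_dvd_prime_iff_eq hr hp).1 h8]
          exact dvd_mul_right _ _
        · exact Dvd.dvd.mul_left (h5 r hr h) _
      · refine ⟨u, s, p * l, by rw [h1]; ring, h2, h3, h4, h5, ?_, ?_⟩
        · rw [Nat.squarefree_mul ((Nat.Prime.coprime_iff_not_dvd hp).2 hl)]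
          exact ⟨hp.squarefree, h6⟩
        · intro r hr hrl
          rcases (Nat.Prime.dvd_mul hr).1 hrl with h | h
          · rw [(Nat.prime_dvd_prime_iff_eq hr hp).1 h]
            exact hz
          · exact h7 r hr h
    · refine ⟨p * u, s, l, by rw [h1]; ring, Nat.mul_ne_zero hp.ne_zero h2, h3, ?_, h5, h6, h7⟩
      intro r hr hru
      rcases (Nat.Prime.dvd_mul hr).1 hru with h | h
      · rw [(Nat.prime_dvd_prime_iff_eq hr hp).1 h]
        exact hz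
      · exact h4 r hr h

open Classical in
/-- the possible divisors -/
noncomputable def PN (z N : ℕ) : Finset ℕ :=
  (((Icc 1 (2 * N)).filter fun u => ∀ p : ℕ, p.Prime → p ∣ u → p ≤ z) ×ˢ (Icc 1 (2 * N) ×ˢ Icc 1 (2 * N))).image
    fun t => t.1 * (t.2.1 ^ 2 * t.2.2 ^ 3)

theorem PN_sum (z N : ℕ) (hN : 1 ≤ N) :
    ∑ m ∈ PN z N, 1 / Real.sqrt (m : ℝ) ≤ Real.exp (8 * Real.sqrt z) * ((1 + Real.log (2 * N)) * 3) := by
  classical
  unfold PN
  refine (sum_image_le_of_nonneg (f := fun m : ℕ => 1 / Real.sqrt (m : ℝ)) (fun _ _ => by positivity)).trans ?_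
  have h1 : ∀ t ∈ (((Icc 1 (2 * N)).filter fun u => ∀ p : ℕ, p.Prime → p ∣ u → p ≤ z) ×ˢ
      (Icc 1 (2 * N) ×ˢ Icc 1 (2 * N))),
      1 / Real.sqrt ((t.1 * (t.2.1 ^ 2 * t.2.2 ^ 3) : ℕ) : ℝ) =
      1 / Real.sqrt (t.1 : ℝ) * (1 / (t.2.1 : ℝ) * (1 / Real.sqrt ((t.2.2 : ℝ) ^ 3))) := by
    intro t _
    push_cast
    rw [Real.sqrt_mul (Nat.cast_nonneg _), Real.sqrt_mul (by positivity), Real.sqrt_sq (Nat.cast_nonneg _)]
    rw [one_div_mul_one_div, one_div_mul_one_div]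
  rw [sum_congr rfl h1]
  have h2 : ∑ t ∈ (((Icc 1 (2 * N)).filter fun u => ∀ p : ℕ, p.Prime → p ∣ u → p ≤ z) ×ˢ
      (Icc 1 (2 * N) ×ˢ Icc 1 (2 * N))),
      1 / Real.sqrt (t.1 : ℝ) * (1 / (t.2.1 : ℝ) * (1 / Real.sqrt ((t.2.2 : ℝ) ^ 3))) =
      (∑ u ∈ (Icc 1 (2 * N)).filter (fun u => ∀ p : ℕ, p.Prime → p ∣ u → p ≤ z), 1 / Real.sqrt (u : ℝ)) *
      ((∑ a ∈ Icc 1 (2 * N), 1 / (a : ℝ)) * ∑ b ∈ Icc 1 (2 * N), 1 / Real.sqrt ((b : ℝ) ^ 3)) := by
    rw [sum_product, sum_mul]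
    refine sum_congr rfl fun u _ => ?_
    show ∑ y ∈ Icc 1 (2 * N) ×ˢ Icc 1 (2 * N), 1 / Real.sqrt (u : ℝ) * (1 / (y.1 : ℝ) *
      (1 / Real.sqrt ((y.2 : ℝ) ^ 3))) = _
    rw [← mul_sum, sum_product, sum_mul_sum]
  rw [h2]
  have h3 := smooth_sum z ((Icc 1 (2 * N)).filter (fun u => ∀ p : ℕ, p.Prime → p ∣ u → p ≤ z))
    (fun u hu => (mem_filter.1 hu).2)
  have h4 : ∑ a ∈ Icc 1 (2 * N), 1 / (a : ℝ) ≤ 1 + Real.log (2 * N) := by
    have h5 := harmonic_le_one_add_log (2 * N)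
    rw [harmonic_eq_sum_Icc] at h5
    push_cast at h5
    simpa [one_div] using h5
  have h5 := sum_cube (2 * N)
  have hlog : 0 ≤ Real.log (2 * N) := Real.log_nonneg (by
    have : (1 : ℝ) ≤ N := by exact_mod_cast hN
    linarith)
  apply mul_le_mul h3 _ (by positivity) (by positivity)
  exact mul_le_mul h4 h5 (sum_nonneg fun _ _ => by positivity) (by linarith)

/-- the decomposition with the divisor in `PN` -/
theorem decompN (z N n : ℕ) (hn : n ≠ 0) (hnN : n ≤ 2 * N) : ∃ m ∈ PN z N, ∃ l : ℕ, n = m * l ∧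
    Squarefree l ∧ (∀ p : ℕ, p.Prime → p ∣ l → z < p) := by
  classical
  obtain ⟨u, s, l, h1, h2, h3, h4, h5, h6, h7⟩ := decomp3 z n hn
  obtain ⟨a, b, ha, hb, rfl⟩ := sq_cube h3 h5
  have hl : l ≠ 0 := h6.ne_zero
  refine ⟨u * (a ^ 2 * b ^ 3), ?_, l, h1, h6, h7⟩
  have hdvd : ∀ d : ℕ, d ∣ n → d ≤ 2 * N := fun d hd => (Nat.le_of_dvd (Nat.pos_of_ne_zero hn) hd).trans hnN
  unfold PN
  rw [mem_image]
  refine ⟨(u, a, b), ?_, rfl⟩
  rw [mem_product, mem_product, mem_filter, mem_Icc, mem_Icc, mem_Icc]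
  refine ⟨⟨⟨Nat.one_le_iff_ne_zero.2 h2, hdvd u ?_⟩, h4⟩, ⟨ha, hdvd a ?_⟩, hb, hdvd b ?_⟩
  · rw [h1]
    exact ⟨a ^ 2 * b ^ 3 * l, by ring⟩
  · rw [h1]
    exact ⟨u * (a * b ^ 3) * l, by ring⟩
  · rw [h1]
    exact ⟨u * (a ^ 2 * b ^ 2) * l, by ring⟩

end Pool.Agent.Q144.RS
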