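import Pool.Agent.Q144.RS.Rich

/-!
# From coefficients in the disc to coefficients zero and one
-/

set_option autoImplicit false

namespace Pool.Agent.Q144.RS

open Finset

/-- the indicator function -/
noncomputable def ind (A : Set ℕ) : ℕ → ℂ := A.indicator 1

lemma ind_norm (A : Set ℕ) (n : ℕ) : ‖ind A n‖ ≤ 1 := by
  unfold ind
  by_cases h : n ∈ A
  · rw [Set.indicator_of_mem h]; simp
  · rw [Set.indicator_of_notMem h]; simp

lemma ind_off {A E : Set ℕ} (h : A ⊆ E) (n : ℕ) (hn : n ∉ E) : ind A n = 0 :=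
  Set.indicator_of_notMem (fun h' => hn (h h')) _

lemma D_sum {ι : Type*} (s : Finset ι) (f : ι → ℕ → ℂ) (N : ℕ) (t : ℝ) :
    D N (fun n => ∑ i ∈ s, f i n) t = ∑ i ∈ s, D N (f i) t := by
  unfold D
  rw [sum_comm]
  exact sum_congr rfl fun n _ => by rw [sum_mul]

lemma D_smul (c : ℂ) (f : ℕ → ℂ) (N : ℕ) (t : ℝ) : D N (fun n => c * f n) t = c * D N f t := by
  unfold D
  rw [mul_sum]
  exact sum_congr rfl fun n _ => by rw [mul_assoc]

lemma D_add (f g : ℕ → ℂ) (N : ℕ) (t : ℝ) : D N (fun n => f n + g n) t = D N f t + D N g t := by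
  unfold D
  rw [← sum_add_distrib]
  exact sum_congr rfl fun n _ => by rw [add_mul]

lemma D_congr {a b : ℕ → ℂ} {N : ℕ} {t : ℝ} (h : ∀ n, a n = b n) : D N a t = D N b t := by
  unfold D
  exact sum_congr rfl fun n _ => by rw [h n]

lemma D_small (f : ℕ → ℂ) (N : ℕ) (t δ : ℝ) (h : ∀ n, ‖f n‖ ≤ δ) : ‖D N f t‖ ≤ (N + 1) * δ := by
  unfold D
  refine (norm_sum_le _ _).trans ?_
  calc ∑ n ∈ Icc N (2 * N), ‖f n * ph t n‖ ≤ ∑ n ∈ Icc N (2 * N), δ := by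
        apply sum_le_sum
        intro n _
        rw [norm_mul, ph_norm, mul_one]
        exact h n
    _ = (N + 1) * δ := by
        rw [sum_const, Nat.card_Icc, nsmul_eq_mul]
        have : 2 * N + 1 - N = N + 1 := by omega
        rw [this]
        push_cast
        ring

/-- the level sets -/
def lev (b : ℕ → ℝ) (J j : ℕ) : Set ℕ := {n | (j : ℝ) ≤ J * b n}

lemma lev_sum (b : ℕ → ℝ) (h0 : ∀ n, 0 ≤ b n) (h1 : ∀ n, b n ≤ 1) (J : ℕ) (hJ : 1 ≤ J) (n : ℕ) :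
    ‖((b n : ℝ) : ℂ) - (1 / (J : ℂ)) * ∑ j ∈ Icc 1 J, ind (lev b J j) n‖ ≤ 1 / J := by
  have hJ0 : (0 : ℝ) < J := by exact_mod_cast hJ
  have e : ∑ j ∈ Icc 1 J, ind (lev b J j) n = ((⌊J * b n⌋₊ : ℕ) : ℂ) := by
    have h2 : ∀ j ∈ Icc 1 J, ind (lev b J j) n = if j ≤ ⌊J * b n⌋₊ then 1 else 0 := by
      intro j _
      unfold ind
      by_cases h3 : (j : ℝ) ≤ J * b n
      · rw [Set.indicator_of_mem (show n ∈ lev b J j from h3), if_pos (Nat.le_floor h3)]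
        rfl
      · rw [Set.indicator_of_notMem (show n ∉ lev b J j from h3), if_neg]
        intro h4
        apply h3
        exact le_trans (by exact_mod_cast h4) (Nat.floor_le (mul_nonneg hJ0.le (h0 n)))
    rw [sum_congr rfl h2, sum_boole]
    have h3 : (Icc 1 J).filter (fun j => j ≤ ⌊J * b n⌋₊) = Icc 1 ⌊J * b n⌋₊ := by
      have h4 : ⌊J * b n⌋₊ ≤ J := by
        apply Nat.floor_le_of_le
        nlinarith [h1 n]
      ext j
      rw [mem_filter, mem_Icc, mem_Icc]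
      omega
    rw [h3, Nat.card_Icc, Nat.add_sub_cancel]
  rw [e]
  have h2 : ((b n : ℝ) : ℂ) - (1 / (J : ℂ)) * ((⌊J * b n⌋₊ : ℕ) : ℂ) = ((b n - (1 / J) * (⌊J * b n⌋₊ : ℕ) : ℝ) : ℂ) := by
    push_cast; ring
  rw [h2, Complex.norm_real, Real.norm_eq_abs]
  have h3 := Nat.floor_le (mul_nonneg hJ0.le (h0 n))
  have h4 := Nat.lt_floor_add_one (J * b n)
  have h5 : b n - (1 / J) * (⌊J * b n⌋₊ : ℕ) = (J * b n - (⌊J * b n⌋₊ : ℕ)) / J := by field_simp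
  rw [h5, abs_of_nonneg (div_nonneg (by linarith) hJ0.le)]
  apply div_le_div_of_nonneg_right _ hJ0.le
  linarith

/-- coefficients in `[0, 1]` -/
lemma D_real {q : ℝ} (hq : 1 ≤ q) (b : ℕ → ℝ) (h0 : ∀ n, 0 ≤ b n) (h1 : ∀ n, b n ≤ 1) (N : ℕ) (hN : 1 ≤ N) (t : ℝ) :
    ‖D N (fun n => (b n : ℂ)) t‖ ^ q ≤
      2 ^ (q - 1) * ((1 / N) * ∑ j ∈ Icc 1 N, ‖D N (ind (lev b N j)) t‖ ^ q + 2 ^ q) := by
  have hN0 : (0 : ℝ) < N := by exact_mod_cast hN
  have hN1 : (1 : ℝ) ≤ N := by exact_mod_cast hN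
  have e : (fun n => (b n : ℂ)) = fun n => ((1 / (N : ℂ)) * ∑ j ∈ Icc 1 N, ind (lev b N j) n) +
      ((b n : ℂ) - (1 / (N : ℂ)) * ∑ j ∈ Icc 1 N, ind (lev b N j) n) := by
    funext n; ring
  have h2 : D N (fun n => (b n : ℂ)) t = (1 / (N : ℂ)) * ∑ j ∈ Icc 1 N, D N (ind (lev b N j)) t +
      D N (fun n => (b n : ℂ) - (1 / (N : ℂ)) * ∑ j ∈ Icc 1 N, ind (lev b N j) n) t := by
    conv_lhs => rw [e]
    rw [D_add, D_smul, D_sum]
  have h3 : ‖D N (fun n => (b n : ℂ) - (1 / (N : ℂ)) * ∑ j ∈ Icc 1 N, ind (lev b N j) n) t‖ ≤ 2 := by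
    refine (D_small _ N t (1 / N) fun n => lev_sum b h0 h1 N hN n).trans ?_
    rw [mul_one_div, div_le_iff₀ hN0]
    linarith
  have h5 : ‖(1 / (N : ℂ)) * ∑ j ∈ Icc 1 N, D N (ind (lev b N j)) t‖ ≤
      ∑ j ∈ Icc 1 N, (1 / (N : ℝ)) * ‖D N (ind (lev b N j)) t‖ := by
    rw [norm_mul, norm_div, norm_one, Complex.norm_natCast, ← mul_sum]
    exact mul_le_mul_of_nonneg_left (norm_sum_le _ _) (by positivity)
  have h6 : (∑ j ∈ Icc 1 N, (1 / (N : ℝ)) * ‖D N (ind (lev b N j)) t‖) ^ q ≤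
      ∑ j ∈ Icc 1 N, (1 / (N : ℝ)) * ‖D N (ind (lev b N j)) t‖ ^ q := by
    apply Real.rpow_arith_mean_le_arith_mean_rpow _ _ _ (fun _ _ => by positivity) _ (fun _ _ => norm_nonneg _) hq
    rw [sum_const, Nat.card_Icc, Nat.add_sub_cancel, nsmul_eq_mul]
    field_simp
  rw [h2]
  have h7 := norm_add_le ((1 / (N : ℂ)) * ∑ j ∈ Icc 1 N, D N (ind (lev b N j)) t)
    (D N (fun n => (b n : ℂ) - (1 / (N : ℂ)) * ∑ j ∈ Icc 1 N, ind (lev b N j) n) t)
  have h8 := Real.rpow_le_rpow (norm_nonneg _) (h7.trans (add_le_add h5 h3)) (by linarith : (0 : ℝ) ≤ q)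
  refine h8.trans ((two_pow hq (sum_nonneg fun _ _ => by positivity) (by norm_num)).trans ?_)
  apply mul_le_mul_of_nonneg_left _ (by positivity)
  rw [mul_sum]
  linarith

lemma card_G {q ε : ℝ} (hq : 0 ≤ q) (hε : 0 < ε) {N : ℕ} (hN : 1 ≤ N) (W : Finset ℤ) :
    (W.card : ℝ) ≤ (N : ℝ) ^ ε * ((N : ℝ) ^ q + W.card * (N : ℝ) ^ (q / 2)) := by
  have hN1 : (1 : ℝ) ≤ N := by exact_mod_cast hN
  have h1 : 1 ≤ (N : ℝ) ^ ε := Real.one_le_rpow hN1 hε.le
  have h2 : 1 ≤ (N : ℝ) ^ (q / 2) := Real.one_le_rpow hN1 (by positivity)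
  have h3 : (0 : ℝ) ≤ W.card := Nat.cast_nonneg _
  calc (W.card : ℝ) = 1 * (0 + W.card * 1) := by ring
    _ ≤ _ := by
        apply mul_le_mul h1 _ (by positivity) (by positivity)
        apply add_le_add (by positivity)
        exact mul_le_mul_of_nonneg_left h2 h3

lemma real_good {q : ℝ} (hq : 1 ≤ q) {E : Set ℕ} {ε C : ℝ} (hε : 0 < ε) {N : ℕ} (hN : 1 ≤ N) {W : Finset ℤ}
    (h : ∀ A : Set ℕ, A ⊆ E → Good q ε C N (ind A) W)
    (b : ℕ → ℝ) (h0 : ∀ n, 0 ≤ b n) (h1 : ∀ n, b n ≤ 1) (hb : ∀ n, n ∉ E → b n = 0) :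
    Good q ε (2 ^ (q - 1) * (|C| + 2 ^ q)) N (fun n => (b n : ℂ)) W := by
  unfold Good
  have hN0 : (0 : ℝ) < N := by exact_mod_cast hN
  obtain ⟨G, hG⟩ : ∃ G : ℝ, G = (N : ℝ) ^ ε * ((N : ℝ) ^ q + W.card * (N : ℝ) ^ (q / 2)) := ⟨_, rfl⟩
  have hG0 : 0 ≤ G := by rw [hG]; positivity
  have hWG : (W.card : ℝ) ≤ G := by rw [hG]; exact card_G (by linarith) hε hN W
  rw [← hG]
  have hj : ∀ j ∈ Icc 1 N, ∑ t ∈ W, ‖D N (ind (lev b N j)) t‖ ^ q ≤ |C| * G := by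
    intro j hj
    have h2 := h (lev b N j) (by
      intro n hn
      by_contra hnE
      have h2 : (j : ℝ) ≤ N * b n := hn
      rw [hb n hnE, mul_zero] at h2
      have h3 : (1 : ℝ) ≤ j := by exact_mod_cast (mem_Icc.1 hj).1
      linarith)
    unfold Good at h2
    rw [← hG] at h2
    exact h2.trans (mul_le_mul_of_nonneg_right (le_abs_self C) hG0)
  refine (sum_le_sum (s := W) fun (t : ℤ) _ => D_real hq b h0 h1 N hN (t : ℝ)).trans ?_
  rw [← mul_sum, mul_assoc]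
  apply mul_le_mul_of_nonneg_left _ (by positivity)
  rw [sum_add_distrib, ← mul_sum, sum_comm, sum_const, nsmul_eq_mul]
  have h3 := mul_le_mul_of_nonneg_left (sum_le_sum hj) (show (0 : ℝ) ≤ 1 / N by positivity)
  rw [sum_const, Nat.card_Icc, nsmul_eq_mul, Nat.add_sub_cancel] at h3
  have h4 : 1 / (N : ℝ) * (N * (|C| * G)) = |C| * G := by field_simp
  rw [h4] at h3
  have h5 : (W.card : ℝ) * 2 ^ q ≤ G * 2 ^ q := mul_le_mul_of_nonneg_right hWG (by positivity)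
  linarith

/-- from coefficients `0`, `1` supported on `E` to all coefficients supported on `E` -/
theorem good_of_ind {q : ℝ} (hq : 1 ≤ q) {E : Set ℕ} {ε C : ℝ} (hε : 0 < ε) {N : ℕ} (hN : 1 ≤ N) {W : Finset ℤ}
    (h : ∀ A : Set ℕ, A ⊆ E → Good q ε C N (ind A) W)
    (a : ℕ → ℂ) (ha : ∀ n, ‖a n‖ ≤ 1) (haE : ∀ n, n ∉ E → a n = 0) :
    Good q ε (4 ^ q * (2 ^ (q - 1) * (|C| + 2 ^ q))) N a W := by
  have hre : ∀ n, |(a n).re| ≤ 1 := fun n => (Complex.abs_re_le_norm _).trans (ha n)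
  have him : ∀ n, |(a n).im| ≤ 1 := fun n => (Complex.abs_im_le_norm _).trans (ha n)
  obtain ⟨C', hC'⟩ : ∃ C' : ℝ, C' = 2 ^ (q - 1) * (|C| + 2 ^ q) := ⟨_, rfl⟩
  rw [← hC']
  obtain ⟨G, hG⟩ : ∃ G : ℝ, G = (N : ℝ) ^ ε * ((N : ℝ) ^ q + W.card * (N : ℝ) ^ (q / 2)) := ⟨_, rfl⟩
  have part : ∀ g : ℕ → ℝ, (∀ n, |g n| ≤ 1) → (∀ n, n ∉ E → g n = 0) →
      ∑ t ∈ W, ‖D N (fun n => ((max (g n) 0 : ℝ) : ℂ)) t‖ ^ q ≤ C' * G := by
    intro g hg hgE
    have h2 := real_good hq hε hN h (fun n => max (g n) 0) (fun n => le_max_right _ _)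
      (fun n => max_le ((le_abs_self _).trans (hg n)) zero_le_one) (fun n hn => by rw [hgE n hn]; simp)
    unfold Good at h2
    rw [← hC', ← hG] at h2
    exact h2
  have p1 := part (fun n => (a n).re) hre (fun n hn => by rw [haE n hn]; simp)
  have p2 := part (fun n => -(a n).re) (fun n => by rw [abs_neg]; exact hre n) (fun n hn => by rw [haE n hn]; simp)
  have p3 := part (fun n => (a n).im) him (fun n hn => by rw [haE n hn]; simp)
  have p4 := part (fun n => -(a n).im) (fun n => by rw [abs_neg]; exact him n) (fun n hn => by rw [haE n hn]; simp)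
  have e : ∀ t : ℝ, D N a t = (D N (fun n => ((max ((a n).re) 0 : ℝ) : ℂ)) t + (-1) * D N (fun n => ((max (-(a n).re) 0 : ℝ) : ℂ)) t) +
      (Complex.I * D N (fun n => ((max ((a n).im) 0 : ℝ) : ℂ)) t + (-Complex.I) * D N (fun n => ((max (-(a n).im) 0 : ℝ) : ℂ)) t) := by
    intro t
    rw [← D_smul, ← D_smul, ← D_smul, ← D_add, ← D_add, ← D_add]
    apply D_congr
    intro n
    have h1 : ∀ x : ℝ, max x 0 - max (-x) 0 = x := by
      intro x
      rcases le_total 0 x with h | h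
      · rw [max_eq_left h, max_eq_right (by linarith)]; ring
      · rw [max_eq_right h, max_eq_left (by linarith)]; ring
    apply Complex.ext
    · simp
      linarith [h1 (a n).re]
    · simp
      linarith [h1 (a n).im]
  have hsq : ∀ t ∈ W, ‖D N a t‖ ^ q ≤ 4 ^ (q - 1) * (‖D N (fun n => ((max ((a n).re) 0 : ℝ) : ℂ)) t‖ ^ q +
      ‖D N (fun n => ((max (-(a n).re) 0 : ℝ) : ℂ)) t‖ ^ q + ‖D N (fun n => ((max ((a n).im) 0 : ℝ) : ℂ)) t‖ ^ q +
      ‖D N (fun n => ((max (-(a n).im) 0 : ℝ) : ℂ)) t‖ ^ q) := by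
    intro t _
    have h1 : ‖D N a t‖ ≤ ‖D N (fun n => ((max ((a n).re) 0 : ℝ) : ℂ)) t‖ + ‖D N (fun n => ((max (-(a n).re) 0 : ℝ) : ℂ)) t‖ +
        ‖D N (fun n => ((max ((a n).im) 0 : ℝ) : ℂ)) t‖ + ‖D N (fun n => ((max (-(a n).im) 0 : ℝ) : ℂ)) t‖ := by
      rw [e t]
      refine (norm_add_le _ _).trans ?_
      refine (add_le_add (norm_add_le _ _) (norm_add_le _ _)).trans (le_of_eq ?_)
      rw [norm_mul, norm_mul, norm_mul, norm_neg, norm_neg, norm_one, Complex.norm_I]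
      ring
    refine (Real.rpow_le_rpow (norm_nonneg _) h1 (by linarith)).trans ?_
    have hx := norm_nonneg (D N (fun n => ((max ((a n).re) 0 : ℝ) : ℂ)) t)
    have hy := norm_nonneg (D N (fun n => ((max (-(a n).re) 0 : ℝ) : ℂ)) t)
    have hz := norm_nonneg (D N (fun n => ((max ((a n).im) 0 : ℝ) : ℂ)) t)
    have hw := norm_nonneg (D N (fun n => ((max (-(a n).im) 0 : ℝ) : ℂ)) t)
    generalize ‖D N (fun n => ((max ((a n).re) 0 : ℝ) : ℂ)) t‖ = x at *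
    generalize ‖D N (fun n => ((max (-(a n).re) 0 : ℝ) : ℂ)) t‖ = y at *
    generalize ‖D N (fun n => ((max ((a n).im) 0 : ℝ) : ℂ)) t‖ = z at *
    generalize ‖D N (fun n => ((max (-(a n).im) 0 : ℝ) : ℂ)) t‖ = w at *
    have h := Real.rpow_sum_le_const_mul_sum_rpow_of_nonneg (univ : Finset (Fin 4)) (f := ![x, y, z, w]) hq (by
      intro i _
      fin_cases i
      · exact hx
      · exact hy
      · exact hz
      · exact hw)
    simpa [Fin.sum_univ_four] using h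
  unfold Good
  rw [← hG]
  refine (sum_le_sum hsq).trans ?_
  rw [← mul_sum, sum_add_distrib, sum_add_distrib, sum_add_distrib]
  have e4 : (4 : ℝ) ^ q = 4 ^ (q - 1) * 4 := by
    rw [← Real.rpow_add_one (by norm_num)]; congr 1; ring
  rw [e4]
  calc _ ≤ (4 : ℝ) ^ (q - 1) * (C' * G + C' * G + C' * G + C' * G) := by
        apply mul_le_mul_of_nonneg_left _ (by positivity)
        linarith
    _ = _ := by ring

end Pool.Agent.Q144.RS
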