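import Pool.Agent.Q144.RS.Win
import Pool.Agent.Q144.RS.Zo

/-!
# Coefficients zero and one, real points
-/

set_option autoImplicit false

namespace Pool.Agent.Q144.RS

open Finset

lemma D1_sum {ι : Type*} (s : Finset ι) (f : ι → ℕ → ℂ) (N : ℕ) (t : ℝ) :
    D1 N (fun n => ∑ i ∈ s, f i n) t = ∑ i ∈ s, D1 N (f i) t := by
  unfold D1
  rw [sum_comm]
  exact sum_congr rfl fun n _ => by rw [sum_mul]

lemma D1_smul (c : ℂ) (f : ℕ → ℂ) (N : ℕ) (t : ℝ) : D1 N (fun n => c * f n) t = c * D1 N f t := by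
  unfold D1
  rw [mul_sum]
  exact sum_congr rfl fun n _ => by rw [mul_assoc]

lemma D1_add (f g : ℕ → ℂ) (N : ℕ) (t : ℝ) : D1 N (fun n => f n + g n) t = D1 N f t + D1 N g t := by
  unfold D1
  rw [← sum_add_distrib]
  exact sum_congr rfl fun n _ => by rw [add_mul]

lemma D1_congr {a b : ℕ → ℂ} {N : ℕ} {t : ℝ} (h : ∀ n, a n = b n) : D1 N a t = D1 N b t := by
  unfold D1
  exact sum_congr rfl fun n _ => by rw [h n]

lemma D1_small (f : ℕ → ℂ) (N : ℕ) (t δ : ℝ) (h : ∀ n, ‖f n‖ ≤ δ) : ‖D1 N f t‖ ≤ N * δ := by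
  unfold D1
  refine (norm_sum_le _ _).trans ?_
  calc ∑ n ∈ Icc 1 N, ‖f n * ph t n‖ ≤ ∑ n ∈ Icc 1 N, δ := by
        apply sum_le_sum
        intro n _
        rw [norm_mul, ph_norm, mul_one]
        exact h n
    _ = N * δ := by
        rw [sum_const, Nat.card_Icc, nsmul_eq_mul, Nat.add_sub_cancel]

/-- coefficients in `[0, 1]` -/
lemma D1_real (b : ℕ → ℝ) (h0 : ∀ n, 0 ≤ b n) (h1 : ∀ n, b n ≤ 1) (N : ℕ) (hN : 1 ≤ N) (t : ℝ) :
    ‖D1 N (fun n => (b n : ℂ)) t‖ ^ 2 ≤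
      2 * ((1 / N) * ∑ j ∈ Icc 1 N, ‖D1 N (ind (lev b N j)) t‖ ^ 2 + 1) := by
  have hN0 : (0 : ℝ) < N := by exact_mod_cast hN
  have e : (fun n => (b n : ℂ)) = fun n => ((1 / (N : ℂ)) * ∑ j ∈ Icc 1 N, ind (lev b N j) n) +
      ((b n : ℂ) - (1 / (N : ℂ)) * ∑ j ∈ Icc 1 N, ind (lev b N j) n) := by
    funext n; ring
  have h2 : D1 N (fun n => (b n : ℂ)) t = (1 / (N : ℂ)) * ∑ j ∈ Icc 1 N, D1 N (ind (lev b N j)) t +
      D1 N (fun n => (b n : ℂ) - (1 / (N : ℂ)) * ∑ j ∈ Icc 1 N, ind (lev b N j) n) t := by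
    conv_lhs => rw [e]
    rw [D1_add, D1_smul, D1_sum]
  have h3 : ‖D1 N (fun n => (b n : ℂ) - (1 / (N : ℂ)) * ∑ j ∈ Icc 1 N, ind (lev b N j) n) t‖ ≤ 1 := by
    refine (D1_small _ N t (1 / N) fun n => lev_sum b h0 h1 N hN n).trans ?_
    rw [mul_one_div, div_le_iff₀ hN0]
    linarith
  have h5 : ‖(1 / (N : ℂ)) * ∑ j ∈ Icc 1 N, D1 N (ind (lev b N j)) t‖ ^ 2 ≤
      (1 / (N : ℝ)) * ∑ j ∈ Icc 1 N, ‖D1 N (ind (lev b N j)) t‖ ^ 2 := by
    rw [norm_mul, norm_div, norm_one, Complex.norm_natCast, mul_pow]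
    have h6 : ‖∑ j ∈ Icc 1 N, D1 N (ind (lev b N j)) t‖ ^ 2 ≤ N * ∑ j ∈ Icc 1 N, ‖D1 N (ind (lev b N j)) t‖ ^ 2 := by
      have h7 := pow_le_pow_left₀ (norm_nonneg _) (norm_sum_le (Icc 1 N) fun j => D1 N (ind (lev b N j)) t) 2
      refine h7.trans (sq_sum_le_card_mul_sum_sq.trans (le_of_eq ?_))
      rw [Nat.card_Icc, Nat.add_sub_cancel]
    calc (1 / (N : ℝ)) ^ 2 * ‖∑ j ∈ Icc 1 N, D1 N (ind (lev b N j)) t‖ ^ 2 ≤
          (1 / (N : ℝ)) ^ 2 * (N * ∑ j ∈ Icc 1 N, ‖D1 N (ind (lev b N j)) t‖ ^ 2) :=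
          mul_le_mul_of_nonneg_left h6 (by positivity)
      _ = _ := by field_simp
  rw [h2]
  have h7 := norm_add_le ((1 / (N : ℂ)) * ∑ j ∈ Icc 1 N, D1 N (ind (lev b N j)) t)
    (D1 N (fun n => (b n : ℂ) - (1 / (N : ℂ)) * ∑ j ∈ Icc 1 N, ind (lev b N j) n) t)
  have h8 := pow_le_pow_left₀ (norm_nonneg _) h7 2
  have hx := norm_nonneg ((1 / (N : ℂ)) * ∑ j ∈ Icc 1 N, D1 N (ind (lev b N j)) t)
  have hy := norm_nonneg (D1 N (fun n => (b n : ℂ) - (1 / (N : ℂ)) * ∑ j ∈ Icc 1 N, ind (lev b N j) n) t)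
  generalize ‖(1 / (N : ℂ)) * ∑ j ∈ Icc 1 N, D1 N (ind (lev b N j)) t‖ = x at *
  generalize ‖D1 N (fun n => (b n : ℂ) - (1 / (N : ℂ)) * ∑ j ∈ Icc 1 N, ind (lev b N j) n) t‖ = y at *
  have h9 : y ^ 2 ≤ 1 := by nlinarith
  nlinarith [sq_nonneg (x - y)]

lemma real_good1 {E : Set ℕ} {ε C : ℝ} (hε : 0 < ε) {N : ℕ} (hN : 1 ≤ N) {S : Finset ℝ}
    (h : ∀ A : Set ℕ, A ⊆ E → Good1 ε C N (ind A) S)
    (b : ℕ → ℝ) (h0 : ∀ n, 0 ≤ b n) (h1 : ∀ n, b n ≤ 1) (hb : ∀ n, n ∉ E → b n = 0) :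
    Good1 ε (2 * (|C| + 1)) N (fun n => (b n : ℂ)) S := by
  unfold Good1
  have hN0 : (0 : ℝ) < N := by exact_mod_cast hN
  have hN1 : (1 : ℝ) ≤ N := by exact_mod_cast hN
  obtain ⟨G, hG⟩ : ∃ G : ℝ, G = (N : ℝ) ^ ε * (((N : ℝ) + S.card) * N) := ⟨_, rfl⟩
  have hG0 : 0 ≤ G := by rw [hG]; positivity
  have hSG : (S.card : ℝ) ≤ G := by
    rw [hG]
    have h1 : 1 ≤ (N : ℝ) ^ ε := Real.one_le_rpow hN1 hε.le
    have h3 : (0 : ℝ) ≤ S.card := Nat.cast_nonneg _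
    calc (S.card : ℝ) = 1 * ((0 + S.card) * 1) := by ring
      _ ≤ _ := by
          apply mul_le_mul h1 _ (by positivity) (by positivity)
          apply mul_le_mul _ hN1 (by norm_num) (by positivity)
          linarith
  rw [← hG]
  have hj : ∀ j ∈ Icc 1 N, ∑ t ∈ S, ‖D1 N (ind (lev b N j)) t‖ ^ 2 ≤ |C| * G := by
    intro j hj
    have h2 := h (lev b N j) (by
      intro n hn
      by_contra hnE
      have h2 : (j : ℝ) ≤ N * b n := hn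
      rw [hb n hnE, mul_zero] at h2
      have h3 : (1 : ℝ) ≤ j := by exact_mod_cast (mem_Icc.1 hj).1
      linarith)
    unfold Good1 at h2
    rw [← hG] at h2
    exact h2.trans (mul_le_mul_of_nonneg_right (le_abs_self C) hG0)
  refine (sum_le_sum (s := S) fun (t : ℝ) _ => D1_real b h0 h1 N hN t).trans ?_
  rw [← mul_sum, mul_assoc]
  apply mul_le_mul_of_nonneg_left _ (by positivity)
  rw [sum_add_distrib, ← mul_sum, sum_comm, sum_const, nsmul_eq_mul]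
  have h3 := mul_le_mul_of_nonneg_left (sum_le_sum hj) (show (0 : ℝ) ≤ 1 / N by positivity)
  rw [sum_const, Nat.card_Icc, nsmul_eq_mul, Nat.add_sub_cancel] at h3
  have h4 : 1 / (N : ℝ) * (N * (|C| * G)) = |C| * G := by field_simp
  rw [h4] at h3
  linarith

/-- from coefficients `0`, `1` supported on `E` to all coefficients supported on `E` -/
theorem good_of_ind1 {E : Set ℕ} {ε C : ℝ} (hε : 0 < ε) {N : ℕ} (hN : 1 ≤ N) {S : Finset ℝ}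
    (h : ∀ A : Set ℕ, A ⊆ E → Good1 ε C N (ind A) S)
    (a : ℕ → ℂ) (ha : ∀ n, ‖a n‖ ≤ 1) (haE : ∀ n, n ∉ E → a n = 0) :
    Good1 ε (16 * (2 * (|C| + 1))) N a S := by
  have hre : ∀ n, |(a n).re| ≤ 1 := fun n => (Complex.abs_re_le_norm _).trans (ha n)
  have him : ∀ n, |(a n).im| ≤ 1 := fun n => (Complex.abs_im_le_norm _).trans (ha n)
  obtain ⟨C', hC'⟩ : ∃ C' : ℝ, C' = 2 * (|C| + 1) := ⟨_, rfl⟩
  rw [← hC']
  obtain ⟨G, hG⟩ : ∃ G : ℝ, G = (N : ℝ) ^ ε * (((N : ℝ) + S.card) * N) := ⟨_, rfl⟩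
  have part : ∀ g : ℕ → ℝ, (∀ n, |g n| ≤ 1) → (∀ n, n ∉ E → g n = 0) →
      ∑ t ∈ S, ‖D1 N (fun n => ((max (g n) 0 : ℝ) : ℂ)) t‖ ^ 2 ≤ C' * G := by
    intro g hg hgE
    have h2 := real_good1 hε hN h (fun n => max (g n) 0) (fun n => le_max_right _ _)
      (fun n => max_le ((le_abs_self _).trans (hg n)) zero_le_one) (fun n hn => by rw [hgE n hn]; simp)
    unfold Good1 at h2
    rw [← hC', ← hG] at h2
    exact h2
  have p1 := part (fun n => (a n).re) hre (fun n hn => by rw [haE n hn]; simp)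
  have p2 := part (fun n => -(a n).re) (fun n => by rw [abs_neg]; exact hre n) (fun n hn => by rw [haE n hn]; simp)
  have p3 := part (fun n => (a n).im) him (fun n hn => by rw [haE n hn]; simp)
  have p4 := part (fun n => -(a n).im) (fun n => by rw [abs_neg]; exact him n) (fun n hn => by rw [haE n hn]; simp)
  have e : ∀ t : ℝ, D1 N a t = (D1 N (fun n => ((max ((a n).re) 0 : ℝ) : ℂ)) t + (-1) * D1 N (fun n => ((max (-(a n).re) 0 : ℝ) : ℂ)) t) +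
      (Complex.I * D1 N (fun n => ((max ((a n).im) 0 : ℝ) : ℂ)) t + (-Complex.I) * D1 N (fun n => ((max (-(a n).im) 0 : ℝ) : ℂ)) t) := by
    intro t
    rw [← D1_smul, ← D1_smul, ← D1_smul, ← D1_add, ← D1_add, ← D1_add]
    apply D1_congr
    intro n
    have h1 : ∀ x : ℝ, max x 0 - max (-x) 0 = x := by
      intro x
      rcases le_total 0 x with h | h
      · rw [max_eq_left h, max_eq_right (by linarith)]; ring
      · rw [max_eq_right h, max_eq_left (by linarith)]; ring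
    apply Complex.ext
    · simp
      linarith [h1 (a n).re]
    · simp
      linarith [h1 (a n).im]
  have hsq : ∀ t ∈ S, ‖D1 N a t‖ ^ 2 ≤ 4 * (‖D1 N (fun n => ((max ((a n).re) 0 : ℝ) : ℂ)) t‖ ^ 2 +
      ‖D1 N (fun n => ((max (-(a n).re) 0 : ℝ) : ℂ)) t‖ ^ 2 + ‖D1 N (fun n => ((max ((a n).im) 0 : ℝ) : ℂ)) t‖ ^ 2 +
      ‖D1 N (fun n => ((max (-(a n).im) 0 : ℝ) : ℂ)) t‖ ^ 2) := by
    intro t _
    have h1 : ‖D1 N a t‖ ≤ ‖D1 N (fun n => ((max ((a n).re) 0 : ℝ) : ℂ)) t‖ + ‖D1 N (fun n => ((max (-(a n).re) 0 : ℝ) : ℂ)) t‖ +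
        ‖D1 N (fun n => ((max ((a n).im) 0 : ℝ) : ℂ)) t‖ + ‖D1 N (fun n => ((max (-(a n).im) 0 : ℝ) : ℂ)) t‖ := by
      rw [e t]
      refine (norm_add_le _ _).trans ?_
      refine (add_le_add (norm_add_le _ _) (norm_add_le _ _)).trans (le_of_eq ?_)
      rw [norm_mul, norm_mul, norm_mul, norm_neg, norm_neg, norm_one, Complex.norm_I]
      ring
    refine (pow_le_pow_left₀ (norm_nonneg _) h1 2).trans ?_
    generalize ‖D1 N (fun n => ((max ((a n).re) 0 : ℝ) : ℂ)) t‖ = x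
    generalize ‖D1 N (fun n => ((max (-(a n).re) 0 : ℝ) : ℂ)) t‖ = y
    generalize ‖D1 N (fun n => ((max ((a n).im) 0 : ℝ) : ℂ)) t‖ = z
    generalize ‖D1 N (fun n => ((max (-(a n).im) 0 : ℝ) : ℂ)) t‖ = w
    nlinarith [sq_nonneg (x - y), sq_nonneg (x - z), sq_nonneg (x - w), sq_nonneg (y - z), sq_nonneg (y - w), sq_nonneg (z - w)]
  unfold Good1
  rw [← hG]
  refine (sum_le_sum hsq).trans ?_
  rw [← mul_sum, sum_add_distrib, sum_add_distrib, sum_add_distrib]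
  linarith

/-- **the equivalence** -/
theorem main_ms {E : Set ℕ} (hE : Rich1 E) :
    (∀ ε : ℝ, 0 < ε → ∃ C : ℝ, ∀ (N : ℕ) (S : Finset ℝ) (a : ℕ → ℂ), 1 ≤ N → Sep N S →
      (∀ n, ‖a n‖ ≤ 1) → Good1 ε C N a S) ↔
    (∀ ε : ℝ, 0 < ε → ∃ C : ℝ, ∀ (N : ℕ) (S : Finset ℝ) (A : Set ℕ), A ⊆ E → 1 ≤ N → Sep N S →
      Good1 ε C N (ind A) S) := by
  constructor
  · intro h ε hε
    obtain ⟨C, hC⟩ := h ε hε
    exact ⟨C, fun N S A _ hN hS => hC N S _ hN hS (ind_norm A)⟩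
  · intro h
    apply engine1 hE
    intro ε hε
    obtain ⟨C, hC⟩ := h ε hε
    exact ⟨16 * (2 * (|C| + 1)), fun N S a hN hS ha haE =>
      good_of_ind1 hε hN (fun A hA => hC N S A hA hN hS) a ha haE⟩

end Pool.Agent.Q144.RS
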